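import Mathlib

set_option autoImplicit false

open MeasureTheory Metric Set Filter
open scoped ENNReal NNReal Topology

namespace Pool.Agent.helper30.JS

variable {n : ℕ}

lemma vol_cube (c : Fin n → ℝ) {r : ℝ} (hr : 0 ≤ r) :
    volume (closedBall c r) = ENNReal.ofReal ((2 * r) ^ n) := by
  simpa using Real.volume_pi_closedBall c hr

/-- the dimensional smallness level -/
noncomputable def gam (n : ℕ) : ℝ := (1 / 10) ^ n / 4

/-- the density level -/
noncomputable def the (n : ℕ) : ℝ := (1 / 2) ^ n / 2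

lemma gam_pos : 0 < gam n := by unfold gam; positivity
lemma the_pos : 0 < the n := by unfold the; positivity
lemma the_lt_one : the n < 1 := by
  unfold the
  have : ((1 : ℝ) / 2) ^ n ≤ 1 := pow_le_one₀ (by norm_num) (by norm_num)
  linarith

lemma gam_eq : (5 : ℝ) ^ n * gam n = the n / 2 := by
  unfold gam the
  have h : ((1 : ℝ) / 10) ^ n * 5 ^ n = (1 / 2) ^ n := by
    rw [← mul_pow]; norm_num
  nlinarith [h]

lemma gam_le_the : gam n ≤ the n / 2 := by
  rw [← gam_eq]
  have h1 : (1 : ℝ) ≤ 5 ^ n := one_le_pow₀ (by norm_num)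
  nlinarith [gam_pos (n := n)]

/-- existence of a half-size cube inside the intersection -/
lemma subcube {c x : Fin n → ℝ} {r ρ : ℝ} (hx : x ∈ closedBall c r) (hρ : 0 < ρ) (hρr : ρ ≤ r) :
    ∃ y : Fin n → ℝ, closedBall y (ρ / 2) ⊆ closedBall x ρ ∩ closedBall c r := by
  have hr : 0 ≤ r := by linarith
  refine ⟨fun i => if x i ≤ c i then x i + ρ / 2 else x i - ρ / 2, ?_⟩
  intro z hz
  rw [mem_closedBall, dist_pi_le_iff (by positivity)] at hz
  rw [mem_closedBall, dist_pi_le_iff hr] at hx
  refine ⟨?_, ?_⟩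
  · rw [mem_closedBall, dist_pi_le_iff hρ.le]
    intro i
    have h1 := hz i
    rw [Real.dist_eq, abs_le] at h1 ⊢
    split_ifs at h1 with h <;> constructor <;> linarith [h1.1, h1.2]
  · rw [mem_closedBall, dist_pi_le_iff hr]
    intro i
    have h1 := hz i
    have h2 := hx i
    rw [Real.dist_eq, abs_le] at h1 h2 ⊢
    split_ifs at h1 with h
    · constructor <;> linarith [h1.1, h1.2, h2.1, h2.2]
    · push Not at h
      constructor <;> linarith [h1.1, h1.2, h2.1, h2.2]

theorem step (β : (Fin n → ℝ) → ℝ) (s : ℝ) (m : (Fin n → ℝ) → ℝ → ℝ)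
    (hm : ∀ c r, 0 < r → volume {x ∈ closedBall c r | s < |β x - m c r|} ≤
      ENNReal.ofReal (gam n) * volume (closedBall c r))
    (B : ℝ≥0∞)
    (hB : ∀ c r, 0 < r → ∫⁻ x in closedBall c r, ‖β x - m c r‖ₑ ≤ B * volume (closedBall c r)) :
    ∀ c r, 0 < r → ∫⁻ x in closedBall c r, ‖β x - m c r‖ₑ ≤
      (2 * ENNReal.ofReal s + B / 2) * volume (closedBall c r) := by
  intro c0 r0 hr0
  set Q0 := closedBall c0 r0 with hQ0
  set m0 := m c0 r0 with hm0
  set E : Set (Fin n → ℝ) := {x ∈ Q0 | s < |β x - m0|} with hE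
  have hEQ : E ⊆ Q0 := fun x hx => hx.1
  have hEvol : volume E ≤ ENNReal.ofReal (gam n) * volume Q0 := hm c0 r0 hr0
  -- stopping predicate
  let S : (Fin n → ℝ) → ℝ → Prop := fun x r =>
    ENNReal.ofReal (the n) * volume (closedBall x r) < volume (E ∩ closedBall x r)
  -- claim 2 : stopping radii are small
  have hsmall : ∀ x r, 0 < r → S x r → 5 * r < r0 := by
    intro x r hr hS
    have h1 : ENNReal.ofReal (the n) * volume (closedBall x r) <
        ENNReal.ofReal (gam n) * volume Q0 :=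
      lt_of_lt_of_le hS ((measure_mono inter_subset_left).trans hEvol)
    rw [vol_cube x hr.le, hQ0, vol_cube c0 hr0.le, ← ENNReal.ofReal_mul the_pos.le,
      ← ENNReal.ofReal_mul gam_pos.le] at h1
    have h2 : the n * (2 * r) ^ n < gam n * (2 * r0) ^ n :=
      (ENNReal.ofReal_lt_ofReal_iff_of_nonneg (by have := the_pos (n := n); positivity)).1 h1
    have h3 : (5 * r) ^ n < r0 ^ n := by
      have e1 : the n * (2 * r) ^ n * 5 ^ n < (the n / 2) * (2 * r0) ^ n := by
        have := mul_lt_mul_of_pos_right h2 (show (0 : ℝ) < 5 ^ n by positivity)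
        calc the n * (2 * r) ^ n * 5 ^ n < gam n * (2 * r0) ^ n * 5 ^ n := this
          _ = (5 ^ n * gam n) * (2 * r0) ^ n := by ring
          _ = _ := by rw [gam_eq]
      have e2 : the n * (2 * r) ^ n * 5 ^ n = the n * 2 ^ n * (5 * r) ^ n := by
        rw [mul_pow, mul_pow]; ring
      have e3 : (the n / 2) * (2 * r0) ^ n = the n * 2 ^ n * (r0 ^ n / 2) := by
        rw [mul_pow]; ring
      rw [e2, e3] at e1
      have hp : 0 < the n * 2 ^ n := by have := the_pos (n := n); positivity
      have e4 : (5 * r) ^ n < r0 ^ n / 2 := lt_of_mul_lt_mul_left e1 hp.le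
      have : 0 < r0 ^ n := by positivity
      linarith
    exact lt_of_pow_lt_pow_left₀ n hr0.le h3
  -- claim 3 : existence of a good stopping radius
  have hstop : ∀ x r, 0 < r → S x r → ∃ ρ, 0 < ρ ∧ S x ρ ∧ ¬ S x (5 * ρ) := by
    intro x r hr hS
    have hex : ∃ k : ℕ, ¬ S x (5 ^ k * r) := by
      obtain ⟨k, hk⟩ := pow_unbounded_of_one_lt (r0 / r) (show (1 : ℝ) < 5 by norm_num)
      refine ⟨k, fun h => ?_⟩
      have := hsmall x _ (by positivity) h
      rw [div_lt_iff₀ hr] at hk
      have : 0 < 5 ^ k * r := by positivity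
      linarith
    classical
    have hk0 := Nat.find_spec hex
    have hne : Nat.find hex ≠ 0 := by
      intro h0
      rw [h0] at hk0
      simp at hk0
      exact hk0 hS
    obtain ⟨k, hk⟩ := Nat.exists_eq_succ_of_ne_zero hne
    refine ⟨5 ^ k * r, by positivity, ?_, ?_⟩
    · have := Nat.find_min hex (m := k) (by omega)
      simpa using this
    · rw [hk] at hk0
      have : (5 : ℝ) * (5 ^ k * r) = 5 ^ (Nat.succ k) * r := by rw [pow_succ]; ring
      rw [this]; exact hk0
  -- claim 1 : almost every point of E has a stopping radius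
  have hae : ∀ᵐ x ∂(volume.restrict E), ∃ r, 0 < r ∧ S x r := by
    filter_upwards [Besicovitch.ae_tendsto_measure_inter_div (volume : Measure (Fin n → ℝ)) E]
      with x hx
    have h1 : ENNReal.ofReal (the n) < 1 := by
      rw [ENNReal.ofReal_lt_one]; exact the_lt_one
    have h2 := hx.eventually (lt_mem_nhds h1)
    have h3 : ∀ᶠ r : ℝ in 𝓝[>] 0, 0 < r := eventually_mem_nhdsWithin
    obtain ⟨r, hr1, hr2⟩ := (h2.and h3).exists
    refine ⟨r, hr2, ?_⟩
    have hv : volume (closedBall x r) ≠ 0 := by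
      rw [vol_cube x hr2.le]
      simp only [ne_eq, ENNReal.ofReal_eq_zero, not_le]
      positivity
    have hv' : volume (closedBall x r) ≠ ⊤ := by
      rw [vol_cube x hr2.le]; exact ENNReal.ofReal_ne_top
    exact (ENNReal.lt_div_iff_mul_lt (Or.inl hv) (Or.inl hv')).1 hr1
  set T : Set (Fin n → ℝ) := {x ∈ E | ∃ r, 0 < r ∧ S x r} with hT
  have hTE : T ⊆ E := fun x hx => hx.1
  have hETnull : volume (E \ T) = 0 := by
    have h0 : volume.restrict E {x | ¬ ∃ r, 0 < r ∧ S x r} = 0 := hae
    have h1 := Measure.le_restrict_apply (μ := (volume : Measure (Fin n → ℝ))) E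
      {x | ¬ ∃ r, 0 < r ∧ S x r}
    rw [h0] at h1
    refine measure_mono_null ?_ (le_antisymm h1 bot_le)
    rintro x ⟨hxE, hxT⟩
    exact ⟨fun h => hxT ⟨hxE, h⟩, hxE⟩
  have hchoice : ∀ x : Fin n → ℝ, ∃ ρ : ℝ, x ∈ T → 0 < ρ ∧ S x ρ ∧ ¬ S x (5 * ρ) := by
    intro x
    by_cases hx : x ∈ T
    · obtain ⟨r, hr, hS⟩ := hx.2
      obtain ⟨ρ, h⟩ := hstop x r hr hS
      exact ⟨ρ, fun _ => h⟩
    · exact ⟨0, fun h => absurd h hx⟩
  choose ρ hρ using hchoice
  obtain ⟨u, huT, hudisj, hucov⟩ :=
    Vitali.exists_disjoint_subfamily_covering_enlargement_closedBall T (fun x => x) ρ r0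
      (fun x hx => by
        have h := hρ x hx
        have := hsmall x _ h.1 h.2.1
        linarith [h.1]) 5 (by norm_num)
  have hucount : u.Countable := by
    refine hudisj.countable_of_nonempty_interior ?_
    intro x hx
    have h := hρ x (huT hx)
    exact ⟨x, ball_subset_interior_closedBall (mem_ball_self h.1)⟩
  have : Countable u := hucount.to_subtype
  -- E is almost covered
  have hcov : T ⊆ ⋃ b : u, closedBall (b : Fin n → ℝ) (5 * ρ b) := by
    intro x hx
    obtain ⟨b, hb, hsub⟩ := hucov x hx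
    refine mem_iUnion.2 ⟨⟨b, hb⟩, hsub ?_⟩
    exact mem_closedBall_self (hρ x hx).1.le
  have hcov' : E ≤ᵐ[volume] ⋃ b : u, closedBall (b : Fin n → ℝ) (5 * ρ b) := by
    rw [ae_le_set]
    refine measure_mono_null ?_ hETnull
    intro x hx
    exact ⟨hx.1, fun h => hx.2 (hcov h)⟩
  -- the total mass of the enlarged cubes
  have hmass1 : ∀ b : u, volume (closedBall (b : Fin n → ℝ) (5 * ρ b)) ≤
      ENNReal.ofReal (5 ^ n / the n) * (volume.restrict E) (closedBall (b : Fin n → ℝ) (ρ b)) := by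
    intro b
    have h := hρ b (huT b.2)
    have h2 : ENNReal.ofReal (the n) * volume (closedBall (b : Fin n → ℝ) (ρ b)) ≤
        (volume.restrict E) (closedBall (b : Fin n → ℝ) (ρ b)) := by
      rw [Measure.restrict_apply measurableSet_closedBall, inter_comm]
      exact h.2.1.le
    calc volume (closedBall (b : Fin n → ℝ) (5 * ρ b))
        = ENNReal.ofReal (5 ^ n / the n) *
          (ENNReal.ofReal (the n) * volume (closedBall (b : Fin n → ℝ) (ρ b))) := by
          rw [vol_cube _ (by linarith [h.1]), vol_cube _ h.1.le,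
            ← ENNReal.ofReal_mul the_pos.le, ← ENNReal.ofReal_mul (by have := the_pos (n := n); positivity)]
          congr 1
          have := (the_pos (n := n)).ne'
          have e : (2 * (5 * ρ b)) ^ n = 5 ^ n * (2 * ρ b) ^ n := by
            rw [← mul_pow]; congr 1; ring
          rw [e]
          field_simp
      _ ≤ _ := by gcongr
  have hmass : ∑' b : u, volume (closedBall (b : Fin n → ℝ) (5 * ρ b)) ≤
      (1 / 2) * volume Q0 := by
    calc ∑' b : u, volume (closedBall (b : Fin n → ℝ) (5 * ρ b))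
        ≤ ∑' b : u, ENNReal.ofReal (5 ^ n / the n) *
            (volume.restrict E) (closedBall (b : Fin n → ℝ) (ρ b)) :=
          ENNReal.tsum_le_tsum hmass1
      _ = ENNReal.ofReal (5 ^ n / the n) *
          ∑' b : u, (volume.restrict E) (closedBall (b : Fin n → ℝ) (ρ b)) := ENNReal.tsum_mul_left
      _ = ENNReal.ofReal (5 ^ n / the n) *
          (volume.restrict E) (⋃ b ∈ u, closedBall (b : Fin n → ℝ) (ρ b)) := by
          rw [measure_biUnion hucount hudisj (fun b _ => measurableSet_closedBall)]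
      _ ≤ ENNReal.ofReal (5 ^ n / the n) * volume E := by
          refine mul_le_mul_right ?_ _
          calc (volume.restrict E) (⋃ b ∈ u, closedBall (b : Fin n → ℝ) (ρ b))
              ≤ (volume.restrict E) univ := measure_mono (subset_univ _)
            _ = volume E := by simp
      _ ≤ ENNReal.ofReal (5 ^ n / the n) * (ENNReal.ofReal (gam n) * volume Q0) := by
          gcongr
      _ = (1 / 2) * volume Q0 := by
          rw [← mul_assoc, ← ENNReal.ofReal_mul (by have := the_pos (n := n); positivity)]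
          congr 1
          have h1 : 5 ^ n / the n * gam n = 1 / 2 := by
            have := (the_pos (n := n)).ne'
            have h2 := gam_eq (n := n)
            field_simp
            linarith
          rw [h1, ENNReal.ofReal_div_of_pos (by norm_num)]
          simp
  -- comparison of the constants
  have hconst : ∀ b : u, |m b (5 * ρ b) - m0| ≤ 2 * s := by
    intro b
    have h := hρ b (huT b.2)
    have hb5 : 0 < 5 * ρ b := by linarith [h.1]
    have hbE : (b : Fin n → ℝ) ∈ E := hTE (huT b.2)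
    have hsm := hsmall b _ h.1 h.2.1
    obtain ⟨y, hy⟩ := subcube (hEQ hbE) hb5 hsm.le
    set Qb := closedBall (b : Fin n → ℝ) (5 * ρ b) with hQb
    set mb := m b (5 * ρ b) with hmb
    by_contra hcon
    push Not at hcon
    have hsub : closedBall y (5 * ρ b / 2) ⊆ (E ∩ Qb) ∪ {x ∈ Qb | s < |β x - mb|} := by
      intro x hx
      have hx1 := hy hx
      by_contra hnot
      rw [mem_union, not_or] at hnot
      have hA : |β x - m0| ≤ s := by
        by_contra hh
        push Not at hh
        exact hnot.1 ⟨⟨hx1.2, hh⟩, hx1.1⟩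
      have hB' : |β x - mb| ≤ s := by
        by_contra hh
        push Not at hh
        exact hnot.2 ⟨hx1.1, hh⟩
      have : |mb - m0| ≤ 2 * s := by
        rw [abs_le] at hA hB' ⊢
        constructor <;> linarith [hA.1, hA.2, hB'.1, hB'.2]
      linarith
    have h1 : volume (closedBall y (5 * ρ b / 2)) ≤
        ENNReal.ofReal (the n) * volume Qb + ENNReal.ofReal (gam n) * volume Qb := by
      refine (measure_mono hsub).trans ((measure_union_le _ _).trans ?_)
      gcongr
      · exact not_lt.1 h.2.2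
      · exact hm b (5 * ρ b) hb5
    rw [vol_cube y (by linarith), hQb, vol_cube _ hb5.le, ← ENNReal.ofReal_mul the_pos.le,
      ← ENNReal.ofReal_mul gam_pos.le, ← ENNReal.ofReal_add
        (by have := the_pos (n := n); positivity) (by have := gam_pos (n := n); positivity),
      ENNReal.ofReal_le_ofReal_iff
        (by have := the_pos (n := n); have := gam_pos (n := n); positivity)] at h1
    have e1 : (2 * (5 * ρ b / 2)) ^ n = (1 / 2) ^ n * (2 * (5 * ρ b)) ^ n := by
      rw [← mul_pow]; congr 1; ring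
    rw [e1] at h1
    have hp : 0 < (2 * (5 * ρ b)) ^ n := by positivity
    have h2 : (1 / 2 : ℝ) ^ n ≤ the n + gam n := by
      have : (1 / 2 : ℝ) ^ n * (2 * (5 * ρ b)) ^ n ≤ (the n + gam n) * (2 * (5 * ρ b)) ^ n := by
        linarith
      exact le_of_mul_le_mul_right this hp
    have h3 : (1 / 2 : ℝ) ^ n = 2 * the n := by unfold the; ring
    have h4 := gam_le_the (n := n)
    have h5 := the_pos (n := n)
    linarith
  -- integral over the enlarged cubes
  have hint : ∀ b : u, ∫⁻ x in closedBall (b : Fin n → ℝ) (5 * ρ b), ‖β x - m0‖ₑ ≤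
      (B + 2 * ENNReal.ofReal s) * volume (closedBall (b : Fin n → ℝ) (5 * ρ b)) := by
    intro b
    have h := hρ b (huT b.2)
    have hb5 : 0 < 5 * ρ b := by linarith [h.1]
    calc ∫⁻ x in closedBall (b : Fin n → ℝ) (5 * ρ b), ‖β x - m0‖ₑ
        ≤ ∫⁻ x in closedBall (b : Fin n → ℝ) (5 * ρ b),
          (‖β x - m b (5 * ρ b)‖ₑ + 2 * ENNReal.ofReal s) := by
          refine lintegral_mono fun x => ?_
          calc ‖β x - m0‖ₑ = ‖(β x - m b (5 * ρ b)) + (m b (5 * ρ b) - m0)‖ₑ := by
                congr 1; ring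
            _ ≤ ‖β x - m b (5 * ρ b)‖ₑ + ‖m b (5 * ρ b) - m0‖ₑ := enorm_add_le _ _
            _ ≤ ‖β x - m b (5 * ρ b)‖ₑ + 2 * ENNReal.ofReal s := by
                gcongr
                rw [← ofReal_norm, Real.norm_eq_abs]
                calc ENNReal.ofReal |m b (5 * ρ b) - m0| ≤ ENNReal.ofReal (2 * s) :=
                      ENNReal.ofReal_le_ofReal (hconst b)
                  _ = 2 * ENNReal.ofReal s := by
                      rw [ENNReal.ofReal_mul (by norm_num)]; simp
      _ = (∫⁻ x in closedBall (b : Fin n → ℝ) (5 * ρ b), ‖β x - m b (5 * ρ b)‖ₑ) +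
          2 * ENNReal.ofReal s * volume (closedBall (b : Fin n → ℝ) (5 * ρ b)) := by
          rw [lintegral_add_right _ measurable_const, setLIntegral_const]
      _ ≤ B * volume (closedBall (b : Fin n → ℝ) (5 * ρ b)) +
          2 * ENNReal.ofReal s * volume (closedBall (b : Fin n → ℝ) (5 * ρ b)) := by
          exact add_le_add (hB b (5 * ρ b) hb5) le_rfl
      _ = _ := by rw [add_mul]
  -- conclusion
  calc ∫⁻ x in Q0, ‖β x - m0‖ₑ
      ≤ ∫⁻ x in Q0, (ENNReal.ofReal s + E.indicator (fun x => ‖β x - m0‖ₑ) x) := by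
        refine setLIntegral_mono' measurableSet_closedBall ?_
        intro x hx
        by_cases hxE : x ∈ E
        · rw [indicator_of_mem hxE]; exact le_add_self
        · rw [indicator_of_notMem hxE, add_zero]
          have : |β x - m0| ≤ s := by
            by_contra hh
            push Not at hh
            exact hxE ⟨hx, hh⟩
          rw [← ofReal_norm, Real.norm_eq_abs]
          exact ENNReal.ofReal_le_ofReal this
    _ = ENNReal.ofReal s * volume Q0 + ∫⁻ x in Q0, E.indicator (fun x => ‖β x - m0‖ₑ) x := by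
        rw [lintegral_add_left measurable_const, setLIntegral_const]
    _ ≤ ENNReal.ofReal s * volume Q0 + ∫⁻ x, E.indicator (fun x => ‖β x - m0‖ₑ) x := by
        refine add_le_add le_rfl ?_
        exact lintegral_mono' Measure.restrict_le_self le_rfl
    _ ≤ ENNReal.ofReal s * volume Q0 + ∫⁻ x in E, ‖β x - m0‖ₑ := by
        exact add_le_add le_rfl (lintegral_indicator_le _ _)
    _ ≤ ENNReal.ofReal s * volume Q0 +
        ∫⁻ x in ⋃ b : u, closedBall (b : Fin n → ℝ) (5 * ρ b), ‖β x - m0‖ₑ := by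
        exact add_le_add le_rfl (lintegral_mono_set' hcov')
    _ ≤ ENNReal.ofReal s * volume Q0 +
        ∑' b : u, ∫⁻ x in closedBall (b : Fin n → ℝ) (5 * ρ b), ‖β x - m0‖ₑ := by
        exact add_le_add le_rfl (lintegral_iUnion_le _ _)
    _ ≤ ENNReal.ofReal s * volume Q0 +
        ∑' b : u, (B + 2 * ENNReal.ofReal s) * volume (closedBall (b : Fin n → ℝ) (5 * ρ b)) := by
        exact add_le_add le_rfl (ENNReal.tsum_le_tsum hint)
    _ = ENNReal.ofReal s * volume Q0 +
        (B + 2 * ENNReal.ofReal s) *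
          ∑' b : u, volume (closedBall (b : Fin n → ℝ) (5 * ρ b)) := by
        rw [ENNReal.tsum_mul_left]
    _ ≤ ENNReal.ofReal s * volume Q0 + (B + 2 * ENNReal.ofReal s) * ((1 / 2) * volume Q0) := by
        gcongr
    _ = (2 * ENNReal.ofReal s + B / 2) * volume Q0 := by
        have : (2 : ℝ≥0∞) * (1 / 2) = 1 := by
          rw [one_div]; exact ENNReal.mul_inv_cancel (by norm_num) (by norm_num)
        calc ENNReal.ofReal s * volume Q0 + (B + 2 * ENNReal.ofReal s) * ((1 / 2) * volume Q0)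
            = (ENNReal.ofReal s + ENNReal.ofReal s * (2 * (1 / 2)) + B * (1 / 2)) * volume Q0 := by
              ring
          _ = _ := by
              rw [this, mul_one, ← two_mul, ENNReal.div_eq_inv_mul (a := B), mul_comm B, one_div]

lemma vol_ne_zero (c : Fin n → ℝ) {r : ℝ} (hr : 0 < r) : volume (closedBall c r) ≠ 0 := by
  rw [vol_cube c hr.le]
  simp only [ne_eq, ENNReal.ofReal_eq_zero, not_le]
  positivity

lemma vol_ne_top (c : Fin n → ℝ) {r : ℝ} (hr : 0 < r) : volume (closedBall c r) ≠ ⊤ := by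
  rw [vol_cube c hr.le]
  exact ENNReal.ofReal_ne_top

theorem js (β : (Fin n → ℝ) → ℝ) (s : ℝ) (m : (Fin n → ℝ) → ℝ → ℝ)
    (hm : ∀ c r, 0 < r → volume {x ∈ closedBall c r | s < |β x - m c r|} ≤
      ENNReal.ofReal (gam n) * volume (closedBall c r))
    (B0 : ℝ≥0∞) (hB0t : B0 ≠ ⊤)
    (hB0 : ∀ c r, 0 < r →
      ∫⁻ x in closedBall c r, ‖β x - m c r‖ₑ ≤ B0 * volume (closedBall c r)) :
    ∀ c r, 0 < r → ∫⁻ x in closedBall c r, ‖β x - m c r‖ₑ ≤
      4 * ENNReal.ofReal s * volume (closedBall c r) := by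
  set P : Set ℝ≥0∞ := {B | ∀ c r, 0 < r →
    ∫⁻ x in closedBall c r, ‖β x - m c r‖ₑ ≤ B * volume (closedBall c r)} with hP
  have hPne : B0 ∈ P := hB0
  set Bs := sInf P with hBsdef
  have hBs : Bs ∈ P := by
    intro c r hr
    have hv0 := vol_ne_zero c hr
    have hvt := vol_ne_top c hr
    rw [← ENNReal.div_le_iff hv0 hvt]
    refine le_sInf ?_
    intro B hB
    rw [ENNReal.div_le_iff hv0 hvt]
    exact hB c r hr
  have hBs' : 2 * ENNReal.ofReal s + Bs / 2 ∈ P := step β s m hm Bs hBs
  have h1 : Bs ≤ 2 * ENNReal.ofReal s + Bs / 2 := sInf_le hBs'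
  have hBt : Bs ≠ ⊤ := ne_top_of_le_ne_top hB0t (sInf_le hPne)
  have hBt2 : Bs / 2 ≠ ⊤ := ENNReal.div_ne_top hBt (by norm_num)
  have h2 : Bs ≤ 4 * ENNReal.ofReal s := by
    have h3 : Bs / 2 + Bs / 2 ≤ 2 * ENNReal.ofReal s + Bs / 2 := by
      rwa [ENNReal.add_halves]
    have h4 : Bs / 2 ≤ 2 * ENNReal.ofReal s := (ENNReal.add_le_add_iff_right hBt2).1 h3
    calc Bs = Bs / 2 + Bs / 2 := (ENNReal.add_halves _).symm
      _ ≤ 2 * ENNReal.ofReal s + 2 * ENNReal.ofReal s := add_le_add h4 h4
      _ = 4 * ENNReal.ofReal s := by ring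
  intro c r hr
  refine (hBs c r hr).trans ?_
  gcongr

lemma center_dist {β : (Fin n → ℝ) → ℝ} (hβ : AEMeasurable β volume) (c : Fin n → ℝ) {r : ℝ}
    (hr : 0 < r) {s m a A : ℝ} (hA : 0 < A)
    (h1 : volume {x ∈ closedBall c r | s < |β x - m|} ≤
      ENNReal.ofReal (gam n) * volume (closedBall c r))
    (h2 : ∫⁻ x in closedBall c r, ‖β x - a‖ₑ ≤ ENNReal.ofReal A * volume (closedBall c r)) :
    |m - a| ≤ s + 2 * A := by
  by_contra hcon
  push Not at hcon
  have hv0 := vol_ne_zero c hr
  have hvt := vol_ne_top c hr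
  set V := volume (closedBall c r) with hV
  have hcheb : ENNReal.ofReal (2 * A) * (volume.restrict (closedBall c r))
      {x | ENNReal.ofReal (2 * A) ≤ ‖β x - a‖ₑ} ≤ ENNReal.ofReal A * V := by
    refine (mul_meas_ge_le_lintegral₀ ?_ _).trans h2
    exact ((hβ.restrict).sub_const a).enorm
  have h3 : (volume.restrict (closedBall c r)) {x | ENNReal.ofReal (2 * A) ≤ ‖β x - a‖ₑ} ≤ V / 2 := by
    have e1 : ENNReal.ofReal (2 * A) = 2 * ENNReal.ofReal A := by
      rw [ENNReal.ofReal_mul (by norm_num)]; simp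
    rw [e1] at hcheb ⊢
    have hA0 : ENNReal.ofReal A ≠ 0 := by simpa using hA
    have hAt : ENNReal.ofReal A ≠ ⊤ := ENNReal.ofReal_ne_top
    rw [ENNReal.le_div_iff_mul_le (Or.inl (by norm_num)) (Or.inl (by norm_num))]
    rw [mul_comm (2 : ℝ≥0∞), mul_assoc] at hcheb
    rw [mul_comm _ (2 : ℝ≥0∞)]
    rw [mul_comm (2 : ℝ≥0∞) (ENNReal.ofReal A)]
    exact (ENNReal.mul_le_mul_iff_right hA0 hAt).1 hcheb
  have hsub : closedBall c r ⊆ {x ∈ closedBall c r | s < |β x - m|} ∪
      ({x | ENNReal.ofReal (2 * A) ≤ ‖β x - a‖ₑ} ∩ closedBall c r) := by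
    intro x hx
    by_contra hnot
    rw [mem_union, not_or] at hnot
    have hA1 : |β x - m| ≤ s := by
      by_contra hh
      push Not at hh
      exact hnot.1 ⟨hx, hh⟩
    have hA2 : |β x - a| ≤ 2 * A := by
      by_contra hh
      push Not at hh
      refine hnot.2 ⟨?_, hx⟩
      rw [Set.mem_ofPred_eq, ← ofReal_norm, Real.norm_eq_abs]
      exact ENNReal.ofReal_le_ofReal hh.le
    have : |m - a| ≤ s + 2 * A := by
      rw [abs_le] at hA1 hA2 ⊢
      constructor <;> linarith [hA1.1, hA1.2, hA2.1, hA2.2]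
    linarith
  have h4 : V ≤ ENNReal.ofReal (gam n) * V + V / 2 := by
    calc V ≤ volume {x ∈ closedBall c r | s < |β x - m|} +
        volume ({x | ENNReal.ofReal (2 * A) ≤ ‖β x - a‖ₑ} ∩ closedBall c r) :=
          (measure_mono hsub).trans (measure_union_le _ _)
      _ ≤ ENNReal.ofReal (gam n) * V + V / 2 :=
          add_le_add h1 ((Measure.le_restrict_apply _ _).trans h3)
  have h5 : ENNReal.ofReal (gam n) ≤ ENNReal.ofReal (1 / 4) := by
    refine ENNReal.ofReal_le_ofReal ?_
    have := gam_le_the (n := n)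
    have h6 : the n ≤ 1 / 2 := by
      unfold the
      have : ((1 : ℝ) / 2) ^ n ≤ 1 := pow_le_one₀ (by norm_num) (by norm_num)
      linarith
    linarith
  have h7 : V ≤ ENNReal.ofReal (3 / 4) * V := by
    calc V ≤ ENNReal.ofReal (1 / 4) * V + ENNReal.ofReal (1 / 2) * V := by
          refine h4.trans (add_le_add (by gcongr) ?_)
          rw [ENNReal.div_eq_inv_mul, one_div, ENNReal.ofReal_inv_of_pos (by norm_num)]
          simp
      _ = ENNReal.ofReal (3 / 4) * V := by
          rw [← add_mul, ← ENNReal.ofReal_add (by norm_num) (by norm_num)]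
          norm_num
  have h8 : ENNReal.ofReal (3 / 4) * V < 1 * V := by
    refine ENNReal.mul_lt_mul_left hv0 hvt ?_
    rw [ENNReal.ofReal_lt_one]; norm_num
  rw [one_mul] at h8
  exact absurd h7 (not_le.2 h8)

theorem bmo_small {β : (Fin n → ℝ) → ℝ} (hβ : AEMeasurable β volume) {A : ℝ} (hA : 0 < A)
    (h1 : ∀ c r, 0 < r → ∃ a : ℝ, ∫⁻ x in closedBall c r, ‖β x - a‖ₑ ≤
      ENNReal.ofReal A * volume (closedBall c r))
    {s : ℝ}
    (h2 : ∀ c r, 0 < r → ∃ m : ℝ, volume {x ∈ closedBall c r | s < |β x - m|} ≤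
      ENNReal.ofReal (gam n) * volume (closedBall c r)) :
    ∀ c r, 0 < r → ∃ m : ℝ, ∫⁻ x in closedBall c r, ‖β x - m‖ₑ ≤
      4 * ENNReal.ofReal s * volume (closedBall c r) := by
  have h2' : ∀ c r, ∃ m : ℝ, 0 < r → volume {x ∈ closedBall c r | s < |β x - m|} ≤
      ENNReal.ofReal (gam n) * volume (closedBall c r) := by
    intro c r
    by_cases hr : 0 < r
    · obtain ⟨m, hm⟩ := h2 c r hr
      exact ⟨m, fun _ => hm⟩
    · exact ⟨0, fun h => absurd h hr⟩
  choose m hm using h2'
  intro c r hr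
  refine ⟨m c r, js β s m hm (ENNReal.ofReal A + ENNReal.ofReal (s + 2 * A)) ?_ ?_ c r hr⟩
  · exact ENNReal.add_ne_top.2 ⟨ENNReal.ofReal_ne_top, ENNReal.ofReal_ne_top⟩
  · intro c r hr
    obtain ⟨a, ha⟩ := h1 c r hr
    have hd := center_dist hβ c hr hA (hm c r hr) ha
    calc ∫⁻ x in closedBall c r, ‖β x - m c r‖ₑ
        ≤ ∫⁻ x in closedBall c r, (‖β x - a‖ₑ + ENNReal.ofReal (s + 2 * A)) := by
          refine lintegral_mono fun x => ?_
          calc ‖β x - m c r‖ₑ = ‖(β x - a) + (a - m c r)‖ₑ := by congr 1; ring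
            _ ≤ ‖β x - a‖ₑ + ‖a - m c r‖ₑ := enorm_add_le _ _
            _ ≤ ‖β x - a‖ₑ + ENNReal.ofReal (s + 2 * A) := by
                refine add_le_add le_rfl ?_
                rw [← ofReal_norm, Real.norm_eq_abs, abs_sub_comm]
                exact ENNReal.ofReal_le_ofReal hd
      _ = (∫⁻ x in closedBall c r, ‖β x - a‖ₑ) +
          ENNReal.ofReal (s + 2 * A) * volume (closedBall c r) := by
          rw [lintegral_add_right _ measurable_const, setLIntegral_const]
      _ ≤ _ := by
          rw [add_mul]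
          exact add_le_add ha le_rfl

end Pool.Agent.helper30.JS
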