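import Pool.Agent.helper30.CIPDefs

/-!
# Strict contractions and mapping cylinders
-/

set_option autoImplicit false

open Set Topology TopologicalSpace

namespace Pool.Agent.helper30.CIP

/-! ### Strict contractions -/

/-- `X` has a strict contraction to `a`. -/
def StrictTo (X : Type) [TopologicalSpace X] (a : X) : Prop :=
  ∃ H : X → ℝ → X, Continuous (fun p : X × ℝ => H p.1 p.2) ∧ (∀ x, H x 0 = x) ∧
    (∀ x, H x 1 = a) ∧ (∀ t, H a t = a) ∧ ∀ x t, 0 < t → t ≤ 1 → H x t = x → x = a

/-- Tube lemma: a parameter may be discontinuous where the map does not depend on it. -/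
lemma continuousAt_param {P X : Type} [TopologicalSpace P] [TopologicalSpace X]
    (K : P × ℝ → X) (hK : Continuous K) (w : P → ℝ) (p₀ : P) (hw : ∀ p, w p ∈ Icc (0 : ℝ) 1)
    (c : X) (hc : ∀ u ∈ Icc (0 : ℝ) 1, K (p₀, u) = c) :
    ContinuousAt (fun p => K (p, w p)) p₀ := by
  intro U hU
  have hU' : U ∈ 𝓝 c := by
    have : K (p₀, w p₀) = c := hc _ (hw p₀)
    simpa [this] using hU
  have h1 : ∀ u ∈ Icc (0 : ℝ) 1, ∀ᶠ z in 𝓝 (p₀, u), K z ∈ U := by
    intro u hu
    apply hK.continuousAt
    rw [hc u hu]; exact hU'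
  have h2 := isCompact_Icc.eventually_forall_of_forall_eventually
    (P := fun (p : P) (u : ℝ) => K (p, u) ∈ U) (x₀ := p₀) h1
  change ∀ᶠ p in 𝓝 p₀, K (p, w p) ∈ U
  filter_upwards [h2] with p hp
  exact hp _ (hw p)

/-- `φ` is a strict deformation retraction of `X` onto `j Z`. -/
structure SRet {X Z : Type} [TopologicalSpace X] [TopologicalSpace Z]
    (j : Z → X) (r : X → Z) (φ : X → ℝ → X) : Prop where
  cj : Continuous j
  cr : Continuous r
  cφ : Continuous fun p : X × ℝ => φ p.1 p.2
  rj : ∀ z, r (j z) = z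
  zero : ∀ x, φ x 0 = x
  one : ∀ x, φ x 1 = j (r x)
  stat : ∀ z t, φ (j z) t = j z
  strict : ∀ x t, 0 < t → t ≤ 1 → φ x t = x → ∃ z, j z = x

/-- clamp to `[0,1]` -/
noncomputable def cl (t : ℝ) : ℝ := max 0 (min t 1)

lemma continuous_cl : Continuous cl := by unfold cl; fun_prop
lemma cl_nonneg (t : ℝ) : 0 ≤ cl t := le_max_left _ _
lemma cl_le_one (t : ℝ) : cl t ≤ 1 := max_le zero_le_one (min_le_right _ _)
lemma cl_of_mem {t : ℝ} (h0 : 0 ≤ t) (h1 : t ≤ 1) : cl t = t := by
  unfold cl; rw [min_eq_left h1, max_eq_right h0]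
@[simp] lemma cl_zero : cl 0 = 0 := cl_of_mem le_rfl zero_le_one
@[simp] lemma cl_one : cl 1 = 1 := cl_of_mem zero_le_one le_rfl

/-- Transitivity of strict deformation retractions. -/
theorem SRet.trans {X Z C : Type} [TopologicalSpace X] [TopologicalSpace Z] [TopologicalSpace C]
    {j : Z → X} {r : X → Z} {φ : X → ℝ → X} (h1 : SRet j r φ)
    {i : C → Z} {s : Z → C} {ψ : Z → ℝ → Z} (h2 : SRet i s ψ)
    (d : X → ℝ) (hd : Continuous d) (hd0 : ∀ x, 0 ≤ d x) (hd1 : ∀ x, d x = 0 ↔ ∃ z, j z = x) :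
    ∃ χ : X → ℝ → X, SRet (j ∘ i) (s ∘ r) χ := by
  classical
  set K : X → ℝ → X := fun x τ => if τ ≤ 1 / 2 then φ x (2 * τ) else j (ψ (r x) (2 * τ - 1))
    with hKdef
  have hKc : Continuous fun p : X × ℝ => K p.1 p.2 := by
    apply Continuous.if_le
    · exact h1.cφ.comp (by fun_prop : Continuous fun p : X × ℝ => (p.1, 2 * p.2))
    · have hr := h1.cr
      exact h1.cj.comp (h2.cφ.comp
        (by fun_prop : Continuous fun p : X × ℝ => (r p.1, 2 * p.2 - 1)))
    · fun_prop
    · fun_prop
    · rintro ⟨x, τ⟩ hτ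
      simp only at hτ
      subst hτ
      have e1 : (2 : ℝ) * (1 / 2) = 1 := by norm_num
      simp only [e1, sub_self]
      rw [h1.one, h2.zero]
  set ρ : X → ℝ → ℝ := fun x t => (1 - t) * (1 / 2) * (t / (t + d x)) + t with hρdef
  have hwI : ∀ x t, 0 ≤ t → t / (t + d x) ∈ Icc (0 : ℝ) 1 := by
    intro x t ht
    have := hd0 x
    exact ⟨by positivity, div_le_one_of_le₀ (by linarith) (by linarith)⟩
  refine ⟨fun x t => K x (ρ x (cl t)), ?_⟩
  refine ⟨h1.cj.comp h2.cj, h2.cr.comp h1.cr, ?_, ?_, ?_, ?_, ?_, ?_⟩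
  · -- continuity
    rw [continuous_iff_continuousAt]
    rintro ⟨x₀, t₀⟩
    let K' : (X × ℝ) × ℝ → X := fun q => K q.1.1 ((1 - cl q.1.2) * (1 / 2) * q.2 + cl q.1.2)
    have hK' : Continuous K' := by
      have := continuous_cl
      exact hKc.comp (by fun_prop :
        Continuous fun q : (X × ℝ) × ℝ => (q.1.1, (1 - cl q.1.2) * (1 / 2) * q.2 + cl q.1.2))
    let w : X × ℝ → ℝ := fun p => cl p.2 / (cl p.2 + d p.1)
    have hw : ∀ p, w p ∈ Icc (0 : ℝ) 1 := fun p => hwI _ _ (cl_nonneg _)
    change ContinuousAt (fun p => K' (p, w p)) (x₀, t₀)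
    by_cases hz : cl t₀ + d x₀ = 0
    · have h01 := cl_nonneg t₀
      have h02 := hd0 x₀
      have ht : cl t₀ = 0 := by linarith
      have hx : d x₀ = 0 := by linarith
      obtain ⟨z, hz⟩ := (hd1 x₀).1 hx
      apply continuousAt_param K' hK' w _ hw x₀
      intro u hu
      simp only [K', ht]
      have : (1 - (0 : ℝ)) * (1 / 2) * u + 0 ≤ 1 / 2 := by linarith [hu.2]
      simp only [hKdef, if_pos this]
      rw [← hz, h1.stat]
    · apply ContinuousAt.comp (f := fun p => (p, w p)) hK'.continuousAt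
      apply ContinuousAt.prodMk continuousAt_id
      have c1 : Continuous fun p : X × ℝ => cl p.2 := continuous_cl.comp continuous_snd
      have c2 : Continuous fun p : X × ℝ => cl p.2 + d p.1 := c1.add (hd.comp continuous_fst)
      exact c1.continuousAt.div c2.continuousAt hz
  · intro c
    simp [h1.rj, h2.rj]
  · intro x
    simp only [hρdef, cl_zero]
    norm_num
    simp [hKdef, h1.zero]
  · intro x
    simp only [hρdef, cl_one]
    norm_num
    simp only [hKdef]
    norm_num
    rw [h2.one]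
  · intro c t
    simp only [hKdef, Function.comp]
    split_ifs
    · rw [h1.stat]
    · rw [h1.rj, h2.stat]
  · intro x t ht0 ht1 hx
    simp only [cl_of_mem ht0.le ht1] at hx
    have hw := hwI x t ht0.le
    have hρ0 : 0 < ρ x t := by
      simp only [hρdef]
      have : 0 ≤ (1 - t) * (1 / 2) * (t / (t + d x)) :=
        mul_nonneg (by linarith) hw.1
      linarith
    have hρ1 : ρ x t ≤ 1 := by
      simp only [hρdef]
      have : (1 - t) * (1 / 2) * (t / (t + d x)) ≤ (1 - t) * (1 / 2) * 1 :=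
        mul_le_mul_of_nonneg_left hw.2 (by linarith)
      linarith
    by_cases hh : ρ x t ≤ 1 / 2
    · simp only [hKdef, if_pos hh] at hx
      have hz := h1.strict x _ (by linarith) (by linarith) hx
      have hdx : d x = 0 := (hd1 x).2 hz
      exfalso
      simp only [hρdef, hdx, add_zero] at hh
      rw [div_self ht0.ne'] at hh
      linarith
    · simp only [hKdef, if_neg hh] at hx
      push Not at hh
      have hrx : r x = ψ (r x) (2 * ρ x t - 1) := by
        conv_lhs => rw [← hx]
        rw [h1.rj]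
      obtain ⟨c, hc⟩ := h2.strict (r x) _ (by linarith) (by linarith) hrx.symm
      refine ⟨c, ?_⟩
      rw [← hrx] at hx
      simp [hc, hx]

theorem StrictTo.sret {Z : Type} [TopologicalSpace Z] {a : Z} (h : StrictTo Z a) :
    ∃ ψ : Z → ℝ → Z, SRet (fun _ : Unit => a) (fun _ : Z => ()) ψ := by
  obtain ⟨H, hc, h0, h1, hs, hst⟩ := h
  exact ⟨H, continuous_const, continuous_const, hc, fun _ => rfl, h0, h1, fun _ => hs,
    fun x t ht0 ht1 hx => ⟨(), (hst x t ht0 ht1 hx).symm⟩⟩

theorem SRet.strictTo {X Z : Type} [TopologicalSpace X] [MetrizableSpace X] [TopologicalSpace Z]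
    {j : Z → X} {r : X → Z} {φ : X → ℝ → X} (h1 : SRet j r φ)
    {a : Z} (ha : StrictTo Z a) : StrictTo X (j a) := by
  letI := metrizableSpaceMetric X
  obtain ⟨ψ, h2⟩ := ha.sret
  have hcl : IsClosed (range j) := by
    have : range j = {x | φ x 1 = x} := by
      ext x
      constructor
      · rintro ⟨z, rfl⟩
        exact h1.stat z 1
      · intro hx
        exact ⟨r x, by rw [← h1.one]; exact hx⟩
    rw [this]
    exact isClosed_eq (h1.cφ.comp (by fun_prop : Continuous fun x : X => (x, (1 : ℝ))))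
      continuous_id
  have hne : (range j).Nonempty := ⟨j a, a, rfl⟩
  obtain ⟨χ, h⟩ := h1.trans h2 (fun x => Metric.infDist x (range j))
    (Metric.continuous_infDist_pt _) (fun x => Metric.infDist_nonneg)
    (fun x => (hcl.mem_iff_infDist_zero hne).symm)
  refine ⟨χ, h.cφ, h.zero, fun x => by simpa using h.one x, fun t => h.stat () t, ?_⟩
  intro x t ht0 ht1 hx
  obtain ⟨z, hz⟩ := h.strict x t ht0 ht1 hx
  exact hz.symm

/-- A strict contraction to a point of `A` gives a map with fixed point set `A`. -/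
theorem StrictTo.fix {X : Type} [TopologicalSpace X] [MetrizableSpace X] {a : X}
    (h : StrictTo X a) (A : Set X) (hA : IsClosed A) (haA : a ∈ A) :
    ∃ f : X → X, Continuous f ∧ {x | f x = x} = A := by
  letI := metrizableSpaceMetric X
  obtain ⟨H, hc, h0, -, -, hst⟩ := h
  refine ⟨fun x => H x (min 1 (Metric.infDist x A)), ?_, ?_⟩
  · have := Metric.continuous_infDist_pt A
    exact hc.comp (by fun_prop : Continuous fun x => (x, min 1 (Metric.infDist x A)))
  · ext x
    simp only [mem_setOf_eq]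
    have hiff := hA.mem_iff_infDist_zero ⟨a, haA⟩ (x := x)
    constructor
    · intro hx
      by_contra hxA
      have hpos : 0 < Metric.infDist x A :=
        lt_of_le_of_ne Metric.infDist_nonneg (fun h => hxA (hiff.2 h.symm))
      exact hxA ((hst x _ (lt_min one_pos hpos) (min_le_left _ _) hx) ▸ haA)
    · intro hx
      rw [hiff.1 hx, min_eq_right zero_le_one, h0]

theorem StrictTo.pi {X : ℕ → Type} [∀ n, TopologicalSpace (X n)] (a : ∀ n, X n)
    (h : ∀ n, StrictTo (X n) (a n)) : StrictTo (∀ n, X n) a := by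
  choose H hc h0 h1 hs hst using h
  refine ⟨fun x t n => H n (x n) t, ?_, ?_, ?_, ?_, ?_⟩
  · refine continuous_pi fun n => ?_
    exact (hc n).comp (by fun_prop : Continuous fun p : (∀ n, X n) × ℝ => (p.1 n, p.2))
  · intro x; funext n; exact h0 n _
  · intro x; funext n; exact h1 n _
  · intro t; funext n; exact hs n t
  · intro x t ht0 ht1 hx
    funext n
    exact hst n _ t ht0 ht1 (congrFun hx n)

/-- The clamp with values in the unit interval. -/
noncomputable def clI (t : ℝ) : unitInterval := ⟨cl t, cl_nonneg t, cl_le_one t⟩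

lemma continuous_clI : Continuous clI := by
  unfold clI
  exact continuous_cl.subtype_mk _

lemma clI_zero : clI 0 = 0 := Subtype.ext cl_zero
lemma clI_one : clI 1 = 1 := Subtype.ext cl_one
lemma clI_coe (u : unitInterval) : clI u = u := Subtype.ext (cl_of_mem u.2.1 u.2.2)

/-- A continuous choice of shortest paths. -/
theorem strictTo_geodesic {X : Type} [MetricSpace X] (W : X × X × unitInterval → X)
    (hW : Continuous W) (h0 : ∀ x y, W (x, y, 0) = x) (h1 : ∀ x y, W (x, y, 1) = y)
    (hd : ∀ x y t, dist x (W (x, y, t)) = t * dist x y) (a : X) : StrictTo X a := by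
  refine ⟨fun x t => W (x, a, clI t), ?_, ?_, ?_, ?_, ?_⟩
  · have := continuous_clI
    exact hW.comp (by fun_prop : Continuous fun p : X × ℝ => (p.1, a, clI p.2))
  · intro x; simp only [clI_zero, h0]
  · intro x; simp only [clI_one, h1]
  · intro t
    have := hd a a (clI t)
    rw [dist_self, mul_zero] at this
    exact (dist_eq_zero.1 this).symm
  · intro x t ht0 ht1 hx
    have := hd x a (clI t)
    change W (x, a, clI t) = x at hx
    rw [hx, dist_self] at this
    have hcl : ((clI t : unitInterval) : ℝ) = t := cl_of_mem ht0.le ht1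
    rw [hcl] at this
    rcases mul_eq_zero.1 this.symm with h | h
    · exact absurd h ht0.ne'
    · exact dist_eq_zero.1 h

/-- Descending a map through a closed surjection times the real line. -/
theorem descend {S X W : Type} [TopologicalSpace S] [TopologicalSpace X] [TopologicalSpace W]
    [CompactSpace S] [T2Space X] (p : S → X) (hp : Continuous p) (hs : Function.Surjective p)
    (F : S → ℝ → W) (hF : Continuous fun q : S × ℝ => F q.1 q.2)
    (hc : ∀ s s', p s = p s' → ∀ t, F s t = F s' t) :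
    ∃ G : X → ℝ → W, Continuous (fun q : X × ℝ => G q.1 q.2) ∧ ∀ s t, G (p s) t = F s t := by
  refine ⟨fun x t => F (Function.surjInv hs x) t, ?_, ?_⟩
  · have hprop : IsProperMap (Prod.map p (id : ℝ → ℝ)) := hp.isProperMap.prodMap isProperMap_id
    have hq : IsQuotientMap (Prod.map p (id : ℝ → ℝ)) :=
      hprop.isClosedMap.isQuotientMap hprop.continuous (hs.prodMap Function.surjective_id)
    rw [hq.continuous_iff]
    have : ((fun q : X × ℝ => F (Function.surjInv hs q.1) q.2) ∘ Prod.map p (id : ℝ → ℝ)) =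
        fun q : S × ℝ => F q.1 q.2 := by
      funext q
      exact hc _ _ (Function.surjInv_eq hs _) _
    rw [this]; exact hF
  · intro s t
    exact hc _ _ (Function.surjInv_eq hs _) _

lemma cont_sum_prod {A B W : Type} [TopologicalSpace A] [TopologicalSpace B] [TopologicalSpace W]
    (F : (A ⊕ B) × ℝ → W) (h1 : Continuous fun q : A × ℝ => F (Sum.inl q.1, q.2))
    (h2 : Continuous fun q : B × ℝ => F (Sum.inr q.1, q.2)) : Continuous F := by
  rw [← (Homeomorph.sumProdDistrib (X := A) (Y := B) (Z := ℝ)).symm.comp_continuous_iff']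
  exact continuous_sum_dom.2 ⟨h1, h2⟩

/-- One point unions. -/
theorem strictTo_wedge {X X₁ X₂ : Type} [TopologicalSpace X] [MetrizableSpace X]
    [TopologicalSpace X₁] [TopologicalSpace X₂] [CompactSpace X₁] [CompactSpace X₂]
    (i₁ : X₁ → X) (i₂ : X₂ → X) (c₁ : Continuous i₁) (c₂ : Continuous i₂)
    (n₁ : Function.Injective i₁) (n₂ : Function.Injective i₂)
    (cover : ∀ x, (∃ y, i₁ y = x) ∨ ∃ y, i₂ y = x) (p₁ : X₁) (p₂ : X₂)
    (h : ∀ x₁ x₂, i₁ x₁ = i₂ x₂ ↔ x₁ = p₁ ∧ x₂ = p₂) (a : X₁) (ha : StrictTo X₁ a)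
    (hp : StrictTo X₂ p₂) : StrictTo X (i₁ a) := by
  obtain ⟨H, hc, h0, h1, hs, hst⟩ := hp
  have hpc : Continuous (Sum.elim i₁ i₂) := continuous_sum_dom.2 ⟨c₁, c₂⟩
  have hps : Function.Surjective (Sum.elim i₁ i₂) := by
    intro x
    rcases cover x with ⟨y, hy⟩ | ⟨y, hy⟩
    · exact ⟨Sum.inl y, hy⟩
    · exact ⟨Sum.inr y, hy⟩
  obtain ⟨φ, cφ, hφ⟩ := descend (Sum.elim i₁ i₂) hpc hps
    (fun s t => Sum.elim (fun x => i₁ x) (fun x => i₂ (H x t)) s)
    (by
      apply cont_sum_prod
      · exact c₁.comp continuous_fst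
      · exact c₂.comp hc)
    (by
      rintro (x | x) (y | y) hxy t
      · exact congrArg i₁ (n₁ hxy)
      · obtain ⟨rfl, rfl⟩ := (h x y).1 hxy
        change i₁ x = i₂ (H y t)
        rw [hs]; exact hxy
      · obtain ⟨rfl, rfl⟩ := (h y x).1 hxy.symm
        change i₂ (H x t) = i₁ y
        rw [hs]; exact hxy
      · rw [n₂ hxy])
  obtain ⟨R, cR, hR⟩ := descend (Sum.elim i₁ i₂) hpc hps
    (fun s _ => Sum.elim (fun x => x) (fun _ => p₁) s)
    (by
      apply cont_sum_prod
      · exact continuous_fst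
      · exact continuous_const)
    (by
      rintro (x | x) (y | y) hxy t
      · exact n₁ hxy
      · obtain ⟨rfl, rfl⟩ := (h x y).1 hxy
        rfl
      · obtain ⟨rfl, rfl⟩ := (h y x).1 hxy.symm
        rfl
      · rfl)
  have hφ1 : ∀ x t, φ (i₁ x) t = i₁ x := fun x t => hφ (Sum.inl x) t
  have hφ2 : ∀ x t, φ (i₂ x) t = i₂ (H x t) := fun x t => hφ (Sum.inr x) t
  have hR1 : ∀ x, R (i₁ x) 0 = x := fun x => hR (Sum.inl x) 0
  have hR2 : ∀ x, R (i₂ x) 0 = p₁ := fun x => hR (Sum.inr x) 0
  have S : SRet i₁ (fun x => R x 0) φ := by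
    refine ⟨c₁, cR.comp (by fun_prop : Continuous fun x : X => (x, (0 : ℝ))), cφ, hR1,
      ?_, ?_, hφ1, ?_⟩
    · intro x
      rcases cover x with ⟨y, rfl⟩ | ⟨y, rfl⟩
      · exact hφ1 y 0
      · rw [hφ2, h0]
    · intro x
      rcases cover x with ⟨y, rfl⟩ | ⟨y, rfl⟩
      · rw [hφ1, hR1]
      · rw [hφ2, h1, hR2]; exact ((h p₁ p₂).2 ⟨rfl, rfl⟩).symm
    · intro x t ht0 ht1 hx
      rcases cover x with ⟨y, rfl⟩ | ⟨y, rfl⟩
      · exact ⟨y, rfl⟩
      · rw [hφ2] at hx
        have := hst y t ht0 ht1 (n₂ hx)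
        exact ⟨p₁, by rw [this]; exact (h p₁ p₂).2 ⟨rfl, rfl⟩⟩
  exact S.strictTo ha

/-! ### A space with a whisker -/

theorem strictTo_unit : StrictTo unitInterval 1 := by
  have hm : ∀ (u : unitInterval) (t : ℝ), (u : ℝ) + cl t * (1 - u) ∈ Icc (0 : ℝ) 1 := by
    intro u t
    have h1 := u.2.1
    have h2 := u.2.2
    have h3 := cl_nonneg t
    have h4 := cl_le_one t
    constructor
    · nlinarith
    · nlinarith
  refine ⟨fun u t => ⟨(u : ℝ) + cl t * (1 - u), hm u t⟩, ?_, ?_, ?_, ?_, ?_⟩
  · apply Continuous.subtype_mk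
    have := continuous_cl
    fun_prop
  · intro u; apply Subtype.ext; simp
  · intro u; apply Subtype.ext; simp
  · intro t; apply Subtype.ext; simp
  · intro u t ht0 ht1 hx
    have h1 := congrArg Subtype.val hx
    simp only [cl_of_mem ht0.le ht1] at h1
    have h2 : t * (1 - (u : ℝ)) = 0 := by linarith
    rcases mul_eq_zero.1 h2 with h | h
    · exact absurd h ht0.ne'
    · apply Subtype.ext
      simp only [Icc.coe_one]; linarith

/-- `Z` with an arc attached at `z₀`. -/
abbrev Wg (Z : Type) (z₀ : Z) : Type := {g : Z × ℝ // 0 ≤ g.2 ∧ g.2 ≤ 1 ∧ (g.2 = 0 ∨ g.1 = z₀)}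

theorem wg_metrizable (Z : Type) [TopologicalSpace Z] [MetrizableSpace Z] (z₀ : Z) :
    MetrizableSpace (Wg Z z₀) :=
  (IsEmbedding.subtypeVal :
    IsEmbedding (Subtype.val : {g : Z × ℝ // 0 ≤ g.2 ∧ g.2 ≤ 1 ∧ (g.2 = 0 ∨ g.1 = z₀)} →
      Z × ℝ)).metrizableSpace

theorem strictTo_wg {Z : Type} [TopologicalSpace Z] [MetrizableSpace Z] {z₀ : Z}
    (h : StrictTo Z z₀) :
    StrictTo (Wg Z z₀) ⟨(z₀, 1), zero_le_one, le_rfl, Or.inr rfl⟩ := by
  haveI := wg_metrizable Z z₀
  obtain ⟨H, hc, h0, h1, hs, hst⟩ := h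
  have S : SRet (X := Wg Z z₀) (Z := unitInterval)
      (fun u => ⟨(z₀, (u : ℝ)), u.2.1, u.2.2, Or.inr rfl⟩)
      (fun g => ⟨g.1.2, g.2.1, g.2.2.1⟩)
      (fun g t => ⟨(H g.1.1 t, g.1.2), g.2.1, g.2.2.1, g.2.2.2.imp id
        (fun hg => by change H g.1.1 t = z₀; rw [hg, hs])⟩) := by
    refine ⟨?_, ?_, ?_, ?_, ?_, ?_, ?_, ?_⟩
    · exact Continuous.subtype_mk (by fun_prop) _
    · exact Continuous.subtype_mk (continuous_snd.comp continuous_subtype_val) _
    · apply Continuous.subtype_mk
      have hv : Continuous fun q : Wg Z z₀ × ℝ => q.1.1 :=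
        continuous_subtype_val.comp continuous_fst
      exact (hc.comp ((continuous_fst.comp hv).prodMk continuous_snd)).prodMk
        (continuous_snd.comp hv)
    · intro u; rfl
    · intro g; apply Subtype.ext; simp [h0]
    · intro g; apply Subtype.ext; simp [h1]
    · intro u t; apply Subtype.ext; simp [hs]
    · intro g t ht0 ht1 hg
      have e : H g.1.1 t = g.1.1 := congrArg (fun x : Wg Z z₀ => x.1.1) hg
      have := hst _ t ht0 ht1 e
      refine ⟨⟨g.1.2, g.2.1, g.2.2.1⟩, ?_⟩
      apply Subtype.ext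
      exact Prod.ext this.symm rfl
  exact S.strictTo strictTo_unit

/-! ### Mapping cylinders -/

theorem descendCyl {X Y Z W : Type} [TopologicalSpace X] [TopologicalSpace Y] [TopologicalSpace Z]
    [TopologicalSpace W] [CompactSpace Y] [CompactSpace Z] [T2Space X]
    {q : Y → Z} {j : Z → X} {p : Y × unitInterval → X} (h : IsCylinder q j p)
    (FY : Y → unitInterval → ℝ → W) (FZ : Z → ℝ → W)
    (cY : Continuous fun x : (Y × unitInterval) × ℝ => FY x.1.1 x.1.2 x.2)
    (cZ : Continuous fun x : Z × ℝ => FZ x.1 x.2) (h0 : ∀ y t, FY y 0 t = FZ (q y) t) :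
    ∃ G : X → ℝ → W, Continuous (fun x : X × ℝ => G x.1 x.2) ∧
      (∀ y s t, G (p (y, s)) t = FY y s t) ∧ ∀ z t, G (j z) t = FZ z t := by
  obtain ⟨G, cG, hG⟩ := descend (Sum.elim p j) (continuous_sum_dom.2 ⟨h.cont_p, h.cont_j⟩)
    (by
      intro x
      rcases h.cover x with ⟨z, hz⟩ | ⟨y, s, hy⟩
      · exact ⟨Sum.inr z, hz⟩
      · exact ⟨Sum.inl (y, s), hy⟩)
    (fun s t => Sum.elim (fun x => FY x.1 x.2 t) (fun z => FZ z t) s)
    (by
      apply cont_sum_prod
      · exact cY
      · exact cZ)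
    (by
      rintro (⟨y, s⟩ | z) (⟨y', s'⟩ | z') hxy t
      · change p (y, s) = p (y', s') at hxy
        change FY y s t = FY y' s' t
        by_cases hs : s = 0
        · by_cases hs' : s' = 0
          · subst hs; subst hs'
            rw [h.bottom, h.bottom] at hxy
            rw [h0, h0, h.inj_j hxy]
          · obtain ⟨e1, e2⟩ := h.inj_p _ _ _ _ hs' hxy.symm
            rw [e1, e2]
        · obtain ⟨e1, e2⟩ := h.inj_p _ _ _ _ hs hxy
          rw [e1, e2]
      · change p (y, s) = j z' at hxy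
        change FY y s t = FZ z' t
        by_cases hs : s = 0
        · subst hs
          rw [h.bottom] at hxy
          rw [h0, h.inj_j hxy]
        · exact absurd hxy (h.disj _ _ _ hs)
      · change j z = p (y', s') at hxy
        change FZ z t = FY y' s' t
        by_cases hs : s' = 0
        · subst hs
          rw [h.bottom] at hxy
          rw [h0, h.inj_j hxy]
        · exact absurd hxy.symm (h.disj _ _ _ hs)
      · change j z = j z' at hxy
        rw [h.inj_j hxy])
  exact ⟨G, cG, fun y s t => hG (Sum.inl (y, s)) t, fun z t => hG (Sum.inr z) t⟩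

/-- Base points: push the cylinder down to its base. -/
theorem strictTo_base {X Y Z : Type} [TopologicalSpace X] [MetrizableSpace X]
    [TopologicalSpace Y] [TopologicalSpace Z] [CompactSpace Y] [CompactSpace Z]
    {q : Y → Z} (hq : Continuous q) {j : Z → X} {p : Y × unitInterval → X}
    (h : IsCylinder q j p) (z₀ : Z) (hz : StrictTo Z z₀) : StrictTo X (j z₀) := by
  have cI := continuous_clI
  have cc := continuous_cl
  obtain ⟨φ, cφ, hφY, hφZ⟩ := descendCyl h
    (fun y s t => p (y, clI ((1 - cl t) * s))) (fun z _ => j z)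
    (h.cont_p.comp (by fun_prop : Continuous fun x : (Y × unitInterval) × ℝ =>
      (x.1.1, clI ((1 - cl x.2) * x.1.2))))
    (h.cont_j.comp continuous_fst)
    (by intro y t; simp only [Icc.coe_zero, mul_zero, clI_zero, h.bottom])
  obtain ⟨R, cR, hRY, hRZ⟩ := descendCyl h
    (fun y _ _ => q y) (fun z _ => z)
    (hq.comp (by fun_prop : Continuous fun x : (Y × unitInterval) × ℝ => x.1.1))
    continuous_fst (fun y t => rfl)
  have S : SRet j (fun x => R x 0) φ := by
    refine ⟨h.cont_j, cR.comp (by fun_prop : Continuous fun x : X => (x, (0 : ℝ))), cφ,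
      fun z => hRZ z 0, ?_, ?_, hφZ, ?_⟩
    · intro x
      rcases h.cover x with ⟨z, rfl⟩ | ⟨y, s, rfl⟩
      · rw [hφZ]
      · rw [hφY, cl_zero, sub_zero, one_mul, clI_coe]
    · intro x
      rcases h.cover x with ⟨z, rfl⟩ | ⟨y, s, rfl⟩
      · rw [hφZ, hRZ]
      · rw [hφY, hRY, cl_one, sub_self, zero_mul, clI_zero, h.bottom]
    · intro x t ht0 ht1 hx
      rcases h.cover x with ⟨z, rfl⟩ | ⟨y, s, rfl⟩
      · exact ⟨z, rfl⟩
      · by_cases hs : s = 0
        · subst hs; exact ⟨q y, (h.bottom y).symm⟩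
        · exfalso
          rw [hφY, cl_of_mem ht0.le ht1] at hx
          obtain ⟨-, e⟩ := h.inj_p _ _ _ _ hs hx.symm
          have h1 := congrArg Subtype.val e
          have hs0 : (0 : ℝ) < s := lt_of_le_of_ne s.2.1 (fun h => hs (Subtype.ext h.symm))
          have hs1 : (s : ℝ) ≤ 1 := s.2.2
          have hm : cl ((1 - t) * (s : ℝ)) = (1 - t) * s :=
            cl_of_mem (mul_nonneg (by linarith) hs0.le) (by nlinarith)
          change (s : ℝ) = cl ((1 - t) * (s : ℝ)) at h1
          rw [hm] at h1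
          nlinarith
  exact S.strictTo hz

/-- A homotopy of the identity of `Y`, stationary at `y₀`, which takes a neighbourhood of `y₀`
to `y₀`. -/
def Pinch (Y : Type) [TopologicalSpace Y] (y₀ : Y) : Prop :=
  ∃ k : Y → ℝ → Y, Continuous (fun x : Y × ℝ => k x.1 x.2) ∧ (∀ y, k y 0 = y) ∧
    (∀ t, k y₀ t = y₀) ∧ ∀ᶠ y in 𝓝 y₀, k y 1 = y₀

/-- The family of homotopies used near a whisker. -/
theorem exists_pinch_family {Y : Type} [TopologicalSpace Y] [MetrizableSpace Y] {y₀ : Y}
    (hk : Pinch Y y₀) (σ₀ : unitInterval) :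
    ∃ (D : Y → ℝ) (P : Y → unitInterval → ℝ → Y), Continuous D ∧ (∀ y, 0 ≤ D y) ∧
      (∀ y, D y = 0 ↔ y = y₀) ∧
      Continuous (fun x : (Y × unitInterval) × ℝ => P x.1.1 x.1.2 x.2) ∧
      (∀ y t, P y 0 t = y) ∧ (∀ y σ, P y σ 0 = y) ∧ (∀ σ t, P y₀ σ t = y₀) ∧
      ∀ y (σ : unitInterval), D y < min (σ : ℝ) σ₀ → P y σ 1 = y₀ := by
  letI := metrizableSpaceMetric Y
  obtain ⟨k, ck, k0, ks, kN⟩ := hk
  obtain ⟨R, hR, hball⟩ := Metric.eventually_nhds_iff.1 kN
  set D : Y → ℝ := fun y => dist y y₀ / R with hD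
  have cD : Continuous D := by simp only [hD]; fun_prop
  have D0 : ∀ y, 0 ≤ D y := fun y => by simp only [hD]; positivity
  have Dz : ∀ y, D y = 0 ↔ y = y₀ := by
    intro y
    simp only [hD, div_eq_zero_iff, hR.ne', or_false, dist_eq_zero]
  set M : unitInterval → ℝ := fun σ => min (σ : ℝ) σ₀ with hM
  have cM : Continuous M := by simp only [hM]; fun_prop
  have M0 : ∀ σ, 0 ≤ M σ := fun σ => le_min σ.2.1 σ₀.2.1
  set κ : Y → unitInterval → ℝ := fun y σ =>
    min 1 (max 0 (2 * M σ - D y) / max (M σ) (D y / 2)) with hκ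
  have κI : ∀ y σ, κ y σ ∈ Icc (0 : ℝ) 1 := by
    intro y σ
    refine ⟨le_min zero_le_one (div_nonneg (le_max_left _ _) ?_), min_le_left _ _⟩
    exact le_max_of_le_left (M0 σ)
  have cc := continuous_cl
  refine ⟨D, fun y σ t => k y (cl t * κ y σ), cD, D0, Dz, ?_, ?_, ?_, ?_, ?_⟩
  · rw [continuous_iff_continuousAt]
    rintro ⟨⟨y, σ⟩, t⟩
    let K : ((Y × unitInterval) × ℝ) × ℝ → Y := fun x => k x.1.1.1 (cl x.1.2 * x.2)
    have cK : Continuous K := ck.comp (by fun_prop :
      Continuous fun x : ((Y × unitInterval) × ℝ) × ℝ => (x.1.1.1, cl x.1.2 * x.2))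
    let w : (Y × unitInterval) × ℝ → ℝ := fun x => κ x.1.1 x.1.2
    change ContinuousAt (fun x => K (x, w x)) ((y, σ), t)
    by_cases hz : max (M σ) (D y / 2) = 0
    · have hy : D y = 0 := by
        have h1 := le_max_right (M σ) (D y / 2)
        have h2 := D0 y
        linarith
      have hy' := (Dz y).1 hy
      subst hy'
      exact continuousAt_param K cK w _ (fun x => κI _ _) y (fun u _ => ks _)
    · apply ContinuousAt.comp (f := fun x => (x, w x)) cK.continuousAt
      apply ContinuousAt.prodMk continuousAt_id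
      have c1 : Continuous fun x : (Y × unitInterval) × ℝ => max 0 (2 * M x.1.2 - D x.1.1) := by
        fun_prop
      have c2 : Continuous fun x : (Y × unitInterval) × ℝ => max (M x.1.2) (D x.1.1 / 2) := by
        fun_prop
      exact continuousAt_const.min (c1.continuousAt.div c2.continuousAt hz)
  · intro y t
    have hM0 : M 0 = 0 := by simp only [hM, Icc.coe_zero]; exact min_eq_left σ₀.2.1
    have : κ y 0 = 0 := by
      simp only [hκ, hM0]
      have h1 := D0 y
      rw [max_eq_left (by linarith : 2 * 0 - D y ≤ 0), zero_div]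
      exact min_eq_right zero_le_one
    simp only [this, mul_zero, k0]
  · intro y σ
    simp only [cl_zero, zero_mul, k0]
  · intro σ t
    exact ks _
  · intro y σ hy
    change D y < M σ at hy
    have h1 := D0 y
    have hmax : max (M σ) (D y / 2) = M σ := max_eq_left (by linarith)
    have hpos : 0 < M σ := by linarith
    have : κ y σ = 1 := by
      simp only [hκ, hmax]
      apply min_eq_left
      rw [le_div_iff₀ hpos]
      have : 2 * M σ - D y ≤ max 0 (2 * M σ - D y) := le_max_right _ _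
      linarith
    simp only [this, cl_one, mul_one]
    apply hball
    have hM1 : M σ ≤ 1 := (min_le_left _ _).trans σ.2.2
    have : dist y y₀ / R < 1 := lt_of_lt_of_le hy hM1
    rwa [div_lt_one hR] at this

/-- Points off the base: go down to the base with a whisker. -/
theorem strictTo_side {X Y Z : Type} [TopologicalSpace X] [MetrizableSpace X]
    [TopologicalSpace Y] [TopologicalSpace Z] [CompactSpace Y] [CompactSpace Z]
    [MetrizableSpace Y] [MetrizableSpace Z]
    {q : Y → Z} (hq : Continuous q) {j : Z → X} {p : Y × unitInterval → X}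
    (h : IsCylinder q j p) (y₀ : Y) (σ₀ : unitInterval) (hσ₀ : σ₀ ≠ 0) (hk : Pinch Y y₀)
    (hz : StrictTo Z (q y₀)) : StrictTo X (p (y₀, σ₀)) := by
  have cI := continuous_clI
  have cc := continuous_cl
  have s₀ : (0 : ℝ) < σ₀ := lt_of_le_of_ne σ₀.2.1 (fun h => hσ₀ (Subtype.ext h.symm))
  have s₁ : (σ₀ : ℝ) ≤ 1 := σ₀.2.2
  obtain ⟨D, P, cD, D0, Dz, cP, P0, Pt, Py, P1⟩ := exists_pinch_family hk σ₀
  -- the height after the deformation
  set η : Y → unitInterval → ℝ := fun y σ => max 0 (min (σ : ℝ) σ₀ - D y) with hη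
  have η0 : ∀ y σ, 0 ≤ η y σ := fun y σ => le_max_left _ _
  have ησ : ∀ y (σ : unitInterval), η y σ ≤ σ := fun y σ =>
    max_le σ.2.1 (by have := D0 y; have := min_le_left (σ : ℝ) σ₀; linarith)
  have ησ₀ : ∀ y (σ : unitInterval), η y σ ≤ σ₀ := fun y σ =>
    max_le σ₀.2.1 (by have := D0 y; have := min_le_right (σ : ℝ) σ₀; linarith)
  have ηbase : ∀ y, η y 0 = 0 := fun y => le_antisymm (ησ y 0) (η0 y 0)
  have ηP : ∀ y σ, η y σ = 0 ∨ P y σ 1 = y₀ := by
    intro y σ
    by_cases hlt : D y < min (σ : ℝ) σ₀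
    · exact Or.inr (P1 y σ hlt)
    · left
      push Not at hlt
      exact max_eq_left (by linarith)
  have cη : Continuous fun x : (Y × unitInterval) × ℝ => η x.1.1 x.1.2 := by
    simp only [hη]; fun_prop
  -- the whiskered base
  let jw : Wg Z (q y₀) → X := fun g =>
    open Classical in if g.1.2 = 0 then j g.1.1 else p (y₀, clI (g.1.2 * σ₀))
  have jw0 : ∀ g : Wg Z (q y₀), g.1.2 = 0 → jw g = j g.1.1 := fun g hg => if_pos hg
  have jw1 : ∀ g : Wg Z (q y₀), g.1.1 = q y₀ → jw g = p (y₀, clI (g.1.2 * σ₀)) := by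
    intro g hg
    by_cases h0 : g.1.2 = 0
    · rw [jw0 g h0, h0, zero_mul, clI_zero, h.bottom, hg]
    · exact if_neg h0
  have cv : Continuous fun g : Wg Z (q y₀) => g.1 := continuous_subtype_val
  have cjw : Continuous jw := by
    rw [← continuousOn_univ]
    have hcov : (univ : Set (Wg Z (q y₀))) = {g | g.1.2 = 0} ∪ {g | g.1.1 = q y₀} := by
      ext g
      simp only [mem_univ, true_iff]
      exact g.2.2.2
    rw [hcov]
    apply ContinuousOn.union_of_isClosed
    · exact (h.cont_j.comp (continuous_fst.comp cv)).continuousOn.congr (fun g hg => jw0 g hg)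
    · refine (h.cont_p.comp ?_).continuousOn.congr (fun g hg => jw1 g hg)
      exact continuous_const.prodMk (cI.comp ((continuous_snd.comp cv).mul continuous_const))
    · exact isClosed_eq (continuous_snd.comp cv) continuous_const
    · exact isClosed_eq (continuous_fst.comp cv) continuous_const
  obtain ⟨R, cR, hRY, hRZ⟩ := descendCyl (W := Wg Z (q y₀)) h
    (fun y σ _ => ⟨(q (P y σ 1), η y σ / σ₀), div_nonneg (η0 y σ) s₀.le,
      (div_le_one s₀).2 (ησ₀ y σ), (ηP y σ).imp (fun e => by simp only [e, zero_div])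
        (fun e => by simp only [e])⟩)
    (fun z _ => ⟨(z, 0), le_rfl, zero_le_one, Or.inl rfl⟩)
    (by
      apply Continuous.subtype_mk
      have c1 : Continuous fun x : (Y × unitInterval) × ℝ => P x.1.1 x.1.2 1 :=
        cP.comp (by fun_prop : Continuous fun x : (Y × unitInterval) × ℝ => (x.1, (1 : ℝ)))
      exact (hq.comp c1).prodMk (cη.div_const _))
    (by
      apply Continuous.subtype_mk
      exact continuous_fst.prodMk continuous_const)
    (by
      intro y t
      apply Subtype.ext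
      simp only [P0, ηbase, zero_div])
  obtain ⟨φ, cφ, hφY, hφZ⟩ := descendCyl h
    (fun y σ t => p (P y σ (cl t), clI (σ - cl t * (σ - η y σ)))) (fun z _ => j z)
    (by
      have c1 : Continuous fun x : (Y × unitInterval) × ℝ => P x.1.1 x.1.2 (cl x.2) :=
        cP.comp (by fun_prop : Continuous fun x : (Y × unitInterval) × ℝ => (x.1, cl x.2))
      have c2 : Continuous fun x : (Y × unitInterval) × ℝ =>
          clI (x.1.2 - cl x.2 * (x.1.2 - η x.1.1 x.1.2)) := by fun_prop
      exact h.cont_p.comp (c1.prodMk c2))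
    (h.cont_j.comp continuous_fst)
    (by
      intro y t
      simp only [P0, ηbase, Icc.coe_zero, sub_zero, mul_zero, clI_zero, h.bottom])
  -- values on the whisker
  have ηw : ∀ σ : unitInterval, (σ : ℝ) ≤ σ₀ → η y₀ σ = σ := by
    intro σ hσ
    simp only [hη, (Dz y₀).2 rfl, sub_zero, min_eq_left hσ]
    exact max_eq_right σ.2.1
  have hwhisk : ∀ g : Wg Z (q y₀), g.1.1 = q y₀ →
      ((clI (g.1.2 * σ₀) : unitInterval) : ℝ) = g.1.2 * σ₀ := by
    intro g _
    exact cl_of_mem (mul_nonneg g.2.1 s₀.le)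
      (by have := g.2.1; have := g.2.2.1; nlinarith)
  have hle : ∀ g : Wg Z (q y₀), g.1.1 = q y₀ →
      ((clI (g.1.2 * σ₀) : unitInterval) : ℝ) ≤ σ₀ := by
    intro g hg
    rw [hwhisk g hg]
    have := g.2.2.1; nlinarith
  have S : SRet jw (fun x => R x 0) φ := by
    refine ⟨cjw, cR.comp (by fun_prop : Continuous fun x : X => (x, (0 : ℝ))), cφ,
      ?_, ?_, ?_, ?_, ?_⟩
    · intro g
      rcases g.2.2.2 with hg | hg
      · simp only [jw0 g hg, hRZ]
        apply Subtype.ext
        exact Prod.ext rfl hg.symm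
      · simp only [jw1 g hg, hRY]
        apply Subtype.ext
        refine Prod.ext ?_ ?_
        · simp only [Py, hg]
        · simp only [ηw _ (hle g hg), hwhisk g hg]
          exact mul_div_cancel_right₀ _ s₀.ne'
    · intro x
      rcases h.cover x with ⟨z, rfl⟩ | ⟨y, s, rfl⟩
      · rw [hφZ]
      · rw [hφY, cl_zero, Pt, zero_mul, sub_zero, clI_coe]
    · intro x
      rcases h.cover x with ⟨z, rfl⟩ | ⟨y, s, rfl⟩
      · simp only [hφZ, hRZ]
        rw [jw0 _ rfl]
      · simp only [hφY, hRY, cl_one, one_mul, sub_sub_cancel]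
        rcases ηP y s with e | e
        · rw [jw0 _ (by simp only [e, zero_div])]
          simp only [e, clI_zero, h.bottom]
        · rw [jw1 _ (by simp only [e])]
          simp only [e, div_mul_cancel₀ _ s₀.ne']
    · intro g t
      rcases g.2.2.2 with hg | hg
      · rw [jw0 g hg, hφZ]
      · rw [jw1 g hg, hφY, Py, ηw _ (hle g hg), sub_self, mul_zero, sub_zero, clI_coe]
    · intro x t ht0 ht1 hx
      rcases h.cover x with ⟨z, rfl⟩ | ⟨y, s, rfl⟩
      · exact ⟨⟨(z, 0), le_rfl, zero_le_one, Or.inl rfl⟩, jw0 _ rfl⟩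
      · by_cases hs : s = 0
        · subst hs
          refine ⟨⟨(q y, 0), le_rfl, zero_le_one, Or.inl rfl⟩, ?_⟩
          rw [jw0 _ rfl, h.bottom]
        · rw [hφY, cl_of_mem ht0.le ht1] at hx
          obtain ⟨-, e⟩ := h.inj_p _ _ _ _ hs hx.symm
          have h1 := congrArg Subtype.val e
          have hs0 : (0 : ℝ) < s := lt_of_le_of_ne s.2.1 (fun h => hs (Subtype.ext h.symm))
          have hs1 : (s : ℝ) ≤ 1 := s.2.2
          have hη1 := η0 y s
          have hη2 := ησ y s
          have hm : cl ((s : ℝ) - t * (s - η y s)) = s - t * (s - η y s) :=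
            cl_of_mem (by nlinarith) (by nlinarith)
          change (s : ℝ) = cl ((s : ℝ) - t * (s - η y s)) at h1
          rw [hm] at h1
          have h2 : t * ((s : ℝ) - η y s) = 0 := by linarith
          have h3 : (s : ℝ) = η y s := by
            rcases mul_eq_zero.1 h2 with h | h
            · exact absurd h ht0.ne'
            · linarith
          have h4 : η y s = min (s : ℝ) σ₀ - D y := by
            simp only [hη]
            apply max_eq_right
            by_contra hneg
            push Not at hneg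
            have : η y s = 0 := max_eq_left hneg.le
            linarith
          have h5 := D0 y
          have h6 := min_le_left (s : ℝ) σ₀
          have h7 := min_le_right (s : ℝ) σ₀
          have hD : D y = 0 := by linarith
          have hy := (Dz y).1 hD
          subst hy
          have hsσ : (s : ℝ) ≤ σ₀ := by linarith
          refine ⟨⟨(q y, s / σ₀), div_nonneg hs0.le s₀.le, (div_le_one s₀).2 hsσ,
            Or.inr rfl⟩, ?_⟩
          rw [jw1 _ rfl]
          simp only [div_mul_cancel₀ _ s₀.ne', clI_coe]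
  have hfin := S.strictTo (strictTo_wg hz)
  rw [jw1 _ rfl] at hfin
  simpa only [one_mul, clI_coe] using hfin

/-! ### Compact metric ANRs -/

theorem IsCompactANR.metrizable {Y : Type} [TopologicalSpace Y] (h : IsCompactANR Y) :
    MetrizableSpace Y := by
  obtain ⟨-, e, -, -, he, -⟩ := h
  exact he.metrizableSpace

/-- The straight segment in the Hilbert cube. -/
noncomputable def mix (u v : ℕ → unitInterval) (s : ℝ) : ℕ → unitInterval :=
  fun n => clI ((1 - s) * u n + s * v n)

lemma continuous_mix : Continuous fun x : ((ℕ → unitInterval) × (ℕ → unitInterval)) × ℝ =>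
    mix x.1.1 x.1.2 x.2 := by
  have := continuous_clI
  unfold mix
  refine continuous_pi fun n => ?_
  fun_prop

lemma mix_zero (u v : ℕ → unitInterval) : mix u v 0 = u := by
  funext n; simp only [mix, sub_zero, one_mul, zero_mul, add_zero, clI_coe]

lemma mix_one (u v : ℕ → unitInterval) : mix u v 1 = v := by
  funext n; simp only [mix, sub_self, zero_mul, one_mul, zero_add, clI_coe]

lemma mix_self (u : ℕ → unitInterval) (s : ℝ) : mix u u s = u := by
  funext n
  have : (1 - s) * (u n : ℝ) + s * u n = u n := by ring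
  simp only [mix, this, clI_coe]

theorem IsCompactANR.pinch {Y : Type} [TopologicalSpace Y] (h : IsCompactANR Y) (y₀ : Y) :
    Pinch Y y₀ := by
  haveI := h.metrizable
  letI := metrizableSpaceMetric Y
  obtain ⟨-, e, U, r, he, hU, hr, hre⟩ := h
  have ce := he.continuous
  have cm := continuous_mix
  -- points with their whole segment to `y₀` in `U`
  have hV : ∀ᶠ y in 𝓝 y₀, ∀ s ∈ Icc (0 : ℝ) 1, mix (e y) (e y₀) s ∈ U := by
    apply isCompact_Icc.eventually_forall_of_forall_eventually
      (P := fun (y : Y) (s : ℝ) => mix (e y) (e y₀) s ∈ U)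
    intro s _
    have c1 : Continuous fun x : Y × ℝ => mix (e x.1) (e y₀) x.2 :=
      cm.comp (by fun_prop : Continuous fun x : Y × ℝ => ((e x.1, e y₀), x.2))
    apply c1.continuousAt
    simp only [mix_self]
    obtain ⟨h1, -⟩ := hre y₀
    exact hU.mem_nhds h1
  obtain ⟨R, hR, hball⟩ := Metric.eventually_nhds_iff.1 hV
  -- the cut-off
  let lam : Y → ℝ := fun y => cl (2 - 2 * dist y y₀ / R)
  have clam : Continuous lam := by
    have := continuous_cl
    simp only [lam]; fun_prop
  have lamU : ∀ (y : Y) (s : ℝ), mix (e y) (e y₀) (cl s * lam y) ∈ U := by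
    intro y s
    by_cases hy : dist y y₀ < R
    · refine hball hy _ ⟨mul_nonneg (cl_nonneg _) (cl_nonneg _), ?_⟩
      have h1 := cl_nonneg s
      have h2 := cl_le_one s
      have h3 : lam y ≤ 1 := cl_le_one _
      have h4 : 0 ≤ lam y := cl_nonneg _
      nlinarith
    · have : lam y = 0 := by
        push Not at hy
        have h1 : 1 ≤ dist y y₀ / R := (one_le_div hR).2 hy
        have h2 : 2 - 2 * dist y y₀ / R ≤ 0 := by rw [mul_div_assoc]; linarith
        simp only [lam]
        unfold cl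
        rw [min_eq_left (by linarith), max_eq_left h2]
      rw [this, mul_zero, mix_zero]
      exact (hre y).1
  refine ⟨fun y s => r ⟨mix (e y) (e y₀) (cl s * lam y), lamU y s⟩, ?_, ?_, ?_, ?_⟩
  · apply hr.comp
    apply Continuous.subtype_mk
    have := continuous_cl
    exact cm.comp (by fun_prop : Continuous fun x : Y × ℝ => ((e x.1, e y₀), cl x.2 * lam x.1))
  · intro y
    obtain ⟨h1, h2⟩ := hre y
    refine (congrArg r (Subtype.ext ?_)).trans h2
    simp only [cl_zero, zero_mul, mix_zero]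
  · intro t
    obtain ⟨h1, h2⟩ := hre y₀
    refine (congrArg r (Subtype.ext ?_)).trans h2
    simp only [mix_self]
  · filter_upwards [Metric.ball_mem_nhds y₀ (half_pos hR)] with y hy
    have hlam : lam y = 1 := by
      rw [Metric.mem_ball] at hy
      have h1 : 2 * dist y y₀ / R ≤ 1 := by rw [div_le_one hR]; linarith
      simp only [lam]
      unfold cl
      rw [min_eq_right (by linarith), max_eq_right zero_le_one]
    obtain ⟨h1, h2⟩ := hre y₀
    refine (congrArg r (Subtype.ext ?_)).trans h2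
    simp only [hlam, cl_one, mul_one, mix_one]

end Pool.Agent.helper30.CIP
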