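import Mathlib

/-!
# Mapping cylinders, compact metric ANRs and ARs, the complete invariance property: definitions
-/

set_option autoImplicit false

open Set Topology TopologicalSpace

namespace Pool.Agent.helper30.CIP

/-- `X` is the mapping cylinder of `q : Y → Z`, with `j : Z → X` the base and
`p : Y × [0,1] → X` the canonical map. -/
structure IsCylinder {X Y Z : Type} [TopologicalSpace X] [TopologicalSpace Y] [TopologicalSpace Z]
    (q : Y → Z) (j : Z → X) (p : Y × unitInterval → X) : Prop where
  cont_j : Continuous j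
  inj_j : Function.Injective j
  cont_p : Continuous p
  bottom : ∀ y, p (y, 0) = j (q y)
  inj_p : ∀ y y' s s', s ≠ 0 → p (y, s) = p (y', s') → y = y' ∧ s = s'
  disj : ∀ y s z, s ≠ 0 → p (y, s) ≠ j z
  cover : ∀ x, (∃ z, j z = x) ∨ ∃ y s, p (y, s) = x

/-- `Y` is a compact metric ANR: it is homeomorphic (by `e`) to a closed subset of the Hilbert
cube that is a retract (by `r`) of an open neighbourhood `U`. -/
def IsCompactANR (Y : Type) [TopologicalSpace Y] : Prop :=
  CompactSpace Y ∧ ∃ (e : Y → (ℕ → unitInterval)) (U : Set (ℕ → unitInterval)) (r : U → Y),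
    IsEmbedding e ∧ IsOpen U ∧ Continuous r ∧ ∀ y, ∃ h : e y ∈ U, r ⟨e y, h⟩ = y

/-- `Z` is a compact metric AR: it is homeomorphic (by `e`) to a subset of the Hilbert cube that
is a retract (by `r`) of the Hilbert cube. -/
def IsCompactAR (Z : Type) [TopologicalSpace Z] : Prop :=
  CompactSpace Z ∧ ∃ (e : Z → (ℕ → unitInterval)) (r : (ℕ → unitInterval) → Z),
    IsEmbedding e ∧ Continuous r ∧ ∀ z, r (e z) = z

/-- `X` is the mapping cylinder of `q : Y → Z` with the subset `F × {1}` of its top collapsed to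
a point: `j : Z → X` is the base and `p : Y × [0,1] → X` is the canonical map.  For `F = ∅` this
is the mapping cylinder of `q`, for `F = Y` the mapping cone of `q`. -/
structure IsQuotCylinder {X Y Z : Type} [TopologicalSpace X] [TopologicalSpace Y]
    [TopologicalSpace Z] (q : Y → Z) (F : Set Y) (j : Z → X) (p : Y × unitInterval → X) :
    Prop where
  cont_j : Continuous j
  inj_j : Function.Injective j
  cont_p : Continuous p
  bottom : ∀ y, p (y, 0) = j (q y)
  top : ∀ y ∈ F, ∀ y' ∈ F, p (y, 1) = p (y', 1)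
  inj_p : ∀ y y' s s', s ≠ 0 → p (y, s) = p (y', s') →
    (y = y' ∧ s = s') ∨ (s = 1 ∧ s' = 1 ∧ y ∈ F ∧ y' ∈ F)
  disj : ∀ y s z, s ≠ 0 → p (y, s) ≠ j z
  cover : ∀ x, (∃ z, j z = x) ∨ ∃ y s, p (y, s) = x

/-- `A` is the fixed point set of a continuous self-map of `X`. -/
def IsFixSet (X : Type) [TopologicalSpace X] (A : Set X) : Prop :=
  ∃ f : X → X, Continuous f ∧ {x | f x = x} = A

end Pool.Agent.helper30.CIP
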