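import Pool.Agent.helper30.CIPQuot

/-!
# Enlarging fixed point sets in compact metric ANRs
-/

set_option autoImplicit false

open Set Topology TopologicalSpace

namespace Pool.Agent.helper30.CIP

theorem tietze_unit : TietzeExtension.{0, 0} unitInterval :=
  TietzeExtension.of_retract (Z := ℝ) ⟨Subtype.val, continuous_subtype_val⟩
    ⟨Set.projIcc 0 1 zero_le_one, continuous_projIcc⟩
    (by ext x; simp)

/-- Extension of maps into the Hilbert cube. -/
theorem extend_cube {P : Type} [TopologicalSpace P] [NormalSpace P] (S : Set P)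
    (hS : IsClosed S) (g : P → (ℕ → unitInterval)) (hg : ContinuousOn g S) :
    ∃ G : P → (ℕ → unitInterval), Continuous G ∧ ∀ x ∈ S, G x = g x := by
  haveI := tietze_unit
  obtain ⟨G, hG⟩ := ContinuousMap.exists_restrict_eq (Y := ℕ → unitInterval) hS
    ⟨S.domRestrict g, continuousOn_iff_continuous_domRestrict.1 hg⟩
  refine ⟨G, G.continuous, fun x hx => ?_⟩
  exact congrArg (fun k : C(S, ℕ → unitInterval) => k ⟨x, hx⟩) hG

theorem tsum_half_tail (a : ℕ → ℝ) (ha0 : ∀ n, 0 ≤ a n) (ha1 : ∀ n, a n ≤ 1) (n : ℕ)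
    (h : ∀ m, n ≤ m → a m = 1) : (1 / 2 : ℝ) ^ n ≤ ∑' m, (1 / 2 : ℝ) ^ (m + 1) * a m := by
  have hs : Summable fun m : ℕ => (1 / 2 : ℝ) ^ (m + 1) := by
    simpa [pow_succ] using (summable_geometric_two).mul_right (1 / 2 : ℝ)
  have hsa : Summable fun m : ℕ => (1 / 2 : ℝ) ^ (m + 1) * a m :=
    Summable.of_nonneg_of_le (fun m => mul_nonneg (by positivity) (ha0 m))
      (fun m => mul_le_of_le_one_right (by positivity) (ha1 m)) hs
  rw [← hsa.sum_add_tsum_nat_add n]
  have h1 : 0 ≤ ∑ i ∈ Finset.range n, (1 / 2 : ℝ) ^ (i + 1) * a i :=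
    Finset.sum_nonneg fun i _ => mul_nonneg (by positivity) (ha0 i)
  have h2 : ∑' i, (1 / 2 : ℝ) ^ (i + n + 1) * a (i + n) = (1 / 2 : ℝ) ^ n := by
    have : (fun i : ℕ => (1 / 2 : ℝ) ^ (i + n + 1) * a (i + n)) =
        fun i : ℕ => (1 / 2 : ℝ) ^ i * ((1 / 2) ^ n * (1 / 2)) := by
      funext i
      rw [h (i + n) (Nat.le_add_left _ _)]
      ring
    rw [this, tsum_mul_right, tsum_geometric_two]
    ring
  linarith

theorem enlarge {X : Type} [TopologicalSpace X] (hX : IsCompactANR X) (A : Set X)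
    (hA : IsClosed A) (K : X → X) (cK : Continuous K) (H : A × unitInterval → X)
    (cH : Continuous H) (H0 : ∀ x : A, H (x, 0) = x) (H1 : ∀ x : A, H (x, 1) = K x)
    (hs : ∀ x : A, K x = x → ∀ t, H (x, t) = x)
    (hm : ∀ x : A, K x ≠ x → ∀ t, t ≠ 0 → H (x, t) ≠ x) :
    IsFixSet X (A ∪ {x | K x = x}) := by
  classical
  rcases A.eq_empty_or_nonempty with rfl | hne
  · exact ⟨K, cK, by simp⟩
  haveI := hX.metrizable
  haveI := hX.1
  letI := metrizableSpaceMetric X
  obtain ⟨-, e, U, r, he, hU, cr, hre⟩ := hX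
  have ce := he.continuous
  have cI := continuous_clI
  -- extension of the homotopy to the Hilbert cube
  set g : X × unitInterval → (ℕ → unitInterval) := fun x =>
    if h : x.1 ∈ A then e (H (⟨x.1, h⟩, x.2)) else if x.2 = 0 then e x.1 else e (K x.1) with hg
  have gA : ∀ (x : X) (h : x ∈ A) (t : unitInterval), g (x, t) = e (H (⟨x, h⟩, t)) := by
    intro x h t; simp only [hg, dif_pos h]
  have g0 : ∀ x : X, g (x, 0) = e x := by
    intro x
    by_cases h : x ∈ A
    · rw [gA x h, H0]
    · simp only [hg, dif_neg h, if_pos]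
  have g1 : ∀ x : X, g (x, 1) = e (K x) := by
    intro x
    by_cases h : x ∈ A
    · rw [gA x h, H1]
    · simp only [hg, dif_neg h]
      rw [if_neg one_ne_zero]
  have hcl : IsClosed ((A ×ˢ (univ : Set unitInterval)) ∪
      (((univ : Set X) ×ˢ {(0 : unitInterval)}) ∪ ((univ : Set X) ×ˢ {(1 : unitInterval)}))) :=
    (hA.prod isClosed_univ).union
      ((isClosed_univ.prod isClosed_singleton).union (isClosed_univ.prod isClosed_singleton))
  obtain ⟨G, cG, hG⟩ := extend_cube _ hcl g (by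
    apply ContinuousOn.union_of_isClosed
    · rw [continuousOn_iff_continuous_domRestrict]
      have : ((A ×ˢ (univ : Set unitInterval)).domRestrict g) =
          fun x => e (H (⟨x.1.1, x.2.1⟩, x.1.2)) := by
        funext x
        exact gA x.1.1 x.2.1 x.1.2
      rw [this]
      apply ce.comp (cH.comp _)
      apply Continuous.prodMk
      · exact (continuous_fst.comp continuous_subtype_val).subtype_mk _
      · exact continuous_snd.comp continuous_subtype_val
    · apply ContinuousOn.union_of_isClosed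
      · refine (ce.comp continuous_fst).continuousOn.congr ?_
        rintro ⟨x, t⟩ ⟨-, ht⟩
        have : t = 0 := ht
        subst this
        exact g0 x
      · refine (ce.comp (cK.comp continuous_fst)).continuousOn.congr ?_
        rintro ⟨x, t⟩ ⟨-, ht⟩
        have : t = 1 := ht
        subst this
        exact g1 x
      · exact isClosed_univ.prod isClosed_singleton
      · exact isClosed_univ.prod isClosed_singleton
    · exact hA.prod isClosed_univ
    · exact (isClosed_univ.prod isClosed_singleton).union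
        (isClosed_univ.prod isClosed_singleton))
  have GA : ∀ (x : X) (h : x ∈ A) (t : unitInterval), G (x, t) = e (H (⟨x, h⟩, t)) := by
    intro x h t
    rw [hG _ (Or.inl ⟨h, mem_univ _⟩), gA x h]
  have G0 : ∀ x : X, G (x, 0) = e x := by
    intro x; rw [hG (x, 0) (Or.inr (Or.inl ⟨mem_univ _, mem_singleton _⟩)), g0]
  have G1 : ∀ x : X, G (x, 1) = e (K x) := by
    intro x; rw [hG (x, 1) (Or.inr (Or.inr ⟨mem_univ _, mem_singleton _⟩)), g1]
  -- total version of the retraction
  set R : (ℕ → unitInterval) → X → X := fun u x => if h : u ∈ U then r ⟨u, h⟩ else x with hR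
  have Rpos : ∀ (u : ℕ → unitInterval) (x : X) (h : u ∈ U), R u x = r ⟨u, h⟩ :=
    fun u x h => dif_pos h
  have Re : ∀ y x, R (e y) x = y := by
    intro y x
    obtain ⟨h1, h2⟩ := hre y
    rw [Rpos _ _ h1, h2]
  set Φ : X × unitInterval → X := fun x => R (G x) x.1 with hΦ
  have Φcont : ∀ x, G x ∈ U → ContinuousAt Φ x := by
    intro x hx
    have hO : IsOpen (G ⁻¹' U) := hU.preimage cG
    have : ContinuousOn Φ (G ⁻¹' U) := by
      rw [continuousOn_iff_continuous_domRestrict]
      have : (G ⁻¹' U).domRestrict Φ = fun x => r ⟨G x.1, x.2⟩ := by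
        funext x
        exact Rpos _ _ x.2
      rw [this]
      exact cr.comp ((cG.comp continuous_subtype_val).subtype_mk _)
    exact this.continuousAt (hO.mem_nhds hx)
  have ΦA : ∀ (x : X) (h : x ∈ A) (t : unitInterval), Φ (x, t) = H (⟨x, h⟩, t) := by
    intro x h t; simp only [hΦ, GA x h, Re]
  have Φ0 : ∀ x : X, Φ (x, 0) = x := by intro x; simp only [hΦ, G0, Re]
  have Φ1 : ∀ x : X, Φ (x, 1) = K x := by intro x; simp only [hΦ, G1, Re]
  have GU : ∀ y, e y ∈ U := fun y => (hre y).1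
  -- the bad set and its downward closure
  set Bad : Set (X × unitInterval) := {x | G x ∈ U → Φ x = x.1} with hBad
  have cBad : IsClosed Bad := by
    rw [← isOpen_compl_iff]
    rw [isOpen_iff_mem_nhds]
    intro x hx
    simp only [hBad, mem_compl_iff, mem_setOf_eq, Classical.not_imp] at hx
    have h1 : ∀ᶠ y in 𝓝 x, G y ∈ U := cG.continuousAt.eventually (hU.mem_nhds hx.1)
    have h2 : ∀ᶠ y in 𝓝 x, Φ y ≠ y.1 :=
      ((Φcont x hx.1).prodMk continuous_fst.continuousAt).eventually
        (isOpen_ne_fun continuous_fst continuous_snd |>.mem_nhds hx.2)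
    filter_upwards [h1, h2] with y hy1 hy2
    simp only [hBad, mem_compl_iff, mem_setOf_eq, Classical.not_imp]
    exact ⟨hy1, hy2⟩
  set Bd : Set (X × unitInterval) := {x | ∃ v, x.2 ≤ v ∧ (x.1, v) ∈ Bad} with hBd
  have cBd : IsClosed Bd := by
    have hC : IsClosed {y : (X × unitInterval) × unitInterval | y.1.2 ≤ y.2 ∧
        (y.1.1, y.2) ∈ Bad} :=
      (isClosed_le (by fun_prop) (by fun_prop)).inter (cBad.preimage (by fun_prop))
    have : Bd = Prod.fst '' {y : (X × unitInterval) × unitInterval | y.1.2 ≤ y.2 ∧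
        (y.1.1, y.2) ∈ Bad} := by
      ext x
      constructor
      · rintro ⟨v, h1, h2⟩; exact ⟨(x, v), ⟨h1, h2⟩, rfl⟩
      · rintro ⟨⟨y, v⟩, ⟨h1, h2⟩, rfl⟩; exact ⟨v, h1, h2⟩
    rw [this]
    exact (hC.isCompact.image continuous_fst).isClosed
  have Bd0 : ∀ x, (x, (0 : unitInterval)) ∈ Bd := fun x => ⟨0, le_rfl, fun _ => Φ0 x⟩
  have Bdne : Bd.Nonempty := by
    obtain ⟨a, -⟩ := hne; exact ⟨_, Bd0 a⟩
  have Bdown : ∀ x (u v : unitInterval), u ≤ v → (x, v) ∈ Bd → (x, u) ∈ Bd :=
    fun x u v huv ⟨w, h1, h2⟩ => ⟨w, huv.trans h1, h2⟩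
  have BdA : ∀ x ∈ A, K x ≠ x → ∀ u : unitInterval, u ≠ 0 → (x, u) ∉ Bd := by
    rintro x hx hK u hu ⟨v, h1, h2⟩
    have hv : v ≠ 0 := by
      rintro rfl
      exact hu (le_antisymm h1 u.2.1)
    have h3 := h2 (by rw [GA x hx]; exact GU _)
    rw [ΦA x hx] at h3
    exact hm ⟨x, hx⟩ hK v hv h3
  have Bd1 : ∀ x, (x, (1 : unitInterval)) ∈ Bd → K x = x := by
    rintro x ⟨v, h1, h2⟩
    have hv : v = 1 := le_antisymm v.2.2 h1
    subst hv
    have h3 := h2 (by rw [G1]; exact GU _)
    rwa [Φ1] at h3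
  have Bd1' : ∀ x, K x = x → (x, (1 : unitInterval)) ∈ Bd := fun x hx =>
    ⟨1, le_rfl, fun _ => by rw [Φ1]; exact hx⟩
  -- the parameter
  set E : Set X := {x | x ∈ A ∧ K x = x} with hE
  have cE : IsClosed E := hA.inter (isClosed_eq cK continuous_id)
  let uu : ℕ → unitInterval := fun n => clI ((1 / 2 : ℝ) ^ n)
  have huu : ∀ n, ((uu n : unitInterval) : ℝ) = (1 / 2 : ℝ) ^ n := fun n =>
    cl_of_mem (by positivity) (pow_le_one₀ (by norm_num) (by norm_num))
  have huu0 : ∀ n, uu n ≠ 0 := by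
    intro n h
    have : (1 / 2 : ℝ) ^ n = 0 := by rw [← huu, h, Icc.coe_zero]
    exact (by positivity : (0 : ℝ) < (1 / 2) ^ n).ne' this
  set dA : X → ℝ := fun x => Metric.infDist x A with hdA
  have cdA : Continuous dA := Metric.continuous_infDist_pt A
  have dA0 : ∀ x, 0 ≤ dA x := fun x => Metric.infDist_nonneg
  have dAiff : ∀ x, dA x = 0 ↔ x ∈ A := fun x => (hA.mem_iff_infDist_zero hne).symm
  set q : ℕ → X → ℝ := fun n x => Metric.infDist (x, uu n) Bd with hq
  have cq : ∀ n, Continuous (q n) := fun n =>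
    (Metric.continuous_infDist_pt Bd).comp (by fun_prop)
  have q0 : ∀ n x, 0 ≤ q n x := fun n x => Metric.infDist_nonneg
  have qiff : ∀ n x, q n x = 0 ↔ (x, uu n) ∈ Bd := fun n x =>
    (cBd.mem_iff_infDist_zero Bdne).symm
  set φ : ℕ → X → ℝ := fun n x => dA x / (dA x + q (n + 1) x) with hφ
  have φ0 : ∀ n x, 0 ≤ φ n x := fun n x =>
    div_nonneg (dA0 x) (add_nonneg (dA0 x) (q0 _ x))
  have φ1 : ∀ n x, φ n x ≤ 1 := fun n x =>
    div_le_one_of_le₀ (le_add_of_nonneg_right (q0 _ x)) (add_nonneg (dA0 x) (q0 _ x))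
  set θ : X → ℝ := fun x => ∑' n, (1 / 2 : ℝ) ^ (n + 1) * φ n x with hθ
  have hsum : Summable fun m : ℕ => (1 / 2 : ℝ) ^ (m + 1) := by
    simpa [pow_succ] using (summable_geometric_two).mul_right (1 / 2 : ℝ)
  have hsumφ : ∀ x, Summable fun m : ℕ => (1 / 2 : ℝ) ^ (m + 1) * φ m x := fun x =>
    Summable.of_nonneg_of_le (fun m => mul_nonneg (by positivity) (φ0 m x))
      (fun m => mul_le_of_le_one_right (by positivity) (φ1 m x)) hsum
  have θ0 : ∀ x, 0 ≤ θ x := fun x => tsum_nonneg fun m => mul_nonneg (by positivity) (φ0 m x)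
  have θ1 : ∀ x, θ x ≤ 1 := by
    intro x
    have h1 : θ x ≤ ∑' m : ℕ, (1 / 2 : ℝ) ^ (m + 1) :=
      (hsumφ x).tsum_le_tsum (fun m => mul_le_of_le_one_right (by positivity) (φ1 m x)) hsum
    have h2 : ∑' m : ℕ, (1 / 2 : ℝ) ^ (m + 1) = 1 := by
      simp only [pow_succ]
      rw [tsum_mul_right, tsum_geometric_two]; norm_num
    linarith
  have cθ : ContinuousOn θ Eᶜ := by
    apply continuousOn_tsum (u := fun m => (1 / 2 : ℝ) ^ (m + 1)) _ hsum
    · intro n x _
      rw [Real.norm_of_nonneg (mul_nonneg (by positivity) (φ0 n x))]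
      exact mul_le_of_le_one_right (by positivity) (φ1 n x)
    · intro n
      apply continuousOn_const.mul
      apply cdA.continuousOn.div (cdA.add (cq (n + 1))).continuousOn
      intro x hx h0
      have h0' : dA x + q (n + 1) x = 0 := h0
      have h1 := dA0 x
      have h2 := q0 (n + 1) x
      have hxA : x ∈ A := (dAiff x).1 (by linarith)
      have hxq : (x, uu (n + 1)) ∈ Bd := (qiff _ x).1 (by linarith)
      have hK : K x ≠ x := fun h => hx ⟨hxA, h⟩
      exact BdA x hxA hK _ (huu0 _) hxq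
  have θA : ∀ x ∈ A, θ x = 0 := by
    intro x hx
    have : ∀ n, φ n x = 0 := fun n => by simp only [hφ, (dAiff x).2 hx, zero_div]
    simp only [hθ, this, mul_zero, tsum_zero]
  have clθ : ∀ x, ((clI (θ x) : unitInterval) : ℝ) = θ x := fun x => cl_of_mem (θ0 x) (θ1 x)
  -- off `A`
  have key : ∀ x, x ∉ A → K x ≠ x → (x, clI (θ x)) ∉ Bd := by
    intro x hxA hK hbad
    have hd : 0 < dA x := lt_of_le_of_ne (dA0 x) (fun h => hxA ((dAiff x).1 h.symm))
    have hex : ∃ n, (x, uu n) ∈ Bd := by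
      by_contra hno
      push Not at hno
      have hpos : 0 < θ x := by
        have h1 : (1 / 2 : ℝ) ^ (0 + 1) * φ 0 x ≤ θ x :=
          (hsumφ x).le_tsum 0 (fun m _ => mul_nonneg (by positivity) (φ0 m x))
        have h2 : 0 < φ 0 x := div_pos hd (by have := q0 (0 + 1) x; linarith)
        have h3 : 0 < (1 / 2 : ℝ) ^ (0 + 1) * φ 0 x := by positivity
        linarith
      obtain ⟨n, hn⟩ := exists_pow_lt_of_lt_one hpos (by norm_num : (1 / 2 : ℝ) < 1)
      refine hno n (Bdown x _ _ ?_ hbad)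
      change ((uu n : unitInterval) : ℝ) ≤ ((clI (θ x) : unitInterval) : ℝ)
      rw [huu, clθ]; exact hn.le
    have hmin := Nat.find_spec hex
    have hlt := fun m (hm : m < Nat.find hex) => Nat.find_min hex hm
    obtain ⟨k, hk⟩ : ∃ k, Nat.find hex = k + 1 := by
      rcases hk : Nat.find hex with _ | k
      · exfalso
        rw [hk] at hmin
        have : uu 0 = 1 := Subtype.ext (by rw [huu]; simp)
        rw [this] at hmin
        exact hK (Bd1 x hmin)
      · exact ⟨k, rfl⟩
    have htail : ∀ m, k ≤ m → φ m x = 1 := by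
      intro m hm
      have : (x, uu (m + 1)) ∈ Bd := by
        apply Bdown x _ _ _ (hk ▸ hmin)
        change ((uu (m + 1) : unitInterval) : ℝ) ≤ ((uu (k + 1) : unitInterval) : ℝ)
        rw [huu, huu]
        exact pow_le_pow_of_le_one (by norm_num) (by norm_num) (by omega)
      have h0 : q (m + 1) x = 0 := (qiff _ x).2 this
      simp only [hφ, h0, add_zero]
      exact div_self hd.ne'
    have hge : (1 / 2 : ℝ) ^ k ≤ θ x :=
      tsum_half_tail (fun m => φ m x) (fun m => φ0 m x) (fun m => φ1 m x) k htail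
    refine hlt k (by omega) (Bdown x _ _ ?_ hbad)
    change ((uu k : unitInterval) : ℝ) ≤ ((clI (θ x) : unitInterval) : ℝ)
    rw [huu, clθ]; exact hge
  have key1 : ∀ x, x ∉ A → K x = x → clI (θ x) = 1 := by
    intro x hxA hK
    have hd : 0 < dA x := lt_of_le_of_ne (dA0 x) (fun h => hxA ((dAiff x).1 h.symm))
    have htail : ∀ m, 0 ≤ m → φ m x = 1 := by
      intro m _
      have : (x, uu (m + 1)) ∈ Bd := Bdown x _ _ (uu (m + 1)).2.2 (Bd1' x hK)
      have h0 : q (m + 1) x = 0 := (qiff _ x).2 this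
      simp only [hφ, h0, add_zero]
      exact div_self hd.ne'
    have hge : (1 / 2 : ℝ) ^ 0 ≤ θ x :=
      tsum_half_tail (fun m => φ m x) (fun m => φ0 m x) (fun m => φ1 m x) 0 htail
    apply Subtype.ext
    rw [clθ, Icc.coe_one]
    exact le_antisymm (θ1 x) (by simpa using hge)
  have inU : ∀ x, G (x, clI (θ x)) ∈ U := by
    intro x
    by_cases hxA : x ∈ A
    · rw [GA x hxA]; exact GU _
    · by_cases hK : K x = x
      · rw [key1 x hxA hK, G1]; exact GU _
      · have := key x hxA hK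
        by_contra hno
        exact this ⟨_, le_rfl, fun h => absurd h hno⟩
  refine ⟨fun x => Φ (x, clI (θ x)), ?_, ?_⟩
  · rw [continuous_iff_continuousAt]
    intro x
    by_cases hx : x ∈ E
    · -- all parameters give `x`
      have hconst : ∀ t, Φ (x, t) = x := fun t => by rw [ΦA x hx.1, hs ⟨x, hx.1⟩ hx.2]
      intro W hW
      change W ∈ 𝓝 (Φ (x, clI (θ x))) at hW
      rw [hconst] at hW
      have h1 : ∀ t ∈ (univ : Set unitInterval), ∀ᶠ z in 𝓝 (x, t), Φ z ∈ W := by
        intro t _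
        apply Φcont (x, t) (by rw [GA x hx.1]; exact GU _)
        rw [hconst]; exact hW
      have h2 := isCompact_univ.eventually_forall_of_forall_eventually
        (P := fun (y : X) (t : unitInterval) => Φ (y, t) ∈ W) (x₀ := x) h1
      change ∀ᶠ y in 𝓝 x, Φ (y, clI (θ y)) ∈ W
      filter_upwards [h2] with y hy
      exact hy _ (mem_univ _)
    · have h1 : ContinuousAt θ x := cθ.continuousAt (cE.isOpen_compl.mem_nhds hx)
      have h2 : ContinuousAt (fun y => (y, clI (θ y))) x :=
        continuousAt_id.prodMk (cI.continuousAt.comp h1)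
      exact ContinuousAt.comp (g := Φ) (f := fun y => (y, clI (θ y))) (Φcont _ (inU x)) h2
  · ext x
    simp only [mem_setOf_eq, mem_union]
    by_cases hxA : x ∈ A
    · have h0 : clI (θ x) = 0 := by
        rw [θA x hxA, clI_zero]
      rw [h0, Φ0]
      simp [hxA]
    · by_cases hK : K x = x
      · rw [key1 x hxA hK, Φ1]
        simp [hK]
      · constructor
        · intro hx
          exact absurd ⟨_, le_rfl, fun _ => hx⟩ (key x hxA hK)
        · rintro (h | h)
          · exact absurd h hxA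
          · exact absurd h hK

end Pool.Agent.helper30.CIP
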