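import Pool.Agent.helper30.CIPCore

/-!
# Mapping cylinders with a collapsed part of the top
-/

set_option autoImplicit false

open Set Topology TopologicalSpace

namespace Pool.Agent.helper30.CIP

theorem IsQuotCylinder.toCyl {X Y Z : Type} [TopologicalSpace X] [TopologicalSpace Y]
    [TopologicalSpace Z] {q : Y → Z} {j : Z → X} {p : Y × unitInterval → X}
    (h : IsQuotCylinder q ∅ j p) : IsCylinder q j p :=
  ⟨h.cont_j, h.inj_j, h.cont_p, h.bottom, fun y y' s s' hs he =>
    (h.inj_p y y' s s' hs he).elim id (fun hh => absurd hh.2.2.1 (Set.notMem_empty _)),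
    h.disj, h.cover⟩

theorem descendQ {X Y Z W : Type} [TopologicalSpace X] [TopologicalSpace Y] [TopologicalSpace Z]
    [TopologicalSpace W] [CompactSpace Y] [CompactSpace Z] [T2Space X]
    {q : Y → Z} {F : Set Y} {j : Z → X} {p : Y × unitInterval → X}
    (h : IsQuotCylinder q F j p)
    (FY : Y → unitInterval → W) (FZ : Z → W)
    (cY : Continuous fun x : Y × unitInterval => FY x.1 x.2)
    (cZ : Continuous FZ) (h0 : ∀ y, FY y 0 = FZ (q y))
    (h1 : ∀ y ∈ F, ∀ y' ∈ F, FY y 1 = FY y' 1) :
    ∃ G : X → W, Continuous G ∧ (∀ y s, G (p (y, s)) = FY y s) ∧ ∀ z, G (j z) = FZ z := by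
  obtain ⟨G, cG, hG⟩ := descend (Sum.elim p j) (continuous_sum_dom.2 ⟨h.cont_p, h.cont_j⟩)
    (by
      intro x
      rcases h.cover x with ⟨z, hz⟩ | ⟨y, s, hy⟩
      · exact ⟨Sum.inr z, hz⟩
      · exact ⟨Sum.inl (y, s), hy⟩)
    (fun s _ => Sum.elim (fun x => FY x.1 x.2) (fun z => FZ z) s)
    (by
      apply cont_sum_prod
      · exact cY.comp continuous_fst
      · exact cZ.comp continuous_fst)
    (by
      rintro (⟨y, s⟩ | z) (⟨y', s'⟩ | z') hxy t
      · change p (y, s) = p (y', s') at hxy
        change FY y s = FY y' s'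
        by_cases hs : s = 0
        · by_cases hs' : s' = 0
          · subst hs; subst hs'
            rw [h.bottom, h.bottom] at hxy
            rw [h0, h0, h.inj_j hxy]
          · rcases h.inj_p _ _ _ _ hs' hxy.symm with ⟨e1, e2⟩ | ⟨e1, e2, e3, e4⟩
            · rw [e1, e2]
            · subst e1; subst e2; exact h1 _ e4 _ e3
        · rcases h.inj_p _ _ _ _ hs hxy with ⟨e1, e2⟩ | ⟨e1, e2, e3, e4⟩
          · rw [e1, e2]
          · subst e1; subst e2; exact h1 _ e3 _ e4
      · change p (y, s) = j z' at hxy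
        change FY y s = FZ z'
        by_cases hs : s = 0
        · subst hs
          rw [h.bottom] at hxy
          rw [h0, h.inj_j hxy]
        · exact absurd hxy (h.disj _ _ _ hs)
      · change j z = p (y', s') at hxy
        change FZ z = FY y' s'
        by_cases hs : s' = 0
        · subst hs
          rw [h.bottom] at hxy
          rw [h0, h.inj_j hxy]
        · exact absurd hxy.symm (h.disj _ _ _ hs)
      · change j z = j z' at hxy
        rw [h.inj_j hxy])
  exact ⟨fun x => G x 0, cG.comp (by fun_prop : Continuous fun x : X => (x, (0 : ℝ))),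
    fun y s => hG (Sum.inl (y, s)) 0, fun z => hG (Sum.inr z) 0⟩

/-- A homotopy of `Z` rel `B` from the identity to a map with fixed point set `B`. -/
def RelHom (Z : Type) [TopologicalSpace Z] (B : Set Z) : Prop :=
  ∃ h : Z → ℝ → Z, Continuous (fun x : Z × ℝ => h x.1 x.2) ∧ (∀ z, h z 0 = z) ∧
    (∀ z ∈ B, ∀ t, h z t = z) ∧ ∀ z, h z 1 = z → z ∈ B

theorem IsCompactAR.metrizable {Z : Type} [TopologicalSpace Z] (h : IsCompactAR Z) :
    MetrizableSpace Z := by
  obtain ⟨-, e, -, he, -⟩ := h
  exact he.metrizableSpace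

theorem IsCompactAR.relHom {Z : Type} [TopologicalSpace Z] (h : IsCompactAR Z) {B : Set Z}
    (hB : IsFixSet Z B) : RelHom Z B := by
  obtain ⟨-, e, r, he, hr, hre⟩ := h
  obtain ⟨g, cg, hg⟩ := hB
  have ce := he.continuous
  have cm := continuous_mix
  refine ⟨fun z t => r (mix (e z) (e (g z)) t), ?_, ?_, ?_, ?_⟩
  · exact hr.comp (cm.comp (by fun_prop : Continuous fun x : Z × ℝ => ((e x.1, e (g x.1)), x.2)))
  · intro z; simp only [mix_zero, hre]
  · intro z hz t
    rw [← hg] at hz
    have hz' : g z = z := hz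
    simp only [hz', mix_self, hre]
  · intro z hz
    simp only [mix_one, hre] at hz
    rw [← hg]; exact hz

theorem IsCompactAR.contraction {Z : Type} [TopologicalSpace Z] (h : IsCompactAR Z) (z₀ : Z) :
    ∃ c : Z → ℝ → Z, Continuous (fun x : Z × ℝ => c x.1 x.2) ∧ (∀ z, c z 0 = z) ∧
      (∀ z, c z 1 = z₀) ∧ ∀ t, c z₀ t = z₀ := by
  obtain ⟨-, e, r, he, hr, hre⟩ := h
  have ce := he.continuous
  have cm := continuous_mix
  refine ⟨fun z t => r (mix (e z) (e z₀) t), ?_, ?_, ?_, ?_⟩
  · exact hr.comp (cm.comp (by fun_prop : Continuous fun x : Z × ℝ => ((e x.1, e z₀), x.2)))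
  · intro z; simp only [mix_zero, hre]
  · intro z; simp only [mix_one, hre]
  · intro t; simp only [mix_self, hre]

/-- Case I.1: the set meets the base and contains the collapsed point. -/
theorem fix_base {X Y Z : Type} [TopologicalSpace X] [MetrizableSpace X]
    [TopologicalSpace Y] [TopologicalSpace Z] [CompactSpace Y] [CompactSpace Z]
    {q : Y → Z} (hq : Continuous q) {F : Set Y} {j : Z → X} {p : Y × unitInterval → X}
    (h : IsQuotCylinder q F j p) (A : Set X) (hA : IsClosed A) (hne : A.Nonempty)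
    (hF : ∀ y ∈ F, p (y, 1) ∈ A) (hB : RelHom Z (j ⁻¹' A)) : IsFixSet X A := by
  classical
  letI := metrizableSpaceMetric X
  have cI := continuous_clI
  have cj := h.cont_j
  obtain ⟨hh, ch, hh0, hhB, hh1⟩ := hB
  have ciff : ∀ x, Metric.infDist x A = 0 ↔ x ∈ A := fun x => (hA.mem_iff_infDist_zero hne).symm
  set δ : X → ℝ := fun x => Metric.infDist x A with hδ
  have cδ : Continuous δ := Metric.continuous_infDist_pt A
  have δ0 : ∀ x, 0 ≤ δ x := fun x => Metric.infDist_nonneg
  set K : (Y × unitInterval) × ℝ → X := fun x =>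
    if x.2 ≤ 1 / 2 then p (x.1.1, clI ((1 - 2 * x.2) * x.1.2)) else j (hh (q x.1.1) (2 * x.2 - 1))
    with hK
  have cK : Continuous K := by
    apply Continuous.if_le
    · exact h.cont_p.comp (by fun_prop : Continuous fun x : (Y × unitInterval) × ℝ =>
        (x.1.1, clI ((1 - 2 * x.2) * x.1.2)))
    · exact cj.comp (ch.comp (by fun_prop : Continuous fun x : (Y × unitInterval) × ℝ =>
        (q x.1.1, 2 * x.2 - 1)))
    · fun_prop
    · fun_prop
    · rintro ⟨⟨y, σ⟩, τ⟩ hτ
      simp only at hτ
      subst hτ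
      have e1 : (1 : ℝ) - 2 * (1 / 2) = 0 := by norm_num
      have e2 : (2 : ℝ) * (1 / 2) - 1 = 0 := by norm_num
      simp only [e1, e2, zero_mul, clI_zero, h.bottom, hh0]
  set ρ : Y × unitInterval → ℝ := fun x => δ (p x) / (δ (p x) + x.2) with hρ
  have ρI : ∀ x, ρ x ∈ Icc (0 : ℝ) 1 := by
    intro x
    have h1 := δ0 (p x)
    have h2 := x.2.2.1
    exact ⟨by positivity, div_le_one_of_le₀ (by linarith) (by linarith)⟩
  have Kconst : ∀ y, q y ∈ j ⁻¹' A → ∀ τ, K ((y, 0), τ) = p (y, 0) := by
    intro y hy τ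
    simp only [hK, Icc.coe_zero, mul_zero, clI_zero]
    split_ifs
    · rfl
    · rw [hhB _ hy, h.bottom]
  obtain ⟨f, cf, fY, fZ⟩ := descendQ h (fun y σ => K ((y, σ), ρ (y, σ)))
    (fun z => j (hh z 1))
    (by
      rw [continuous_iff_continuousAt]
      rintro ⟨y, σ⟩
      change ContinuousAt (fun x => K (x, ρ x)) (y, σ)
      by_cases hz : δ (p (y, σ)) + (σ : ℝ) = 0
      · have h1 := δ0 (p (y, σ))
        have h2 := σ.2.1
        have hσ : σ = 0 := Subtype.ext (by rw [Icc.coe_zero]; linarith)
        subst hσ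
        have hd : δ (p (y, 0)) = 0 := by linarith
        have hmem : q y ∈ j ⁻¹' A := by
          have := (ciff _).1 hd
          rwa [h.bottom] at this
        exact continuousAt_param K cK ρ _ ρI (p (y, 0)) (fun u _ => Kconst y hmem u)
      · apply ContinuousAt.comp (f := fun x => (x, ρ x)) cK.continuousAt
        apply ContinuousAt.prodMk continuousAt_id
        have c1 : Continuous fun x : Y × unitInterval => δ (p x) := cδ.comp h.cont_p
        have c2 : Continuous fun x : Y × unitInterval => δ (p x) + (x.2 : ℝ) :=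
          c1.add (continuous_subtype_val.comp continuous_snd)
        exact c1.continuousAt.div c2.continuousAt hz)
    (cj.comp (ch.comp (by fun_prop : Continuous fun z : Z => (z, (1 : ℝ)))))
    (by
      intro y
      by_cases hd : δ (p (y, 0)) = 0
      · have hmem : q y ∈ j ⁻¹' A := by
          have := (ciff _).1 hd
          rwa [h.bottom] at this
        change K ((y, 0), ρ (y, 0)) = j (hh (q y) 1)
        rw [Kconst y hmem, h.bottom, hhB _ hmem]
      · have : ρ (y, 0) = 1 := by
          simp only [hρ, Icc.coe_zero, add_zero]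
          exact div_self hd
        change K ((y, 0), ρ (y, 0)) = j (hh (q y) 1)
        rw [this]
        simp only [hK]
        norm_num)
    (by
      intro y hy y' hy'
      have e : ∀ y ∈ F, K ((y, 1), ρ (y, 1)) = p (y, 1) := by
        intro y hy
        have hd : δ (p (y, 1)) = 0 := (ciff _).2 (hF y hy)
        have : ρ (y, 1) = 0 := by simp only [hρ, hd, zero_div]
        rw [this]
        simp only [hK]
        norm_num
        rw [clI_one]
      change K ((y, 1), ρ (y, 1)) = K ((y', 1), ρ (y', 1))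
      rw [e y hy, e y' hy', h.top y hy y' hy'])
  refine ⟨f, cf, ?_⟩
  ext x
  simp only [mem_setOf_eq]
  rcases h.cover x with ⟨z, rfl⟩ | ⟨y, s, rfl⟩
  · rw [fZ]
    constructor
    · intro hx
      exact hh1 z (h.inj_j hx)
    · intro hx
      rw [hhB z hx]
  · by_cases hs : s = 0
    · subst hs
      rw [h.bottom, fZ]
      constructor
      · intro hx
        exact hh1 _ (h.inj_j hx)
      · intro hx
        rw [hhB _ hx]
    · have hs0 : (0 : ℝ) < s := lt_of_le_of_ne s.2.1 (fun h => hs (Subtype.ext h.symm))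
      have hs1 : (s : ℝ) ≤ 1 := s.2.2
      have hr := ρI (y, s)
      rw [fY]
      constructor
      · intro hx
        simp only [hK] at hx
        split_ifs at hx with hle
        · have hm : cl ((1 - 2 * ρ (y, s)) * (s : ℝ)) = (1 - 2 * ρ (y, s)) * s :=
            cl_of_mem (mul_nonneg (by linarith) hs0.le) (by nlinarith [hr.1])
          have e : s = clI ((1 - 2 * ρ (y, s)) * s) := by
            rcases h.inj_p _ _ _ _ hs hx.symm with ⟨-, e⟩ | ⟨e1, e2, -⟩
            · exact e
            · rw [e1] at e2 ⊢; exact e2.symm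
          have h1 : (s : ℝ) = cl ((1 - 2 * ρ (y, s)) * (s : ℝ)) := congrArg Subtype.val e
          rw [hm] at h1
          have h2 : ρ (y, s) = 0 := by
            have : ρ (y, s) * s = 0 := by linarith
            rcases mul_eq_zero.1 this with h | h
            · exact h
            · exact absurd h hs0.ne'
          have h3 : δ (p (y, s)) = 0 := by
            simp only [hρ, div_eq_zero_iff] at h2
            rcases h2 with h | h
            · exact h
            · have := δ0 (p (y, s)); linarith
          exact (ciff _).1 h3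
        · exact absurd hx.symm (h.disj _ _ _ hs)
      · intro hx
        have hd : δ (p (y, s)) = 0 := (ciff _).2 hx
        have : ρ (y, s) = 0 := by simp only [hρ, hd, zero_div]
        rw [this]
        simp only [hK]
        norm_num
        rw [clI_coe]

/-- Case I.2: the set misses the base and contains the collapsed point. -/
theorem fix_side {X Y Z : Type} [TopologicalSpace X] [MetrizableSpace X]
    [TopologicalSpace Y] [TopologicalSpace Z] [CompactSpace Y] [CompactSpace Z]
    [MetrizableSpace Y]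
    {q : Y → Z} (hq : Continuous q) {F : Set Y} {j : Z → X} {p : Y × unitInterval → X}
    (h : IsQuotCylinder q F j p) (A : Set X) (hA : IsClosed A) (hne : A.Nonempty)
    (hF : ∀ y ∈ F, p (y, 1) ∈ A) (hB : ∀ z, j z ∉ A) (hY : ∀ y : Y, Pinch Y y)
    (hZ : ∀ z₀ : Z, ∃ c : Z → ℝ → Z, Continuous (fun x : Z × ℝ => c x.1 x.2) ∧
      (∀ z, c z 0 = z) ∧ (∀ z, c z 1 = z₀) ∧ ∀ t, c z₀ t = z₀) : IsFixSet X A := by
  classical
  letI := metrizableSpaceMetric X
  have cI := continuous_clI
  have cc := continuous_cl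
  have cj := h.cont_j
  have ciff : ∀ x, Metric.infDist x A = 0 ↔ x ∈ A := fun x => (hA.mem_iff_infDist_zero hne).symm
  -- the lowest point of `A`
  have hcomp : IsCompact (p ⁻¹' A) := (hA.preimage h.cont_p).isCompact
  have hne' : (p ⁻¹' A).Nonempty := by
    obtain ⟨x, hx⟩ := hne
    rcases h.cover x with ⟨z, rfl⟩ | ⟨y, s, rfl⟩
    · exact absurd hx (hB z)
    · exact ⟨(y, s), hx⟩
  obtain ⟨⟨y₀, σ₀⟩, ha, hmin⟩ := hcomp.exists_isMinOn hne'
    (continuous_subtype_val.comp continuous_snd).continuousOn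
  have hmin' : ∀ y (σ : unitInterval), p (y, σ) ∈ A → (σ₀ : ℝ) ≤ σ := fun y σ hy => hmin hy
  have hσ₀ : σ₀ ≠ 0 := by
    rintro rfl
    have : p (y₀, 0) ∈ A := ha
    rw [h.bottom] at this
    exact hB _ this
  have s₀ : (0 : ℝ) < σ₀ := lt_of_le_of_ne σ₀.2.1 (fun h => hσ₀ (Subtype.ext h.symm))
  have s₁ : (σ₀ : ℝ) ≤ 1 := σ₀.2.2
  obtain ⟨D, P, cD, D0, Dz, cP, P0, Pt, Py, P1⟩ := exists_pinch_family (hY y₀) σ₀
  obtain ⟨c, cc', c0, c1, cz⟩ := hZ (q y₀)
  set η : Y → unitInterval → ℝ := fun y σ => max 0 (min (σ : ℝ) σ₀ - D y) with hη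
  have η0 : ∀ y σ, 0 ≤ η y σ := fun y σ => le_max_left _ _
  have ησ : ∀ y (σ : unitInterval), η y σ ≤ σ := fun y σ =>
    max_le σ.2.1 (by have := D0 y; have := min_le_left (σ : ℝ) σ₀; linarith)
  have ησ₀ : ∀ y (σ : unitInterval), η y σ ≤ σ₀ := fun y σ =>
    max_le σ₀.2.1 (by have := D0 y; have := min_le_right (σ : ℝ) σ₀; linarith)
  have ηbase : ∀ y, η y 0 = 0 := fun y => le_antisymm (ησ y 0) (η0 y 0)
  have ηP : ∀ y σ, η y σ = 0 ∨ P y σ 1 = y₀ := by
    intro y σ
    by_cases hlt : D y < min (σ : ℝ) σ₀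
    · exact Or.inr (P1 y σ hlt)
    · left
      push Not at hlt
      exact max_eq_left (by linarith)
  have ηw : ∀ σ : unitInterval, (σ : ℝ) ≤ σ₀ → η y₀ σ = σ := by
    intro σ hσ
    simp only [hη, (Dz y₀).2 rfl, sub_zero, min_eq_left hσ]
    exact max_eq_right σ.2.1
  have ηeq : ∀ y (σ : unitInterval), σ ≠ 0 → η y σ = σ → y = y₀ ∧ (σ : ℝ) ≤ σ₀ := by
    intro y σ hs h3
    have hs0 : (0 : ℝ) < σ := lt_of_le_of_ne σ.2.1 (fun h => hs (Subtype.ext h.symm))
    have h4 : η y σ = min (σ : ℝ) σ₀ - D y := by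
      simp only [hη]
      apply max_eq_right
      by_contra hneg
      push Not at hneg
      have : η y σ = 0 := max_eq_left hneg.le
      linarith
    have h5 := D0 y
    have h6 := min_le_left (σ : ℝ) σ₀
    have h7 := min_le_right (σ : ℝ) σ₀
    exact ⟨(Dz y).1 (by linarith), by linarith⟩
  have cη : Continuous fun x : Y × unitInterval => η x.1 x.2 := by
    simp only [hη]; fun_prop
  have cPP : Continuous fun x : (Y × unitInterval) × ℝ => P x.1.1 x.1.2 (2 * x.2) :=
    cP.comp (by fun_prop : Continuous fun x : (Y × unitInterval) × ℝ => (x.1, 2 * x.2))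
  have cP1 : Continuous fun x : (Y × unitInterval) × ℝ => P x.1.1 x.1.2 1 :=
    cP.comp (by fun_prop : Continuous fun x : (Y × unitInterval) × ℝ => (x.1, (1 : ℝ)))
  -- second stage: on the whiskered base
  -- `G (y,σ) t` : contract the base to `q y₀`, then climb the whisker
  set G : (Y × unitInterval) × ℝ → X := fun x =>
    if η x.1.1 x.1.2 ≤ 0 then j (c (q (P x.1.1 x.1.2 1)) x.2) else p (y₀, clI (η x.1.1 x.1.2))
    with hG
  have hGj : ∀ x : (Y × unitInterval) × ℝ, η x.1.1 x.1.2 = 0 →
      G x = j (c (q (P x.1.1 x.1.2 1)) x.2) := fun x hx => if_pos hx.le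
  have hGp : ∀ x : (Y × unitInterval) × ℝ, P x.1.1 x.1.2 1 = y₀ →
      G x = p (y₀, clI (η x.1.1 x.1.2)) := by
    intro x hx
    by_cases h0 : η x.1.1 x.1.2 ≤ 0
    · have h0' : η x.1.1 x.1.2 = 0 := le_antisymm h0 (η0 _ _)
      rw [hGj x h0', h0', hx, cz, clI_zero, h.bottom]
    · exact if_neg h0
  have cη' : Continuous fun x : (Y × unitInterval) × ℝ => η x.1.1 x.1.2 := cη.comp continuous_fst
  have cG : Continuous G := by
    rw [← continuousOn_univ]
    have hcov : (univ : Set ((Y × unitInterval) × ℝ)) =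
        {x | η x.1.1 x.1.2 = 0} ∪ {x | P x.1.1 x.1.2 1 = y₀} := by
      ext x
      simp only [mem_univ, true_iff]
      exact ηP x.1.1 x.1.2
    rw [hcov]
    apply ContinuousOn.union_of_isClosed
    · exact (cj.comp (cc'.comp ((hq.comp cP1).prodMk continuous_snd))).continuousOn.congr
        (fun x hx => hGj x hx)
    · exact (h.cont_p.comp (continuous_const.prodMk (cI.comp cη'))).continuousOn.congr
        (fun x hx => hGp x hx)
    · exact isClosed_eq cη' continuous_const
    · exact isClosed_eq cP1 continuous_const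
  set L : (Y × unitInterval) × ℝ → X := fun x =>
    if x.2 ≤ 1 / 2 then G (x.1, 2 * x.2)
    else p (y₀, clI (η x.1.1 x.1.2 + (2 * x.2 - 1) * (σ₀ - η x.1.1 x.1.2))) with hL
  have cL : Continuous L := by
    apply Continuous.if_le
    · exact cG.comp (by fun_prop : Continuous fun x : (Y × unitInterval) × ℝ => (x.1, 2 * x.2))
    · have : Continuous fun x : (Y × unitInterval) × ℝ =>
          clI (η x.1.1 x.1.2 + (2 * x.2 - 1) * (σ₀ - η x.1.1 x.1.2)) := by fun_prop
      exact h.cont_p.comp (continuous_const.prodMk this)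
    · fun_prop
    · fun_prop
    · rintro ⟨⟨y, σ⟩, τ⟩ hτ
      simp only at hτ
      subst hτ
      have e1 : (2 : ℝ) * (1 / 2) = 1 := by norm_num
      simp only [e1, sub_self, zero_mul, add_zero]
      rcases ηP y σ with e | e
      · rw [hGj _ e]
        simp only [c1, e, clI_zero, h.bottom]
      · rw [hGp _ e]
  -- all stages
  set K : (Y × unitInterval) × ℝ → X := fun x =>
    if x.2 ≤ 1 / 2 then p (P x.1.1 x.1.2 (2 * x.2), clI (x.1.2 - 2 * x.2 * (x.1.2 - η x.1.1 x.1.2)))
    else L (x.1, 2 * x.2 - 1) with hK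
  have cK : Continuous K := by
    apply Continuous.if_le
    · have : Continuous fun x : (Y × unitInterval) × ℝ =>
          clI (x.1.2 - 2 * x.2 * (x.1.2 - η x.1.1 x.1.2)) := by fun_prop
      exact h.cont_p.comp (cPP.prodMk this)
    · exact cL.comp (by fun_prop : Continuous fun x : (Y × unitInterval) × ℝ =>
        (x.1, 2 * x.2 - 1))
    · fun_prop
    · fun_prop
    · rintro ⟨⟨y, σ⟩, τ⟩ hτ
      simp only at hτ
      subst hτ
      have e1 : (2 : ℝ) * (1 / 2) = 1 := by norm_num
      have e2 : (0 : ℝ) ≤ 1 / 2 := by norm_num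
      simp only [e1, sub_self, one_mul, sub_sub_cancel, hL, if_pos e2, mul_zero]
      rcases ηP y σ with e | e
      · rw [hGj _ e]
        simp only [c0, e, clI_zero, h.bottom]
      · rw [hGp _ e, e]
  set δ : X → ℝ := fun x => Metric.infDist x A with hδ
  have cδ : Continuous δ := Metric.continuous_infDist_pt A
  have δ0 : ∀ x, 0 ≤ δ x := fun x => Metric.infDist_nonneg
  set ρ : Y × unitInterval → ℝ := fun x => δ (p x) / (δ (p x) + (x.2 - η x.1 x.2)) with hρ
  have ρI : ∀ x, ρ x ∈ Icc (0 : ℝ) 1 := by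
    intro x
    have h1 := δ0 (p x)
    have h2 := ησ x.1 x.2
    exact ⟨div_nonneg h1 (by linarith), div_le_one_of_le₀ (by linarith) (by linarith)⟩
  have Kconst : ∀ τ, K ((y₀, σ₀), τ) = p (y₀, σ₀) := by
    intro τ
    have e0 := ηw σ₀ le_rfl
    have e1 : P y₀ σ₀ 1 = y₀ := Py _ _
    simp only [hK, hL, e0, sub_self, mul_zero, sub_zero, add_zero, clI_coe, Py]
    split_ifs
    · rfl
    · rw [hGp _ (Py _ _)]
      simp only [e0, clI_coe]
    · rfl
  have Ktop : ∀ y σ, p (y, σ) ∈ A → K ((y, σ), ρ (y, σ)) = p (y, σ) := by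
    intro y σ hy
    have hd : δ (p (y, σ)) = 0 := (ciff _).2 hy
    have : ρ (y, σ) = 0 := by simp only [hρ, hd, zero_div]
    rw [this]
    have e2 : (0 : ℝ) ≤ 1 / 2 := by norm_num
    simp only [hK, if_pos e2, mul_zero, Pt, zero_mul, sub_zero, clI_coe]
  -- off the base and below height: parameter one
  have K1 : ∀ x : Y × unitInterval, K (x, 1) = p (y₀, σ₀) := by
    intro x
    have e1 : ¬ (1 : ℝ) ≤ 1 / 2 := by norm_num
    have e2 : (2 : ℝ) * 1 - 1 = 1 := by norm_num
    simp only [hK, hL, if_neg e1, e2, one_mul, add_sub_cancel, clI_coe]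
  obtain ⟨f, cf, fY, fZ⟩ := descendQ h (fun y σ => K ((y, σ), ρ (y, σ)))
    (fun _ => p (y₀, σ₀))
    (by
      rw [continuous_iff_continuousAt]
      rintro ⟨y, σ⟩
      change ContinuousAt (fun x => K (x, ρ x)) (y, σ)
      by_cases hz : δ (p (y, σ)) + ((σ : ℝ) - η y σ) = 0
      · have h1 := δ0 (p (y, σ))
        have h2 := ησ y σ
        have hd : δ (p (y, σ)) = 0 := by linarith
        have he : η y σ = σ := by linarith
        have hmem := (ciff _).1 hd
        have hs : σ ≠ 0 := by
          rintro rfl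
          rw [h.bottom] at hmem
          exact hB _ hmem
        obtain ⟨e1, e2⟩ := ηeq y σ hs he
        subst e1
        have e3 : σ = σ₀ := Subtype.ext (le_antisymm e2 (hmin' _ _ hmem))
        subst e3
        exact continuousAt_param K cK ρ _ ρI (p (y, σ)) (fun u _ => Kconst u)
      · apply ContinuousAt.comp (f := fun x => (x, ρ x)) cK.continuousAt
        apply ContinuousAt.prodMk continuousAt_id
        have c1 : Continuous fun x : Y × unitInterval => δ (p x) := cδ.comp h.cont_p
        have c2 : Continuous fun x : Y × unitInterval => δ (p x) + ((x.2 : ℝ) - η x.1 x.2) :=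
          c1.add ((continuous_subtype_val.comp continuous_snd).sub cη)
        exact c1.continuousAt.div c2.continuousAt hz)
    continuous_const
    (by
      intro y
      have hd : δ (p (y, 0)) ≠ 0 := by
        intro hd
        have := (ciff _).1 hd
        rw [h.bottom] at this
        exact hB _ this
      have : ρ (y, 0) = 1 := by
        simp only [hρ, ηbase, Icc.coe_zero, sub_zero, add_zero]
        exact div_self hd
      change K ((y, 0), ρ (y, 0)) = p (y₀, σ₀)
      rw [this, K1])
    (by
      intro y hy y' hy'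
      change K ((y, 1), ρ (y, 1)) = K ((y', 1), ρ (y', 1))
      rw [Ktop y 1 (hF y hy), Ktop y' 1 (hF y' hy'), h.top y hy y' hy'])
  refine ⟨f, cf, ?_⟩
  ext x
  simp only [mem_setOf_eq]
  rcases h.cover x with ⟨z, rfl⟩ | ⟨y, s, rfl⟩
  · rw [fZ]
    constructor
    · intro hx
      exact absurd hx (h.disj _ _ _ hσ₀)
    · intro hx
      exact absurd hx (hB z)
  · by_cases hs : s = 0
    · subst hs
      rw [h.bottom, fZ]
      constructor
      · intro hx
        exact absurd hx (h.disj _ _ _ hσ₀)
      · intro hx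
        exact absurd hx (hB _)
    · have hs0 : (0 : ℝ) < s := lt_of_le_of_ne s.2.1 (fun h => hs (Subtype.ext h.symm))
      have hs1 : (s : ℝ) ≤ 1 := s.2.2
      have hr := ρI (y, s)
      have hη1 := η0 y s
      have hη2 := ησ y s
      constructor
      · intro hx
        by_contra hxA
        have hd : 0 < δ (p (y, s)) :=
          lt_of_le_of_ne (δ0 _) (fun hh => hxA ((ciff _).1 hh.symm))
        -- on the whisker the parameter is one
        have hwh : η y s = s → False := by
          intro he
          have : ρ (y, s) = 1 := by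
            simp only [hρ, he, sub_self, add_zero]
            exact div_self hd.ne'
          rw [fY, this, K1] at hx
          exact hxA (hx ▸ ha)
        rw [fY] at hx
        simp only [hK] at hx
        split_ifs at hx with hle
        · have hm : cl ((s : ℝ) - 2 * ρ (y, s) * (s - η y s)) =
              s - 2 * ρ (y, s) * (s - η y s) := by
            have : 0 ≤ 2 * ρ (y, s) * (s - η y s) :=
              mul_nonneg (by linarith [hr.1]) (by linarith)
            apply cl_of_mem
            · have : 2 * ρ (y, s) * (s - η y s) ≤ 1 * (s - η y s) :=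
                mul_le_mul_of_nonneg_right (by linarith) (by linarith)
              linarith
            · linarith
          have e : s = clI ((s : ℝ) - 2 * ρ (y, s) * (s - η y s)) := by
            rcases h.inj_p _ _ _ _ hs hx.symm with ⟨-, e⟩ | ⟨e1, e2, -⟩
            · exact e
            · rw [e2]; exact e1
          have h1 : (s : ℝ) = cl ((s : ℝ) - 2 * ρ (y, s) * (s - η y s)) :=
            congrArg Subtype.val e
          rw [hm] at h1
          have h2 : ρ (y, s) * (s - η y s) = 0 := by linarith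
          rcases mul_eq_zero.1 h2 with h | h
          · simp only [hρ, div_eq_zero_iff] at h
            rcases h with h | h
            · exact hd.ne' h
            · linarith
          · exact hwh (by linarith)
        · -- the image is on the whiskered base
          have key : ∀ u : unitInterval, (u : ℝ) ≤ σ₀ → p (y₀, u) = p (y, s) → False := by
            intro u hu he
            rcases h.inj_p _ _ _ _ hs he.symm with ⟨e1, e2⟩ | ⟨e1, e2, e3, e4⟩
            · subst e1; subst e2
              exact hwh (ηw _ hu)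
            · subst e1
              exact hxA (hF _ e3)
          simp only [hL] at hx
          split_ifs at hx with hle2
          · rcases ηP y s with e | e
            · rw [hGj _ e] at hx
              exact h.disj _ _ _ hs hx.symm
            · rw [hGp _ e] at hx
              refine key _ ?_ hx
              have : ((clI (η y s) : unitInterval) : ℝ) = η y s :=
                cl_of_mem hη1 (by linarith)
              rw [this]; exact ησ₀ _ _
          · refine key _ ?_ hx
            have hb := ησ₀ y s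
            push Not at hle2 hle
            have hu1 : 2 * (2 * ρ (y, s) - 1) - 1 ≤ 1 := by linarith [hr.2]
            have hu0 : 0 ≤ 2 * (2 * ρ (y, s) - 1) - 1 := by linarith
            have hv : η y s + (2 * (2 * ρ (y, s) - 1) - 1) * (σ₀ - η y s) ≤ σ₀ := by
              have := mul_le_mul_of_nonneg_right hu1 (by linarith : 0 ≤ (σ₀ : ℝ) - η y s)
              linarith
            have hv0 : 0 ≤ η y s + (2 * (2 * ρ (y, s) - 1) - 1) * (σ₀ - η y s) :=
              add_nonneg hη1 (mul_nonneg hu0 (by linarith))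
            have : ((clI (η y s + (2 * (2 * ρ (y, s) - 1) - 1) * (σ₀ - η y s)) :
                unitInterval) : ℝ) = η y s + (2 * (2 * ρ (y, s) - 1) - 1) * (σ₀ - η y s) :=
              cl_of_mem hv0 (by linarith)
            rw [this]; exact hv
      · intro hx
        rw [fY]
        exact Ktop y s hx

/-- Case I: the set contains the collapsed point. -/
theorem fix_caseI {X Y Z : Type} [TopologicalSpace X] [MetrizableSpace X]
    [TopologicalSpace Y] [TopologicalSpace Z] (hY : IsCompactANR Y) (hZ : IsCompactAR Z)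
    {q : Y → Z} (hq : Continuous q) {F : Set Y} {j : Z → X} {p : Y × unitInterval → X}
    (h : IsQuotCylinder q F j p) (A : Set X) (hA : IsClosed A) (hne : A.Nonempty)
    (hF : ∀ y ∈ F, p (y, 1) ∈ A) (hB : j ⁻¹' A = ∅ ∨ IsFixSet Z (j ⁻¹' A)) : IsFixSet X A := by
  haveI := hY.1
  haveI := hZ.1
  haveI := hY.metrizable
  by_cases hb : ∀ z, j z ∉ A
  · exact fix_side hq h A hA hne hF hb (fun y => hY.pinch y) (fun z => hZ.contraction z)
  · have hB' : IsFixSet Z (j ⁻¹' A) := by
      rcases hB with hB | hB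
      · exact absurd (fun z hz => Set.eq_empty_iff_forall_notMem.1 hB z hz) hb
      · exact hB
    exact fix_base hq h A hA hne hF (hZ.relHom hB')

/-- The theorem on quotients of mapping cylinders. -/
theorem fix_quot {X Y Z : Type} [TopologicalSpace X] [MetrizableSpace X]
    [TopologicalSpace Y] [TopologicalSpace Z] (hY : IsCompactANR Y) (hZ : IsCompactAR Z)
    {q : Y → Z} (hq : Continuous q) {F : Set Y} {j : Z → X} {p : Y × unitInterval → X}
    (h : IsQuotCylinder q F j p) (A : Set X) (hA : IsClosed A) (hne : A.Nonempty)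
    (hB : j ⁻¹' A = ∅ ∨ IsFixSet Z (j ⁻¹' A)) : IsFixSet X A := by
  classical
  by_cases hF : ∀ y ∈ F, p (y, 1) ∈ A
  · exact fix_caseI hY hZ hq h A hA hne hF hB
  push Not at hF
  obtain ⟨y₁, hy₁, hv⟩ := hF
  haveI := hY.1
  haveI := hZ.1
  haveI := hY.metrizable
  letI := metrizableSpaceMetric X
  letI := metrizableSpaceMetric Y
  have cI := continuous_clI
  have cc := continuous_cl
  have ciff : ∀ x, Metric.infDist x A = 0 ↔ x ∈ A := fun x => (hA.mem_iff_infDist_zero hne).symm
  set δ : X → ℝ := fun x => Metric.infDist x A with hδ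
  have cδ : Continuous δ := Metric.continuous_infDist_pt A
  have δ0 : ∀ x, 0 ≤ δ x := fun x => Metric.infDist_nonneg
  set d₀ : ℝ := δ (p (y₁, 1)) with hd₀
  have hd₀pos : 0 < d₀ := lt_of_le_of_ne (δ0 _) (fun hh => hv ((ciff _).1 hh.symm))
  -- uniform continuity
  obtain ⟨ε₀, hε₀, hunif⟩ := Metric.uniformContinuous_iff.1
    (CompactSpace.uniformContinuous_of_continuous h.cont_p) (d₀ / 2) (half_pos hd₀pos)
  set ε : ℝ := min (ε₀ / 2) (1 / 2) with hε
  have εpos : 0 < ε := lt_min (half_pos hε₀) (by norm_num)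
  have ε1 : ε ≤ 1 / 2 := min_le_right _ _
  have εlt : ε < ε₀ := lt_of_le_of_lt (min_le_left _ _) (by linarith)
  set lam : Y → ℝ := fun y => cl (2 * δ (p (y, 1)) / d₀ - 1) with hlam
  have cp1 : Continuous fun y : Y => p (y, 1) :=
    h.cont_p.comp (by fun_prop : Continuous fun y : Y => (y, (1 : unitInterval)))
  have clam : Continuous lam := by
    have c1 : Continuous fun y : Y => 2 * δ (p (y, 1)) / d₀ - 1 :=
      ((continuous_const.mul (cδ.comp cp1)).div_const _).sub continuous_const
    exact cc.comp c1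
  have lam0 : ∀ y, 0 ≤ lam y := fun y => cl_nonneg _
  have lam1 : ∀ y, lam y ≤ 1 := fun y => cl_le_one _
  have lamF : ∀ y ∈ F, lam y = 1 := by
    intro y hy
    have e : δ (p (y, 1)) = d₀ := by rw [h.top y hy y₁ hy₁]
    simp only [hlam, e]
    have : 2 * d₀ / d₀ - 1 = 1 := by field_simp; norm_num
    rw [this, cl_one]
  set τ : Y → ℝ := fun y => 1 - ε * lam y with hτ
  have cτ : Continuous τ := by simp only [hτ]; fun_prop
  have τ1 : ∀ y, τ y ≤ 1 := fun y => by
    have := mul_nonneg εpos.le (lam0 y); simp only [hτ]; linarith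
  have τ0 : ∀ y, 1 / 2 ≤ τ y := fun y => by
    have := mul_le_mul_of_nonneg_left (lam1 y) εpos.le; simp only [hτ]; linarith
  have τpos : ∀ y, 0 < τ y := fun y => by have := τ0 y; linarith
  have τF : ∀ y ∈ F, τ y = 1 - ε := fun y hy => by simp only [hτ, lamF y hy, mul_one]
  have hcut : ∀ y (σ : unitInterval), p (y, σ) ∈ A → (σ : ℝ) ≤ τ y := by
    intro y σ hy
    by_contra hlt
    push Not at hlt
    have hσ1 : (σ : ℝ) ≤ 1 := σ.2.2
    have hl : 0 < lam y := by
      by_contra hl
      have : lam y = 0 := le_antisymm (not_lt.1 hl) (lam0 y)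
      simp only [hτ, this] at hlt
      linarith
    have hgt : d₀ / 2 < δ (p (y, 1)) := by
      by_contra hle
      push Not at hle
      have h1 : 2 * δ (p (y, 1)) / d₀ - 1 ≤ 0 := by
        have : 2 * δ (p (y, 1)) / d₀ ≤ 1 := by rw [div_le_one hd₀pos]; linarith
        linarith
      have : lam y = 0 := by
        simp only [hlam]
        unfold cl
        rw [min_eq_left (by linarith), max_eq_left h1]
      linarith
    have hdist : dist (y, σ) (y, (1 : unitInterval)) < ε₀ := by
      rw [Prod.dist_eq, dist_self, Subtype.dist_eq, Real.dist_eq, Icc.coe_one]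
      refine max_lt hε₀ ?_
      rw [abs_sub_comm, abs_of_nonneg (by linarith)]
      have : ε * lam y ≤ ε * 1 := mul_le_mul_of_nonneg_left (lam1 y) εpos.le
      simp only [hτ] at hlt
      linarith
    have h2 := hunif hdist
    have h3 : δ (p (y, 1)) ≤ δ (p (y, σ)) + dist (p (y, 1)) (p (y, σ)) :=
      Metric.infDist_le_infDist_add_dist
    have h4 : δ (p (y, σ)) = 0 := (ciff _).2 hy
    rw [dist_comm] at h3
    linarith
  -- the lower part
  let T : Set X := {x | (∃ z, j z = x) ∨ ∃ (y : Y) (s : unitInterval), (s : ℝ) ≤ τ y ∧ p (y, s) = x}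
  have hAT : A ⊆ T := by
    intro x hx
    rcases h.cover x with ⟨z, rfl⟩ | ⟨y, s, rfl⟩
    · exact Or.inl ⟨z, rfl⟩
    · exact Or.inr ⟨y, s, hcut y s hx, rfl⟩
  let jT : Z → T := fun z => ⟨j z, Or.inl ⟨z, rfl⟩⟩
  have hclI : ∀ (y : Y) (s : unitInterval),
      ((clI ((s : ℝ) * τ y) : unitInterval) : ℝ) = s * τ y := fun y s =>
    cl_of_mem (mul_nonneg s.2.1 (τpos y).le) (mul_le_one₀ s.2.2 (τpos y).le (τ1 y))
  let pT : Y × unitInterval → T := fun x => ⟨p (x.1, clI ((x.2 : ℝ) * τ x.1)),
    Or.inr ⟨x.1, clI ((x.2 : ℝ) * τ x.1), by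
      rw [hclI]
      have h1 := x.2.2.2
      have h2 := τpos x.1
      nlinarith, rfl⟩⟩
  have hT : IsQuotCylinder q ∅ jT pT := by
    refine ⟨h.cont_j.subtype_mk _, ?_, ?_, ?_, ?_, ?_, ?_, ?_⟩
    · intro z z' hz
      exact h.inj_j (congrArg Subtype.val hz)
    · apply Continuous.subtype_mk
      exact h.cont_p.comp (by fun_prop : Continuous fun x : Y × unitInterval =>
        (x.1, clI ((x.2 : ℝ) * τ x.1)))
    · intro y
      apply Subtype.ext
      simp only [pT, jT, Icc.coe_zero, zero_mul, clI_zero, h.bottom]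
    · intro y hy
      exact absurd hy (Set.notMem_empty _)
    · intro y y' s s' hs he
      left
      have he' : p (y, clI ((s : ℝ) * τ y)) = p (y', clI ((s' : ℝ) * τ y')) :=
        congrArg Subtype.val he
      have hs0 : (0 : ℝ) < s := lt_of_le_of_ne s.2.1 (fun h => hs (Subtype.ext h.symm))
      have hne0 : clI ((s : ℝ) * τ y) ≠ 0 := by
        intro h0
        have h1 : (s : ℝ) * τ y = 0 := by rw [← hclI, h0, Icc.coe_zero]
        exact (mul_pos hs0 (τpos y)).ne' h1
      rcases h.inj_p _ _ _ _ hne0 he' with ⟨e1, e2⟩ | ⟨e1, -, e3, -⟩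
      · subst e1
        refine ⟨rfl, ?_⟩
        have h1 : (s : ℝ) * τ y = s' * τ y := by rw [← hclI, e2, hclI]
        exact Subtype.ext (mul_right_cancel₀ (τpos y).ne' h1)
      · exfalso
        have h1 : (s : ℝ) * τ y = 1 := by rw [← hclI, e1, Icc.coe_one]
        rw [τF y e3] at h1
        have h2 : (s : ℝ) ≤ 1 := s.2.2
        nlinarith
    · intro y s z hs he
      have he' : p (y, clI ((s : ℝ) * τ y)) = j z := congrArg Subtype.val he
      have hs0 : (0 : ℝ) < s := lt_of_le_of_ne s.2.1 (fun h => hs (Subtype.ext h.symm))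
      have hne0 : clI ((s : ℝ) * τ y) ≠ 0 := by
        intro h0
        have h1 : (s : ℝ) * τ y = 0 := by rw [← hclI, h0, Icc.coe_zero]
        exact (mul_pos hs0 (τpos y)).ne' h1
      exact h.disj _ _ _ hne0 he'
    · rintro ⟨x, ⟨z, rfl⟩ | ⟨y, s, hs, rfl⟩⟩
      · exact Or.inl ⟨z, rfl⟩
      · right
        refine ⟨y, ⟨(s : ℝ) / τ y, div_nonneg s.2.1 (τpos y).le, (div_le_one (τpos y)).2 hs⟩, ?_⟩
        apply Subtype.ext
        simp only [pT]
        rw [div_mul_cancel₀ _ (τpos y).ne', clI_coe]
  let AT : Set T := Subtype.val ⁻¹' A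
  have hAT' : IsClosed AT := hA.preimage continuous_subtype_val
  have hATne : AT.Nonempty := by
    obtain ⟨a, ha⟩ := hne
    exact ⟨⟨a, hAT ha⟩, ha⟩
  obtain ⟨fT, cfT, hfT⟩ := fix_caseI hY hZ hq hT AT hAT' hATne
    (fun y hy => absurd hy (Set.notMem_empty _)) hB
  have hfT' : ∀ x : T, fT x = x ↔ (x : X) ∈ A := by
    intro x
    have : x ∈ {x | fT x = x} ↔ x ∈ AT := by rw [hfT]
    exact this
  -- contraction of the lower part
  obtain ⟨c, cc', c0, c1, -⟩ := hZ.contraction (q y₁)
  obtain ⟨C, cC, hCY, hCZ⟩ := descendCyl (W := T) hT.toCyl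
    (fun y s t => if t ≤ 1 / 2 then pT (y, clI ((1 - 2 * cl t) * s)) else jT (c (q y) (2 * t - 1)))
    (fun z t => if t ≤ 1 / 2 then jT z else jT (c z (2 * t - 1)))
    (by
      apply Continuous.if_le
      · exact hT.cont_p.comp (by fun_prop : Continuous fun x : (Y × unitInterval) × ℝ =>
          (x.1.1, clI ((1 - 2 * cl x.2) * x.1.2)))
      · exact hT.cont_j.comp (cc'.comp (by fun_prop : Continuous
          fun x : (Y × unitInterval) × ℝ => (q x.1.1, 2 * x.2 - 1)))
      · fun_prop
      · fun_prop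
      · rintro ⟨⟨y, σ⟩, t⟩ ht
        simp only at ht
        subst ht
        have e0 : cl (1 / 2) = 1 / 2 := cl_of_mem (by norm_num) (by norm_num)
        have e1 : (1 : ℝ) - 2 * (1 / 2) = 0 := by norm_num
        have e2 : (2 : ℝ) * (1 / 2) - 1 = 0 := by norm_num
        simp only [e0, e1, e2, zero_mul, clI_zero, hT.bottom, c0])
    (by
      apply Continuous.if_le
      · exact hT.cont_j.comp continuous_fst
      · exact hT.cont_j.comp (cc'.comp (by fun_prop : Continuous
          fun x : Z × ℝ => (x.1, 2 * x.2 - 1)))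
      · fun_prop
      · fun_prop
      · rintro ⟨z, t⟩ ht
        simp only at ht
        subst ht
        have e2 : (2 : ℝ) * (1 / 2) - 1 = 0 := by norm_num
        simp only [e2, c0])
    (by
      intro y t
      simp only [Icc.coe_zero, mul_zero, clI_zero, hT.bottom])
  have hC0 : ∀ x, C x 0 = x := by
    intro x
    have e2 : (0 : ℝ) ≤ 1 / 2 := by norm_num
    rcases hT.cover x with ⟨z, rfl⟩ | ⟨y, s, rfl⟩
    · rw [hCZ, if_pos e2]
    · rw [hCY, if_pos e2, cl_zero, mul_zero, sub_zero, one_mul, clI_coe]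
  have hC1 : ∀ x, C x 1 = jT (q y₁) := by
    intro x
    have e2 : ¬ (1 : ℝ) ≤ 1 / 2 := by norm_num
    have e3 : (2 : ℝ) * 1 - 1 = 1 := by norm_num
    rcases hT.cover x with ⟨z, rfl⟩ | ⟨y, s, rfl⟩
    · rw [hCZ, if_neg e2, e3, c1]
    · rw [hCY, if_neg e2, e3, c1]
  -- the map
  obtain ⟨f, cf, fY, fZ⟩ := descendQ h
    (fun y σ => (C (fT (pT (y, clI (min (σ : ℝ) (τ y) / τ y)))) (max 0 ((σ : ℝ) - τ y) / ε) : T).1)
    (fun z => (fT (jT z)).1)
    (by
      apply continuous_subtype_val.comp
      have c1 : Continuous fun x : Y × unitInterval => min (x.2 : ℝ) (τ x.1) / τ x.1 := by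
        apply Continuous.div
        · fun_prop
        · fun_prop
        · intro x; exact (τpos x.1).ne'
      have c2 : Continuous fun x : Y × unitInterval => max 0 ((x.2 : ℝ) - τ x.1) / ε := by
        fun_prop
      exact cC.comp ((cfT.comp (hT.cont_p.comp (continuous_fst.prodMk (cI.comp c1)))).prodMk c2))
    (continuous_subtype_val.comp (cfT.comp hT.cont_j))
    (by
      intro y
      have e1 : min ((0 : unitInterval) : ℝ) (τ y) = 0 := by
        rw [Icc.coe_zero]; exact min_eq_left (τpos y).le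
      have e2 : max 0 (((0 : unitInterval) : ℝ) - τ y) = 0 := by
        rw [Icc.coe_zero]; exact max_eq_left (by have := τpos y; linarith)
      simp only [e1, e2, zero_div, clI_zero, hC0, hT.bottom])
    (by
      intro y hy y' hy'
      have e : ∀ y ∈ F, max 0 (((1 : unitInterval) : ℝ) - τ y) / ε = 1 := by
        intro y hy
        rw [Icc.coe_one, τF y hy, sub_sub_cancel, max_eq_right εpos.le, div_self εpos.ne']
      simp only [e y hy, e y' hy', hC1])
  refine ⟨f, cf, ?_⟩
  ext x
  simp only [mem_setOf_eq]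
  rcases h.cover x with ⟨z, rfl⟩ | ⟨y, s, rfl⟩
  · rw [fZ]
    have := hfT' (jT z)
    rw [← this]
    constructor
    · intro hx; exact Subtype.ext hx
    · intro hx; rw [hx]
  · rw [fY]
    by_cases hs : (s : ℝ) ≤ τ y
    · have e1 : min (s : ℝ) (τ y) = s := min_eq_left hs
      have e2 : max 0 ((s : ℝ) - τ y) = 0 := max_eq_left (by linarith)
      have e3 : pT (y, clI ((s : ℝ) / τ y)) = ⟨p (y, s), Or.inr ⟨y, s, hs, rfl⟩⟩ := by
        apply Subtype.ext
        have h1 : ((clI ((s : ℝ) / τ y) : unitInterval) : ℝ) = s / τ y :=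
          cl_of_mem (div_nonneg s.2.1 (τpos y).le) ((div_le_one (τpos y)).2 hs)
        simp only [pT, h1]
        rw [div_mul_cancel₀ _ (τpos y).ne', clI_coe]
      rw [e1, e2, zero_div, hC0, e3]
      have := hfT' ⟨p (y, s), Or.inr ⟨y, s, hs, rfl⟩⟩
      simp only at this
      rw [← this]
      constructor
      · intro hx; exact Subtype.ext hx
      · intro hx; rw [hx]
    · have hxT : p (y, s) ∉ T := by
        push Not at hs
        have hs0 : s ≠ 0 := by
          rintro rfl
          rw [Icc.coe_zero] at hs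
          have := τpos y; linarith
        rintro (⟨z, hz⟩ | ⟨y', s', hs', he⟩)
        · exact h.disj _ _ _ hs0 hz.symm
        · rcases h.inj_p _ _ _ _ hs0 he.symm with ⟨e1, e2⟩ | ⟨e1, e2, e3, e4⟩
          · subst e1; subst e2; linarith
          · subst e2
            rw [τF _ e4, Icc.coe_one] at hs'
            linarith
      constructor
      · intro hx
        exact absurd (hx ▸ Subtype.property _) hxT
      · intro hx
        exact absurd (hAT hx) hxT

end Pool.Agent.helper30.CIP
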