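import Pool.Agent.helper30.CIPZeroDim

/-!
# Relative version: extending strict homotopies over totally disconnected sets
-/

set_option autoImplicit false

open Set Topology TopologicalSpace Filter

namespace Pool.Agent.helper30.CIP

/-- `γ` is a path from `x` to `f x` that never returns to `x`. -/
def SPath {X : Type} [TopologicalSpace X] (f : X → X) (x : X) (γ : C(unitInterval, X)) : Prop :=
  γ 0 = x ∧ γ 1 = f x ∧ ∀ t, t ≠ 0 → γ t ≠ x

/-- Strict paths from `x` to `f x` depend lower semicontinuously on `x`. -/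
theorem lsc_strict {X : Type} [MetricSpace X] [CompactSpace X] (hL : LPC X) {f : X → X}
    (cf : Continuous f) {x : X} (hx : f x ≠ x) {γ : C(unitInterval, X)} (hγ : SPath f x γ)
    {ε : ℝ} (hε : 0 < ε) :
    ∀ᶠ x' in 𝓝 x, ∃ γ' : C(unitInterval, X), SPath f x' γ' ∧ dist γ' γ < ε := by
  obtain ⟨h0, h1, hs⟩ := hγ
  have hd0 : 0 < dist (f x) x := dist_pos.2 hx
  obtain ⟨δ, hδ⟩ : ∃ δ, δ = min (ε / 2) (dist (f x) x / 4) := ⟨_, rfl⟩
  have hδ0 : 0 < δ := by rw [hδ]; positivity
  have hδ1 : δ ≤ ε / 2 := by rw [hδ]; exact min_le_left _ _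
  have hδ3 : δ ≤ dist (f x) x / 4 := by rw [hδ]; exact min_le_right _ _
  have cγ : Continuous γ := γ.continuous
  have e0 : ∀ᶠ t in 𝓝 (0 : unitInterval), dist (γ t) x < δ ∧
      JoinedIn (Metric.ball x δ) x (γ t) := by
    have c0 : Tendsto γ (𝓝 0) (𝓝 x) := by rw [← h0]; exact cγ.continuousAt
    exact (c0.eventually (Metric.ball_mem_nhds x hδ0)).and
      (c0.eventually (hL x _ (Metric.ball_mem_nhds x hδ0)))
  have e1 : ∀ᶠ t in 𝓝 (1 : unitInterval), dist (γ t) (f x) < δ ∧
      JoinedIn (Metric.ball (f x) δ) (f x) (γ t) := by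
    have c1 : Tendsto γ (𝓝 1) (𝓝 (f x)) := by rw [← h1]; exact cγ.continuousAt
    exact (c1.eventually (Metric.ball_mem_nhds _ hδ0)).and
      (c1.eventually (hL _ _ (Metric.ball_mem_nhds _ hδ0)))
  obtain ⟨a, ha, ha'⟩ := Metric.eventually_nhds_iff.1 e0
  obtain ⟨b, hb, hb'⟩ := Metric.eventually_nhds_iff.1 e1
  obtain ⟨s, hsdef⟩ : ∃ s, s = min (a / 2) (min (b / 2) (1 / 4)) := ⟨_, rfl⟩
  have hs0 : 0 < s := by rw [hsdef]; positivity
  have hsa : s ≤ a / 2 := by rw [hsdef]; exact min_le_left _ _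
  have hsb : s ≤ b / 2 := by rw [hsdef]; exact (min_le_right _ _).trans (min_le_left _ _)
  have hs4 : s ≤ 1 / 4 := by rw [hsdef]; exact (min_le_right _ _).trans (min_le_right _ _)
  have near0 : ∀ t : unitInterval, (t : ℝ) ≤ s → dist (γ t) x < δ ∧
      JoinedIn (Metric.ball x δ) x (γ t) := by
    intro t ht
    apply ha'
    rw [Subtype.dist_eq, Real.dist_eq, Icc.coe_zero, sub_zero, abs_of_nonneg t.2.1]
    linarith
  have near1 : ∀ t : unitInterval, 1 - s ≤ (t : ℝ) → dist (γ t) (f x) < δ ∧
      JoinedIn (Metric.ball (f x) δ) (f x) (γ t) := by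
    intro t ht
    apply hb'
    have := t.2.2
    rw [Subtype.dist_eq, Real.dist_eq, Icc.coe_one, abs_of_nonpos (by linarith)]
    linarith
  have hcs : ((clI s : unitInterval) : ℝ) = s := cl_of_mem hs0.le (by linarith)
  have hcs1 : ((clI (1 - s) : unitInterval) : ℝ) = 1 - s := cl_of_mem (by linarith) (by linarith)
  have hK : IsCompact {t : unitInterval | s ≤ (t : ℝ)} :=
    (isClosed_le continuous_const continuous_subtype_val).isCompact
  have n3 : ∀ᶠ x' in 𝓝 x, x' ∉ γ '' {t : unitInterval | s ≤ (t : ℝ)} := by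
    apply (hK.image cγ).isClosed.isOpen_compl.mem_nhds
    rintro ⟨t, ht, hxt⟩
    refine hs t ?_ hxt
    rintro rfl
    have : s ≤ ((0 : unitInterval) : ℝ) := ht
    rw [Icc.coe_zero] at this
    linarith
  have n1 := hL x _ (Metric.ball_mem_nhds x hδ0)
  have n2 := cf.continuousAt.eventually (hL (f x) _ (Metric.ball_mem_nhds (f x) hδ0))
  filter_upwards [n1, n2, n3] with x' n1 n2 n3
  have hdx : dist x' x < δ := n1.target_mem
  obtain ⟨β, β0, β1, βV, βs⟩ := exists_strict (n1.symm.trans (near0 (clI s) hcs.le).2)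
    (fun h => n3 ⟨clI s, hcs.ge, h⟩)
  obtain ⟨η, hη⟩ := (near1 (clI (1 - s)) hcs1.ge).2.symm.trans n2
  obtain ⟨γ', g0, g1, hg⟩ := splice γ β η.toContinuousMap s hs0 (by linarith) β1 η.source
  refine ⟨γ', ⟨g0.trans β0, g1.trans η.target, ?_⟩, ?_⟩
  · intro t ht
    rcases hg t with ⟨-, u, hu, hu0⟩ | ⟨hts, hu⟩ | ⟨-, u, hu⟩
    · rw [hu]; exact βs u (hu0 ht)
    · rw [hu]; exact fun h => n3 ⟨t, hts, h⟩
    · rw [hu]
      intro h
      change η u = x' at h
      have h2 : dist (η u) (f x) < δ := hη u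
      rw [h] at h2
      have := dist_triangle_left (f x) x x'
      linarith
  · rw [ContinuousMap.dist_lt_iff hε]
    intro t
    rcases hg t with ⟨hts, u, hu, -⟩ | ⟨-, hu⟩ | ⟨hts, u, hu⟩
    · rw [hu]
      have h2 : dist (β u) x < δ := βV u
      have h3 := (near0 t hts).1
      have := dist_triangle_right (β u) (γ t) x
      linarith
    · rw [hu, dist_self]; exact hε
    · rw [hu]
      have h2 : dist (η u) (f x) < δ := hη u
      have h3 := (near1 t hts).1
      have := dist_triangle_right (η u) (γ t) (f x)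
      change dist (η u) (γ t) < _
      linarith

theorem lsc_fixed {X : Type} [MetricSpace X] [CompactSpace X] (hL : LPC X) {f : X → X}
    (cf : Continuous f) {x : X} (hx : f x = x) {ε : ℝ} (hε : 0 < ε) :
    ∀ᶠ x' in 𝓝 x, f x' ≠ x' → ∃ γ' : C(unitInterval, X), SPath f x' γ' ∧
      dist γ' (ContinuousMap.const _ x) < ε := by
  have n1 := hL x _ (Metric.ball_mem_nhds x hε)
  have n2 : ∀ᶠ x' in 𝓝 x, JoinedIn (Metric.ball x ε) x (f x') := by
    have : Tendsto f (𝓝 x) (𝓝 x) := by
      have := cf.tendsto x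
      rwa [hx] at this
    exact this.eventually n1
  filter_upwards [n1, n2] with x' n1 n2 hne
  obtain ⟨β, β0, β1, βV, βs⟩ := exists_strict (n1.symm.trans n2) hne
  refine ⟨β, ⟨β0, β1, βs⟩, ?_⟩
  rw [ContinuousMap.dist_lt_iff hε]
  exact fun t => βV t

lemma exists_modulus {S : Type} (r : S → ℝ) (hr : ∀ x, 0 < r x) (Q : S → ℝ → Prop)
    (mono : ∀ x a b, a ≤ b → Q x a → Q x b) (M : ℝ) (hM : ∀ x, Q x M)
    (h : ∀ ε > 0, ∃ δ > 0, ∀ x, r x < δ → Q x ε) :
    ∃ φ : ℝ → ℝ, Continuous φ ∧ φ 0 = 0 ∧ ∀ x, Q x (φ (r x)) := by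
  classical
  choose δ hδ0 hδ using fun n : ℕ => h ((1 / 2 : ℝ) ^ n) (by positivity)
  set g : ℕ → ℝ → ℝ := fun n t => min 1 (|t| / δ n) with hg
  have g0 : ∀ n t, 0 ≤ g n t := fun n t =>
    le_min zero_le_one (div_nonneg (abs_nonneg _) (hδ0 n).le)
  have g1 : ∀ n t, g n t ≤ 1 := fun n t => min_le_left _ _
  have gbig : ∀ n t, δ n ≤ t → g n t = 1 := by
    intro n t ht
    have h1 : 0 < t := (hδ0 n).trans_le ht
    simp only [hg]
    rw [abs_of_pos h1]
    exact min_eq_left ((one_le_div₀ (hδ0 n)).2 ht)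
  have gpos : ∀ n t, 0 < t → 0 < g n t := by
    intro n t ht
    exact lt_min one_pos (div_pos (abs_pos.2 ht.ne') (hδ0 n))
  have cg : ∀ n, Continuous (g n) := fun n => by
    simp only [hg]
    exact continuous_const.min (continuous_abs.div_const _)
  have hsum : Summable fun k : ℕ => (1 / 2 : ℝ) ^ k := summable_geometric_two
  have hsg : ∀ t, Summable fun k : ℕ => (1 / 2 : ℝ) ^ k * g (k + 1) t := fun t =>
    Summable.of_nonneg_of_le (fun k => mul_nonneg (by positivity) (g0 _ t))
      (fun k => mul_le_of_le_one_right (by positivity) (g1 _ t)) hsum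
  refine ⟨fun t => |M| * g 0 t + ∑' k : ℕ, (1 / 2 : ℝ) ^ k * g (k + 1) t, ?_, ?_, ?_⟩
  · apply (continuous_const.mul (cg 0)).add
    have hc : ∀ k : ℕ, Continuous fun t => (1 / 2 : ℝ) ^ k * g (k + 1) t :=
      fun k => continuous_const.mul (cg _)
    refine continuous_tsum (u := fun k => (1 / 2 : ℝ) ^ k) hc hsum fun k t => ?_
    rw [Real.norm_of_nonneg (mul_nonneg (by positivity) (g0 _ t))]
    exact mul_le_of_le_one_right (by positivity) (g1 _ t)
  · have : ∀ n, g n 0 = 0 := fun n => by simp [hg]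
    simp [this]
  · intro x
    change Q x (|M| * g 0 (r x) + ∑' k : ℕ, (1 / 2 : ℝ) ^ k * g (k + 1) (r x))
    have hle : ∀ k : ℕ, (1 / 2 : ℝ) ^ k * g (k + 1) (r x) ≤
        |M| * g 0 (r x) + ∑' k : ℕ, (1 / 2 : ℝ) ^ k * g (k + 1) (r x) := by
      intro k
      have h1 := (hsg (r x)).le_tsum k (fun m _ => mul_nonneg (by positivity) (g0 _ _))
      have h2 : 0 ≤ |M| * g 0 (r x) := mul_nonneg (abs_nonneg _) (g0 _ _)
      linarith
    by_cases hex : ∃ n, δ n ≤ r x
    · have hmin := Nat.find_spec hex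
      rcases hk : Nat.find hex with _ | k
      · rw [hk] at hmin
        refine mono x M _ ?_ (hM x)
        have h1 : 0 ≤ ∑' k : ℕ, (1 / 2 : ℝ) ^ k * g (k + 1) (r x) :=
          tsum_nonneg fun k => mul_nonneg (by positivity) (g0 _ _)
        rw [gbig 0 _ hmin, mul_one]
        have := le_abs_self M
        linarith
      · rw [hk] at hmin
        have hlt : r x < δ k := not_le.1 (Nat.find_min hex (by omega))
        refine mono x ((1 / 2 : ℝ) ^ k) _ ?_ (hδ k x hlt)
        have := hle k
        rwa [gbig (k + 1) _ hmin, mul_one] at this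
    · push Not at hex
      have hpos : 0 < |M| * g 0 (r x) + ∑' k : ℕ, (1 / 2 : ℝ) ^ k * g (k + 1) (r x) := by
        have h1 := hle 0
        have h2 := gpos 1 _ (hr x)
        rw [pow_zero, one_mul] at h1
        exact lt_of_lt_of_le h2 h1
      obtain ⟨n, hn⟩ := exists_pow_lt_of_lt_one hpos (by norm_num : (1 / 2 : ℝ) < 1)
      exact mono x _ _ hn.le (hδ n x (hex n))

theorem strict_homotopy_rel {X : Type} [MetricSpace X] [CompactSpace X] (hL : LPC X)
    (f : X → X) (cf : Continuous f) (F : Set X) (hF : IsClosed F) (C : Set X) (hC : IsClosed C)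
    (G : C × unitInterval → X) (cG : Continuous G) (G0 : ∀ x : C, G (x, 0) = x)
    (G1 : ∀ x : C, G (x, 1) = f x) (Gs : ∀ x : C, f x = x → ∀ t, G (x, t) = x)
    (Gm : ∀ x : C, f x ≠ x → ∀ t, t ≠ 0 → G (x, t) ≠ x)
    (hd : IsTotallyDisconnected (F \ (C ∪ {x | f x = x}))) (hj : ∀ x ∈ F, Joined x (f x)) :
    ∃ H : F × unitInterval → X, Continuous H ∧ (∀ x : F, H (x, 0) = x) ∧
      (∀ x : F, H (x, 1) = f x) ∧ (∀ x : F, f x = x → ∀ t, H (x, t) = x) ∧
      ∀ x : F, f x ≠ x → ∀ t, t ≠ 0 → H (x, t) ≠ x := by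
  classical
  set B : Set X := {x | f x = x} with hB
  have hBc : IsClosed B := isClosed_eq cf continuous_id
  set E : Set X := C ∪ B with hE
  have hEc : IsClosed E := hC.union hBc
  -- the paths over `E`
  set P : X → C(unitInterval, X) := fun x => if f x = x then ContinuousMap.const _ x else
    if h : x ∈ C then (ContinuousMap.mk G cG).curry ⟨x, h⟩ else ContinuousMap.const _ x with hP
  have PB : ∀ x ∈ B, P x = ContinuousMap.const _ x := fun x hx => if_pos hx
  have PC : ∀ (x : X) (h : x ∈ C), P x = (ContinuousMap.mk G cG).curry ⟨x, h⟩ := by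
    intro x h
    by_cases hx : f x = x
    · rw [PB x hx]
      ext t
      exact (Gs ⟨x, h⟩ hx t).symm
    · simp only [hP, if_neg hx, dif_pos h]
  have cP : ContinuousOn P E := by
    apply ContinuousOn.union_of_isClosed _ _ hC hBc
    · rw [continuousOn_iff_continuous_domRestrict]
      have : C.domRestrict P = fun x => (ContinuousMap.mk G cG).curry x := by
        funext x
        exact PC x.1 x.2
      rw [this]
      exact ContinuousMap.continuous _
    · refine (ContinuousMap.continuous_const' (X := unitInterval)).continuousOn.congr ?_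
      exact fun x hx => PB x hx
  have PS : ∀ x ∈ E, f x ≠ x → SPath f x (P x) := by
    intro x hx hne
    have h : x ∈ C := hx.resolve_right hne
    rw [PC x h]
    exact ⟨G0 ⟨x, h⟩, G1 ⟨x, h⟩, Gm ⟨x, h⟩ hne⟩
  set D : Set X := F \ E with hD
  have hfD : ∀ x ∈ D, f x ≠ x := fun x hx h => hx.2 (Or.inr h)
  haveI : LocallyCompactSpace D :=
    (hF.isLocallyClosed.inter hEc.isOpen_compl.isLocallyClosed).locallyCompactSpace
  haveI : TotallyDisconnectedSpace D := totallyDisconnectedSpace_subtype_iff.2 hd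
  have hbasis := loc_compact_Haus_tot_disc_of_zero_dim (H := D)
  haveI : SecondCountableTopology X := inferInstance
  -- nearness to the paths over `E`
  obtain ⟨φ, cφ, φ0, hφ⟩ : ∃ φ : ℝ → ℝ, Continuous φ ∧ φ 0 = 0 ∧ ∀ x : D, ∃ γ, SPath f x γ ∧
      (E.Nonempty → ∃ e ∈ E, dist (x : X) e + dist γ (P e) < φ (Metric.infDist (x : X) E)) := by
    rcases E.eq_empty_or_nonempty with hE0 | hne
    · refine ⟨fun _ => 0, continuous_const, rfl, fun x => ?_⟩
      obtain ⟨γ, g0, g1, -, gs⟩ := exists_strict (joinedIn_univ.2 (hj x x.2.1)) (hfD x x.2)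
      exact ⟨γ, ⟨g0, g1, gs⟩, fun h => absurd hE0 h.ne_empty⟩
    · have hpos : ∀ x : D, 0 < Metric.infDist (x : X) E := fun x =>
        (hEc.notMem_iff_infDist_pos hne).1 x.2.2
      obtain ⟨e0, he0⟩ := hne
      have hM : ∀ x : D, ∃ γ, SPath f x γ ∧ ∃ e ∈ E, dist (x : X) e + dist γ (P e) <
          Metric.diam (univ : Set X) + Metric.diam (univ : Set C(unitInterval, X)) + 1 := by
        intro x
        obtain ⟨γ, g0, g1, -, gs⟩ := exists_strict (joinedIn_univ.2 (hj x x.2.1)) (hfD x x.2)
        refine ⟨γ, ⟨g0, g1, gs⟩, e0, he0, ?_⟩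
        have h1 : dist (x : X) e0 ≤ Metric.diam (univ : Set X) :=
          Metric.dist_le_diam_of_mem isCompact_univ.isBounded (mem_univ _) (mem_univ _)
        have hb : Bornology.IsBounded (univ : Set C(unitInterval, X)) := by
          rw [Metric.isBounded_iff]
          refine ⟨Metric.diam (univ : Set X), fun a _ b _ => ?_⟩
          rw [ContinuousMap.dist_le Metric.diam_nonneg]
          exact fun t => Metric.dist_le_diam_of_mem isCompact_univ.isBounded (mem_univ _)
            (mem_univ _)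
        have h2 : dist γ (P e0) ≤ Metric.diam (univ : Set C(unitInterval, X)) :=
          Metric.dist_le_diam_of_mem hb (mem_univ _) (mem_univ _)
        linarith
      have hε' : ∀ ε > 0, ∃ δ > 0, ∀ x : D, Metric.infDist (x : X) E < δ →
          ∃ γ, SPath f x γ ∧ ∃ e ∈ E, dist (x : X) e + dist γ (P e) < ε := by
        intro ε hε
        have hloc : ∀ e ∈ E, ∀ᶠ x in 𝓝 e, x ∉ E → ∃ γ, SPath f x γ ∧
            dist (x : X) e + dist γ (P e) < ε := by
          intro e he
          have h1 : ∀ᶠ x in 𝓝 e, dist x e < ε / 2 := Metric.ball_mem_nhds e (by linarith)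
          by_cases hfe : f e = e
          · filter_upwards [h1, lsc_fixed hL cf hfe (by linarith : (0 : ℝ) < ε / 2)]
              with x h1 h2 hxE
            obtain ⟨γ, hγ, hd⟩ := h2 (fun h => hxE (Or.inr h))
            refine ⟨γ, hγ, ?_⟩
            rw [PB e hfe]
            linarith
          · filter_upwards [h1, lsc_strict hL cf hfe (PS e he hfe) (by linarith : (0 : ℝ) < ε / 2)]
              with x h1 h2 hxE
            obtain ⟨γ, hγ, hd⟩ := h2
            exact ⟨γ, hγ, by linarith⟩
        set W : Set X := interior {x | x ∉ E → ∃ γ, SPath f x γ ∧ ∃ e ∈ E,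
          dist (x : X) e + dist γ (P e) < ε} with hW
        have hEW : E ⊆ W := by
          intro e he
          rw [hW, mem_interior_iff_mem_nhds]
          filter_upwards [hloc e he] with x hx hxE
          obtain ⟨γ, h, h'⟩ := hx hxE
          exact ⟨γ, h, e, he, h'⟩
        obtain ⟨δ, hδ, hsub⟩ := hEc.isCompact.exists_thickening_subset_open isOpen_interior hEW
        refine ⟨δ, hδ, fun x hx => ?_⟩
        have hx' : (x : X) ∈ Metric.thickening δ E :=
          (Metric.mem_thickening_iff_infDist_lt ⟨e0, he0⟩).2 hx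
        exact interior_subset (hsub hx') x.2.2
      obtain ⟨φ, h1, h2, h3⟩ := exists_modulus (fun x : D => Metric.infDist (x : X) E) hpos
        (fun x ε => ∃ γ, SPath f x γ ∧ ∃ e ∈ E, dist (x : X) e + dist γ (P e) < ε)
        (fun x a b hab ⟨γ, h, e, he, h'⟩ => ⟨γ, h, e, he, h'.trans_le hab⟩) _ hM hε'
      refine ⟨φ, h1, h2, fun x => ?_⟩
      obtain ⟨γ, h, e, he, h'⟩ := h3 x
      exact ⟨γ, h, fun _ => ⟨e, he, h'⟩⟩
  set Ω : Set (D × C(unitInterval, X)) := {z | E.Nonempty → ∃ e ∈ E,
    dist (z.1 : X) e + dist z.2 (P e) < φ (Metric.infDist (z.1 : X) E)} with hΩ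
  have hΩo : IsOpen Ω := by
    rcases E.eq_empty_or_nonempty with hE0 | hne
    · have : Ω = univ := by
        ext z
        simp only [hΩ, mem_setOf_eq, mem_univ, iff_true]
        exact fun h => absurd hE0 h.ne_empty
      rw [this]; exact isOpen_univ
    · have : Ω = ⋃ e ∈ E, {z : D × C(unitInterval, X) |
          dist (z.1 : X) e + dist z.2 (P e) < φ (Metric.infDist (z.1 : X) E)} := by
        ext z
        simp only [hΩ, mem_setOf_eq, mem_iUnion, exists_prop]
        exact ⟨fun h => h hne, fun h _ => h⟩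
      rw [this]
      refine isOpen_biUnion fun e _ => isOpen_lt ?_ ?_
      · have c1 : Continuous fun z : D × C(unitInterval, X) => (z.1 : X) :=
          continuous_subtype_val.comp continuous_fst
        exact (c1.dist continuous_const).add (continuous_snd.dist continuous_const)
      · exact cφ.comp ((Metric.continuous_infDist_pt E).comp
          (continuous_subtype_val.comp continuous_fst))
  set O : ℕ → Set (D × C(unitInterval, X)) := fun n => {z | dist (z.2 0) z.1 < 1 / ((n : ℝ) + 1) ∧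
    dist (z.2 1) (f z.1) < 1 / ((n : ℝ) + 1) ∧ z ∈ Ω ∧
    ∀ t ∈ {t : unitInterval | 1 / ((n : ℝ) + 1) ≤ t}, z.2 t ≠ z.1} with hO
  have cev : Continuous fun z : (D × C(unitInterval, X)) × unitInterval => z.1.2 z.2 := by
    fun_prop
  have cev' : ∀ t : unitInterval, Continuous fun z : D × C(unitInterval, X) => z.2 t :=
    fun t => by fun_prop
  have hOo : ∀ n, IsOpen (O n) := by
    intro n
    apply IsOpen.inter
    · exact isOpen_lt ((cev' 0).dist (continuous_subtype_val.comp continuous_fst))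
        continuous_const
    apply IsOpen.inter
    · exact isOpen_lt ((cev' 1).dist (cf.comp (continuous_subtype_val.comp continuous_fst)))
        continuous_const
    apply IsOpen.inter hΩo
    apply isOpen_forall_compact
      (isClosed_le continuous_const continuous_subtype_val).isCompact
      (W := {z : (D × C(unitInterval, X)) × unitInterval | z.1.2 z.2 ≠ z.1.1})
    exact isOpen_ne_fun cev (continuous_subtype_val.comp (continuous_fst.comp continuous_fst))
  have hOiff : ∀ (x : D) (γ : C(unitInterval, X)), (∀ n, (x, γ) ∈ O n) ↔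
      (SPath f x γ ∧ (x, γ) ∈ Ω) := by
    intro x γ
    constructor
    · intro h
      refine ⟨⟨?_, ?_, ?_⟩, (h 0).2.2.1⟩
      · rw [← dist_le_zero]
        apply le_of_forall_pos_lt_add
        intro ε hε
        obtain ⟨n, hn⟩ := exists_nat_one_div_lt hε
        rw [zero_add]
        exact (h n).1.trans hn
      · rw [← dist_le_zero]
        apply le_of_forall_pos_lt_add
        intro ε hε
        obtain ⟨n, hn⟩ := exists_nat_one_div_lt hε
        rw [zero_add]
        exact (h n).2.1.trans hn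
      · intro t ht
        have h3 : 0 < (t : ℝ) := lt_of_le_of_ne t.2.1 (fun h => ht (Subtype.ext h.symm))
        obtain ⟨n, hn⟩ := exists_nat_one_div_lt h3
        exact (h n).2.2.2 t hn.le
    · rintro ⟨⟨h1, h2, h4⟩, h3⟩ n
      have hn : (0 : ℝ) < 1 / ((n : ℝ) + 1) := by positivity
      refine ⟨by change dist (γ 0) x < _; rw [h1, dist_self]; exact hn,
        by change dist (γ 1) (f x) < _; rw [h2, dist_self]; exact hn, h3, ?_⟩
      intro t ht
      apply h4
      rintro rfl
      have : 1 / ((n : ℝ) + 1) ≤ ((0 : unitInterval) : ℝ) := ht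
      rw [Icc.coe_zero] at this
      linarith
  obtain ⟨sel, csel, hsel⟩ := select hbasis O hOo
    (fun x => by
      obtain ⟨γ, h1, h2⟩ := hφ x
      exact ⟨γ, (hOiff x γ).2 ⟨h1, h2⟩⟩)
    (fun x γ hγ ε hε => by
      obtain ⟨h1, h2⟩ := (hOiff x γ).1 hγ
      obtain ⟨u, hu, v, hv, huv⟩ := mem_nhds_prod_iff.1 (hΩo.mem_nhds h2)
      obtain ⟨δ, hδ, hδv⟩ := Metric.mem_nhds_iff.1 hv
      have := continuous_subtype_val.continuousAt.eventually
        (lsc_strict hL cf (hfD x x.2) h1 (lt_min hε hδ))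
      filter_upwards [this, hu] with x' hx' hxu
      obtain ⟨γ', hγ', hd'⟩ := hx'
      exact ⟨γ', (hOiff x' γ').2 ⟨hγ', huv ⟨hxu, hδv (hd'.trans_le (min_le_right _ _))⟩⟩,
        hd'.trans_le (min_le_left _ _)⟩)
  have hS := fun x => (hOiff x (sel x)).1 (hsel x)
  -- all paths
  set L : F → C(unitInterval, X) := fun x => if h : (x : X) ∈ E then P x else sel ⟨x, x.2, h⟩
    with hLdef
  have Lpos : ∀ (x : F) (h : (x : X) ∈ E), L x = P x := fun x h => dif_pos h
  have Lneg : ∀ (x : F) (h : (x : X) ∉ E), L x = sel ⟨x, x.2, h⟩ := fun x h => dif_neg h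
  have cL : Continuous L := by
    rw [continuous_iff_continuousAt]
    intro x
    by_cases hx : (x : X) ∈ E
    · rw [Metric.continuousAt_iff']
      intro ε hε
      rw [Lpos x hx]
      have hcP : ∀ᶠ y in 𝓝[E] (x : X), dist (P y) (P x) < ε / 2 := by
        have := (cP x hx)
        exact this.eventually (Metric.ball_mem_nhds _ (by linarith))
      obtain ⟨δ, hδ, hδP⟩ := Metric.mem_nhdsWithin_iff.1 hcP
      have hlim : Tendsto (fun y : F => dist (y : X) x + φ (Metric.infDist (y : X) E)) (𝓝 x)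
          (𝓝 0) := by
        have c1 : Continuous fun y : F => dist (y : X) x + φ (Metric.infDist (y : X) E) :=
          (continuous_subtype_val.dist continuous_const).add
            (cφ.comp ((Metric.continuous_infDist_pt E).comp continuous_subtype_val))
        have := c1.tendsto x
        simpa [Metric.infDist_zero_of_mem hx, φ0] using this
      have h1 : ∀ᶠ y : F in 𝓝 x, dist (y : X) x + φ (Metric.infDist (y : X) E) <
          min δ (ε / 2) := hlim.eventually (gt_mem_nhds (lt_min hδ (by linarith)))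
      have h2 : ∀ᶠ y : F in 𝓝 x, dist (y : X) x < δ :=
        continuous_subtype_val.continuousAt.eventually (Metric.ball_mem_nhds _ hδ)
      filter_upwards [h1, h2] with y h1 h2
      by_cases hy : (y : X) ∈ E
      · rw [Lpos y hy]
        have : dist (P y) (P x) < ε / 2 := hδP ⟨h2, hy⟩
        linarith
      · rw [Lneg y hy]
        obtain ⟨e, he, hde⟩ := (hS ⟨y, y.2, hy⟩).2 ⟨x, hx⟩
        change dist (y : X) e + dist (sel ⟨y, y.2, hy⟩) (P e) < φ (Metric.infDist (y : X) E) at hde
        have h3 : dist e (x : X) < δ := by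
          have := dist_triangle_left e (x : X) (y : X)
          have h4 := h1.trans_le (min_le_left _ _)
          have h5 : 0 ≤ dist (sel ⟨y, y.2, hy⟩) (P e) := dist_nonneg
          linarith
        have h4 : dist (P e) (P x) < ε / 2 := hδP ⟨h3, he⟩
        have h5 := dist_triangle (sel ⟨y, y.2, hy⟩) (P e) (P x)
        have h6 := h1.trans_le (min_le_right _ _)
        have h7 : 0 ≤ dist (y : X) e := dist_nonneg
        have h8 : 0 ≤ dist (y : X) x := dist_nonneg
        linarith
    · have hO' : IsOpen {y : F | (y : X) ∉ E} := hEc.isOpen_compl.preimage continuous_subtype_val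
      have : ContinuousOn L {y : F | (y : X) ∉ E} := by
        rw [continuousOn_iff_continuous_domRestrict]
        have : ({y : F | (y : X) ∉ E}).domRestrict L = fun y => sel ⟨y.1.1, y.1.2, y.2⟩ := by
          funext y
          exact Lneg y.1 y.2
        rw [this]
        exact csel.comp ((continuous_subtype_val.comp continuous_subtype_val).subtype_mk _)
      exact this.continuousAt (hO'.mem_nhds hx)
  have LS : ∀ x : F, f x ≠ x → SPath f x (L x) := by
    intro x hx
    by_cases hxE : (x : X) ∈ E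
    · rw [Lpos x hxE]; exact PS x hxE hx
    · rw [Lneg x hxE]; exact (hS _).1
  have LB : ∀ x : F, f x = x → L x = ContinuousMap.const _ (x : X) := by
    intro x hx
    rw [Lpos x (Or.inr hx)]; exact PB x hx
  refine ⟨fun z => L z.1 z.2, ?_, ?_, ?_, ?_, fun x hx => (LS x hx).2.2⟩
  · have c1 : Continuous fun z : C(unitInterval, X) × unitInterval => z.1 z.2 := by fun_prop
    exact c1.comp ((cL.comp continuous_fst).prodMk continuous_snd)
  · intro x
    by_cases hx : f x = x
    · change L x 0 = x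
      rw [LB x hx]; rfl
    · exact (LS x hx).1
  · intro x
    by_cases hx : f x = x
    · change L x 1 = f x
      rw [LB x hx, hx]; rfl
    · exact (LS x hx).2.1
  · intro x hx t
    change L x t = x
    rw [LB x hx]; rfl

/-- The relative enlarging theorem. -/
theorem enlarge_rel {X : Type} [TopologicalSpace X] (hX : IsCompactANR X) (A : Set X)
    (hA : IsClosed A) (K : X → X) (cK : Continuous K) (C : Set X) (hC : IsClosed C)
    (H : C × unitInterval → X) (cH : Continuous H) (H0 : ∀ x : C, H (x, 0) = x)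
    (H1 : ∀ x : C, H (x, 1) = K x) (Hs : ∀ x : C, K x = x → ∀ t, H (x, t) = x)
    (Hm : ∀ x : C, K x ≠ x → ∀ t, t ≠ 0 → H (x, t) ≠ x)
    (hj : ∀ x ∈ frontier A, Joined x (K x))
    (hd : IsTotallyDisconnected (frontier A \ (C ∪ {x | K x = x}))) :
    IsFixSet X (A ∪ {x | K x = x}) := by
  classical
  obtain ⟨f, cf, hf⟩ : IsFixSet X (frontier A ∪ {x | K x = x}) := by
    haveI := hX.metrizable
    haveI := hX.1
    letI := metrizableSpaceMetric X
    obtain ⟨G, cG, G0, G1, Gs, Gm⟩ := strict_homotopy_rel hX.lpc K cK (frontier A)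
      isClosed_frontier C hC H cH H0 H1 Hs Hm hd hj
    exact enlarge hX (frontier A) isClosed_frontier K cK G cG G0 G1 Gs Gm
  have hfix : ∀ x, f x = x ↔ x ∈ frontier A ∨ K x = x := fun x => by
    have : x ∈ {x | f x = x} ↔ x ∈ frontier A ∪ {x | K x = x} := by rw [hf]
    exact this
  refine ⟨A.piecewise id f, continuous_id.piecewise (fun x hx => ((hfix x).2 (Or.inl hx)).symm)
    cf, ?_⟩
  ext x
  by_cases hx : x ∈ A
  · simp [hx]
  · have hfr : x ∉ frontier A := fun h => hx (hA.frontier_subset h)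
    simp only [mem_setOf_eq, mem_union, hx, false_or, piecewise_eq_of_notMem _ _ _ hx, hfix]
    simp [hfr]

end Pool.Agent.helper30.CIP
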