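import Mathlib

/-!
# A selection theorem for zero-dimensional domains
-/

set_option autoImplicit false

open Set Topology TopologicalSpace Filter

namespace Pool.Agent.helper30.CIP

theorem select_step {A Y : Type} [TopologicalSpace A] [SecondCountableTopology A]
    (hA : IsTopologicalBasis {s : Set A | IsClopen s}) [MetricSpace Y] (Γ W : Set (A × Y))
    (hW : IsOpen W) (ne : ∀ x, ∃ y, (x, y) ∈ Γ ∧ (x, y) ∈ W)
    (lsc : ∀ x y, (x, y) ∈ Γ → ∀ ε > 0, ∀ᶠ x' in 𝓝 x, ∃ y', (x', y') ∈ Γ ∧ dist y' y < ε)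
    (ε : ℝ) (hε : 0 < ε) :
    ∃ (σ : A → Y) (ρ : A → ℝ), Continuous σ ∧ Continuous ρ ∧ (∀ x, 0 < ρ x ∧ ρ x ≤ ε) ∧
      ∀ x, (∃ y, (x, y) ∈ Γ ∧ dist y (σ x) < ρ x) ∧ ∀ y, dist y (σ x) ≤ ρ x → (x, y) ∈ W := by
  classical
  rcases isEmpty_or_nonempty A with hA | ⟨⟨a0⟩⟩
  · refine ⟨fun x => hA.elim x, fun x => hA.elim x, ?_, ?_, fun x => hA.elim x,
      fun x => hA.elim x⟩
    · exact continuous_iff_continuousAt.2 fun x => hA.elim x
    · exact continuous_iff_continuousAt.2 fun x => hA.elim x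
  have loc : ∀ x, ∃ (C : Set A) (y : Y) (r : ℝ), IsClopen C ∧ x ∈ C ∧ 0 < r ∧ r ≤ ε ∧
      ∀ x' ∈ C, (∃ y', (x', y') ∈ Γ ∧ dist y' y < r) ∧ ∀ y', dist y' y ≤ r → (x', y') ∈ W := by
    intro x
    obtain ⟨y, hy, hyW⟩ := ne x
    obtain ⟨u, hu, v, hv, huv⟩ := mem_nhds_prod_iff.1 (hW.mem_nhds hyW)
    obtain ⟨δ, hδ, hδv⟩ := Metric.nhds_basis_closedBall.mem_iff.1 hv
    have hr : 0 < min δ ε := lt_min hδ hε
    obtain ⟨C, hC, hxC, hCs⟩ := hA.mem_nhds_iff.1 (inter_mem hu (lsc x y hy (min δ ε) hr))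
    refine ⟨C, y, min δ ε, hC, hxC, hr, min_le_right _ _, fun x' hx' => ⟨(hCs hx').2, ?_⟩⟩
    exact fun y' hy' => huv ⟨(hCs hx').1,
      hδv (Metric.mem_closedBall.2 (hy'.trans (min_le_left _ _)))⟩
  choose C y r hC hxC hr hrε hP using loc
  obtain ⟨S, hS, hcov⟩ := TopologicalSpace.countable_cover_nhds (fun x => (hC x).isOpen.mem_nhds (hxC x))
  have hSne : S.Nonempty := by
    have : a0 ∈ ⋃ x ∈ S, C x := hcov ▸ mem_univ a0
    simp only [mem_iUnion] at this
    obtain ⟨x, hx, -⟩ := this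
    exact ⟨x, hx⟩
  obtain ⟨g, rfl⟩ := hS.exists_eq_range hSne
  have hex : ∀ x, ∃ n, x ∈ C (g n) := by
    intro x
    have : x ∈ ⋃ x ∈ range g, C x := hcov ▸ mem_univ x
    simpa using this
  set idx : A → ℕ := fun x => Nat.find (hex x) with hidx
  have cidx : Continuous idx := by
    rw [continuous_iff_continuousAt]
    intro x
    have hloc : ∀ᶠ x' in 𝓝 x, idx x' = idx x := by
      have h1 : ∀ᶠ x' in 𝓝 x, x' ∈ C (g (idx x)) :=
        (hC _).isOpen.mem_nhds (Nat.find_spec (hex x))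
      have h2 : ∀ᶠ x' in 𝓝 x, ∀ m ∈ Finset.range (idx x), x' ∉ C (g m) := by
        rw [Finset.eventually_all]
        intro m hm
        exact (hC _).isClosed.isOpen_compl.mem_nhds (Nat.find_min (hex x) (Finset.mem_range.1 hm))
      filter_upwards [h1, h2] with x' h1 h2
      refine (Nat.find_eq_iff (hex x')).2 ⟨h1, fun m hm => h2 m (Finset.mem_range.2 hm)⟩
    exact (continuousAt_const (y := idx x)).congr (hloc.mono fun _ h => h.symm)
  refine ⟨fun x => y (g (idx x)), fun x => r (g (idx x)),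
    (continuous_of_discreteTopology (f := fun n => y (g n))).comp cidx,
    (continuous_of_discreteTopology (f := fun n => r (g n))).comp cidx,
    fun x => ⟨hr _, hrε _⟩, fun x => hP _ x (Nat.find_spec (hex x))⟩

/-- Selection theorem: a lower semicontinuous family of nonempty subsets of a complete metric
space with `G_δ` graph over a second countable zero-dimensional space has a continuous
selection. -/
theorem select {A Y : Type} [TopologicalSpace A] [SecondCountableTopology A]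
    (hA : IsTopologicalBasis {s : Set A | IsClopen s}) [MetricSpace Y] [CompleteSpace Y]
    (O : ℕ → Set (A × Y))
    (hO : ∀ n, IsOpen (O n)) (ne : ∀ x, ∃ y, ∀ n, (x, y) ∈ O n)
    (lsc : ∀ x y, (∀ n, (x, y) ∈ O n) → ∀ ε > 0, ∀ᶠ x' in 𝓝 x, ∃ y', (∀ n, (x', y') ∈ O n) ∧
      dist y' y < ε) :
    ∃ s : A → Y, Continuous s ∧ ∀ x n, (x, s x) ∈ O n := by
  classical
  set Γ : Set (A × Y) := {z | ∀ n, z ∈ O n} with hΓ
  let St := {p : (A → Y) × (A → ℝ) // Continuous p.1 ∧ Continuous p.2 ∧ (∀ x, 0 < p.2 x) ∧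
    ∀ x, ∃ y, (x, y) ∈ Γ ∧ dist y (p.1 x) < p.2 x}
  have step : ∀ (n : ℕ) (s : St), ∃ s' : St, (∀ x, s'.1.2 x ≤ (1 / 2 : ℝ) ^ n) ∧
      ∀ x y, dist y (s'.1.1 x) ≤ s'.1.2 x → (x, y) ∈ O n ∧ dist y (s.1.1 x) < s.1.2 x := by
    rintro n ⟨⟨σ, ρ⟩, c1, c2, p2, h⟩
    have hW : IsOpen (O n ∩ {z : A × Y | dist z.2 (σ z.1) < ρ z.1}) := by
      apply (hO n).inter
      apply isOpen_lt
      · exact continuous_snd.dist (c1.comp continuous_fst)
      · exact c2.comp continuous_fst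
    obtain ⟨σ', ρ', d1, d2, d3, d4⟩ := select_step hA Γ _ hW
      (fun x => by
        obtain ⟨y, hy, hd⟩ := h x
        exact ⟨y, hy, hy n, hd⟩) lsc ((1 / 2 : ℝ) ^ n) (by positivity)
    refine ⟨⟨⟨σ', ρ'⟩, d1, d2, fun x => (d3 x).1, fun x => (d4 x).1⟩, fun x => (d3 x).2, ?_⟩
    intro x y hy
    exact (d4 x).2 y hy
  choose nxt hn1 hn2 using step
  obtain ⟨σ0, ρ0, d1, d2, d3, d4⟩ := select_step hA Γ univ isOpen_univ
    (fun x => by obtain ⟨y, hy⟩ := ne x; exact ⟨y, hy, mem_univ _⟩) lsc 1 one_pos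
  let s0 : St := ⟨⟨σ0, ρ0⟩, d1, d2, fun x => (d3 x).1, fun x => (d4 x).1⟩
  let S : ℕ → St := fun n => Nat.rec s0 (fun n s => nxt n s) n
  have hS : ∀ n, S (n + 1) = nxt n (S n) := fun n => rfl
  set σ : ℕ → A → Y := fun n => (S n).1.1 with hσ
  set ρ : ℕ → A → ℝ := fun n => (S n).1.2 with hρ
  have cσ : ∀ n, Continuous (σ n) := fun n => (S n).2.1
  have pρ : ∀ n x, 0 < ρ n x := fun n => (S n).2.2.2.1
  have bρ : ∀ n x, ρ (n + 1) x ≤ (1 / 2 : ℝ) ^ n := fun n => hn1 n (S n)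
  have nest : ∀ n x y, dist y (σ (n + 1) x) ≤ ρ (n + 1) x →
      (x, y) ∈ O n ∧ dist y (σ n x) < ρ n x := fun n => hn2 n (S n)
  have nest' : ∀ n k x y, dist y (σ (n + k) x) ≤ ρ (n + k) x → dist y (σ n x) ≤ ρ n x := by
    intro n k
    induction k with
    | zero => intro x y h; exact h
    | succ k ih => intro x y h; exact ih x y (nest (n + k) x y h).2.le
  have near : ∀ n m x, n ≤ m → dist (σ m x) (σ n x) ≤ ρ n x := by
    intro n m x hnm
    obtain ⟨k, rfl⟩ := Nat.exists_eq_add_of_le hnm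
    exact nest' n k x _ (by rw [dist_self]; exact (pρ _ _).le)
  have cau : ∀ x, CauchySeq fun n => σ n x := by
    intro x
    rw [Metric.cauchySeq_iff']
    intro ε hε
    obtain ⟨n, hn⟩ := exists_pow_lt_of_lt_one hε (by norm_num : (1 / 2 : ℝ) < 1)
    refine ⟨n + 1, fun m hm => ?_⟩
    exact ((near (n + 1) m x hm).trans (bρ n x)).trans_lt hn
  choose s hs using fun x => cauchySeq_tendsto_of_complete (cau x)
  have lim : ∀ n x, dist (s x) (σ n x) ≤ ρ n x := by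
    intro n x
    refine le_of_tendsto ((hs x).dist tendsto_const_nhds) ?_
    filter_upwards [eventually_ge_atTop n] with m hm
    exact near n m x hm
  refine ⟨s, ?_, fun x n => (nest n x (s x) (lim (n + 1) x)).1⟩
  have hu : TendstoUniformly (fun n => σ (n + 1)) s atTop := by
    rw [Metric.tendstoUniformly_iff]
    intro ε hε
    obtain ⟨n, hn⟩ := exists_pow_lt_of_lt_one hε (by norm_num : (1 / 2 : ℝ) < 1)
    filter_upwards [eventually_ge_atTop n] with m hm x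
    have h1 : (1 / 2 : ℝ) ^ m ≤ (1 / 2) ^ n :=
      pow_le_pow_of_le_one (by norm_num) (by norm_num) hm
    exact ((lim (m + 1) x).trans ((bρ m x).trans h1)).trans_lt hn
  exact hu.continuous (Frequently.of_forall fun n => cσ (n + 1))

end Pool.Agent.helper30.CIP
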