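import Pool.Agent.helper30.CIPEnlarge
import Pool.Agent.helper30.CIPSelect

/-!
# Adding totally disconnected sets to fixed point sets
-/

set_option autoImplicit false

open Set Topology TopologicalSpace Filter

namespace Pool.Agent.helper30.CIP

/-- Local path connectedness, in the form used here. -/
def LPC (X : Type) [TopologicalSpace X] : Prop :=
  ∀ x : X, ∀ V ∈ 𝓝 x, ∀ᶠ y in 𝓝 x, JoinedIn V x y

theorem IsCompactANR.lpc {X : Type} [TopologicalSpace X] (hX : IsCompactANR X) : LPC X := by
  classical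
  obtain ⟨-, e, U, r, he, hU, cr, hre⟩ := hX
  intro x V hV
  set R : (ℕ → unitInterval) → X := fun u => if h : u ∈ U then r ⟨u, h⟩ else x with hR
  have Rpos : ∀ (u : ℕ → unitInterval) (h : u ∈ U), R u = r ⟨u, h⟩ := fun u h => dif_pos h
  have cR : ContinuousOn R U := by
    rw [continuousOn_iff_continuous_domRestrict]
    have : U.domRestrict R = r := by
      funext u
      exact Rpos _ u.2
    rw [this]; exact cr
  have Re : ∀ y, R (e y) = y := fun y => by
    obtain ⟨h1, h2⟩ := hre y
    rw [Rpos _ h1, h2]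
  have cm : Continuous fun z : X × unitInterval => mix (e x) (e z.1) z.2 :=
    continuous_mix.comp ((continuous_const.prodMk (he.continuous.comp continuous_fst)).prodMk
      (continuous_subtype_val.comp continuous_snd))
  have hloc : ∀ t ∈ (univ : Set unitInterval), ∀ᶠ z in 𝓝 (x, t),
      mix (e x) (e z.1) z.2 ∈ U ∧ R (mix (e x) (e z.1) z.2) ∈ V := by
    intro t _
    have hx : mix (e x) (e x) t ∈ U := by rw [mix_self]; exact (hre x).1
    have h1 : ∀ᶠ z in 𝓝 (x, t), mix (e x) (e z.1) z.2 ∈ U :=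
      cm.continuousAt.eventually (hU.mem_nhds hx)
    have h2 : ContinuousAt (fun z : X × unitInterval => R (mix (e x) (e z.1) z.2)) (x, t) :=
      ContinuousAt.comp (g := R) (cR.continuousAt (hU.mem_nhds hx)) cm.continuousAt
    have h3 : ∀ᶠ z in 𝓝 (x, t), R (mix (e x) (e z.1) z.2) ∈ V := by
      apply h2.eventually_mem
      change V ∈ 𝓝 (R (mix (e x) (e x) t))
      rw [mix_self, Re]; exact hV
    exact h1.and h3
  have h2 := isCompact_univ.eventually_forall_of_forall_eventually
    (P := fun (y : X) (t : unitInterval) => mix (e x) (e y) t ∈ U ∧ R (mix (e x) (e y) t) ∈ V)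
    (x₀ := x) hloc
  filter_upwards [h2] with y hy
  refine ⟨⟨⟨fun t => R (mix (e x) (e y) t), ?_⟩, ?_, ?_⟩, fun t => (hy t (mem_univ _)).2⟩
  · have : (fun t : unitInterval => R (mix (e x) (e y) t)) =
        fun t : unitInterval => r ⟨mix (e x) (e y) t, (hy t (mem_univ _)).1⟩ := by
      funext t; exact Rpos _ _
    rw [this]
    exact cr.comp ((cm.comp (continuous_const.prodMk continuous_id)).subtype_mk _)
  · change R (mix (e x) (e y) ((0 : unitInterval) : ℝ)) = x
    rw [Icc.coe_zero, mix_zero, Re]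
  · change R (mix (e x) (e y) ((1 : unitInterval) : ℝ)) = y
    rw [Icc.coe_one, mix_one, Re]

/-- Last exit from the initial point. -/
theorem exists_strict {X : Type} [TopologicalSpace X] [T2Space X] {V : Set X} {x y : X}
    (h : JoinedIn V x y) (hne : y ≠ x) :
    ∃ γ : C(unitInterval, X), γ 0 = x ∧ γ 1 = y ∧ (∀ t, γ t ∈ V) ∧ ∀ t, t ≠ 0 → γ t ≠ x := by
  obtain ⟨p, hp⟩ := h
  have hc : IsClosed {t : unitInterval | p t = x} := isClosed_singleton.preimage p.continuous
  obtain ⟨t0, ht0, hmax⟩ := hc.isCompact.exists_isGreatest ⟨0, p.source⟩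
  have ht0' : p t0 = x := ht0
  have ht1 : (t0 : ℝ) < 1 := by
    refine lt_of_le_of_ne t0.2.2 (fun h => hne ?_)
    have : t0 = 1 := Subtype.ext h
    rw [← ht0', this, p.target]
  have t00 := t0.2.1
  have cI := continuous_clI
  have hval : ∀ t : unitInterval, ((clI (t0 + (1 - t0) * t) : unitInterval) : ℝ) =
      t0 + (1 - t0) * t := by
    intro t
    have h1 := t.2.1
    have h2 := t.2.2
    apply cl_of_mem
    · have : 0 ≤ (1 - (t0 : ℝ)) * t := mul_nonneg (by linarith) h1
      linarith
    · nlinarith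
  refine ⟨⟨fun t => p (clI (t0 + (1 - t0) * t)), by fun_prop⟩, ?_, ?_, fun t => hp _, ?_⟩
  · change p (clI (t0 + (1 - t0) * ((0 : unitInterval) : ℝ))) = x
    rw [Icc.coe_zero, mul_zero, add_zero, clI_coe, ht0']
  · change p (clI (t0 + (1 - t0) * ((1 : unitInterval) : ℝ))) = y
    rw [Icc.coe_one, mul_one, add_sub_cancel, clI_one, p.target]
  · intro t ht hx
    have h1 : clI (t0 + (1 - t0) * t) ≤ t0 := hmax hx
    have h2 : ((clI (t0 + (1 - t0) * t) : unitInterval) : ℝ) ≤ t0 := h1
    rw [hval] at h2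
    have h3 : 0 < (t : ℝ) := lt_of_le_of_ne t.2.1 (fun h => ht (Subtype.ext h.symm))
    have h4 : 0 < (1 - (t0 : ℝ)) * t := mul_pos (by linarith) h3
    linarith

theorem splice {X : Type} [TopologicalSpace X] (γ β η : C(unitInterval, X)) (s : ℝ)
    (hs0 : 0 < s) (hs1 : s < 1 / 2) (hβ : β 1 = γ (clI s)) (hη : η 0 = γ (clI (1 - s))) :
    ∃ γ' : C(unitInterval, X), γ' 0 = β 0 ∧ γ' 1 = η 1 ∧ ∀ t : unitInterval,
      ((t : ℝ) ≤ s ∧ ∃ u, γ' t = β u ∧ (t ≠ 0 → u ≠ 0)) ∨
      (s ≤ (t : ℝ) ∧ γ' t = γ t) ∨ (1 - s ≤ (t : ℝ) ∧ ∃ u, γ' t = η u) := by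
  have cI := continuous_clI
  set F : unitInterval → X := fun t => if (t : ℝ) ≤ s then β (clI (t / s)) else
    if (t : ℝ) ≤ 1 - s then γ (clI t) else η (clI ((t - (1 - s)) / s)) with hF
  have cF : Continuous F := by
    apply Continuous.if_le
    · fun_prop
    · apply Continuous.if_le
      · fun_prop
      · fun_prop
      · fun_prop
      · fun_prop
      · intro t ht
        rw [ht, sub_self, zero_div, clI_zero, hη]
    · fun_prop
    · fun_prop
    · intro t ht
      rw [ht, div_self hs0.ne', clI_one, if_pos (by linarith), hβ]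
  refine ⟨⟨F, cF⟩, ?_, ?_, ?_⟩
  · change F 0 = β 0
    simp only [hF, Icc.coe_zero]
    rw [if_pos hs0.le, zero_div, clI_zero]
  · change F 1 = η 1
    simp only [hF, Icc.coe_one]
    rw [if_neg (by linarith), if_neg (by linarith)]
    congr 2
    rw [show (1 : ℝ) - (1 - s) = s by ring, div_self hs0.ne', clI_one]
  · intro t
    change ((t : ℝ) ≤ s ∧ ∃ u, F t = β u ∧ (t ≠ 0 → u ≠ 0)) ∨
      (s ≤ (t : ℝ) ∧ F t = γ t) ∨ (1 - s ≤ (t : ℝ) ∧ ∃ u, F t = η u)
    by_cases h1 : (t : ℝ) ≤ s
    · left
      refine ⟨h1, clI (t / s), by simp only [hF]; rw [if_pos h1], fun ht h0 => ?_⟩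
      have h3 : 0 < (t : ℝ) := lt_of_le_of_ne t.2.1 (fun h => ht (Subtype.ext h.symm))
      have h4 : ((clI (t / s) : unitInterval) : ℝ) = t / s :=
        cl_of_mem (by positivity) (div_le_one_of_le₀ h1 hs0.le)
      rw [h0, Icc.coe_zero] at h4
      have : 0 < (t : ℝ) / s := by positivity
      linarith
    · by_cases h2 : (t : ℝ) ≤ 1 - s
      · right; left
        refine ⟨(not_le.1 h1).le, ?_⟩
        simp only [hF]
        rw [if_neg h1, if_pos h2, clI_coe]
      · right; right
        refine ⟨(not_le.1 h2).le, clI ((t - (1 - s)) / s), ?_⟩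
        simp only [hF]
        rw [if_neg h1, if_neg h2]

section psi

variable {X : Type} [MetricSpace X]

/-- The size of a smallest path from `x` to `f x`. -/
noncomputable def psi (f : X → X) (x : X) : ℝ :=
  sInf {r | 0 ≤ r ∧ JoinedIn (Metric.closedBall x r) x (f x)}

lemma psi_bdd (f : X → X) (x : X) :
    BddBelow {r | 0 ≤ r ∧ JoinedIn (Metric.closedBall x r) x (f x)} := ⟨0, fun _ h => h.1⟩

lemma psi_ne [CompactSpace X] {f : X → X} {x : X} (h : Joined x (f x)) :
    {r | 0 ≤ r ∧ JoinedIn (Metric.closedBall x r) x (f x)}.Nonempty := by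
  refine ⟨Metric.diam (univ : Set X), Metric.diam_nonneg, ?_⟩
  have : Metric.closedBall x (Metric.diam (univ : Set X)) = univ := by
    apply eq_univ_of_forall
    intro y
    exact Metric.dist_le_diam_of_mem isCompact_univ.isBounded (mem_univ _) (mem_univ _)
  rw [this]
  exact joinedIn_univ.2 h

lemma psi_nonneg (f : X → X) (x : X) : 0 ≤ psi f x := Real.sInf_nonneg fun _ h => h.1

lemma psi_zero {f : X → X} {x : X} (h : f x = x) : psi f x = 0 := by
  apply le_antisymm _ (psi_nonneg f x)
  apply csInf_le (psi_bdd f x)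
  refine ⟨le_rfl, ?_⟩
  rw [h]
  exact JoinedIn.refl (Metric.mem_closedBall_self le_rfl)

lemma dist_le_psi [CompactSpace X] {f : X → X} {x : X} (h : Joined x (f x)) :
    dist (f x) x ≤ psi f x := le_csInf (psi_ne h) fun _ hr => hr.2.target_mem

lemma exists_of_psi_lt [CompactSpace X] {f : X → X} {x : X} {c : ℝ} (h : Joined x (f x))
    (hc : psi f x < c) : ∃ r < c, JoinedIn (Metric.closedBall x r) x (f x) := by
  obtain ⟨r, hr, hrc⟩ := exists_lt_of_csInf_lt (psi_ne h) hc
  exact ⟨r, hrc, hr.2⟩

lemma psi_le_one [CompactSpace X] {f : X → X} {x x' : X} {ε : ℝ} (hε : 0 < ε)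
    (h : Joined x (f x)) (h1 : JoinedIn (Metric.ball x ε) x x')
    (h2 : JoinedIn (Metric.ball (f x) ε) (f x) (f x')) : psi f x' ≤ psi f x + 3 * ε := by
  have key : ∀ r ∈ {r | 0 ≤ r ∧ JoinedIn (Metric.closedBall x r) x (f x)},
      psi f x' - 3 * ε ≤ r := by
    rintro r ⟨hr0, hr⟩
    have hd : dist x' x < ε := h1.target_mem
    have hf : dist (f x) x ≤ r := hr.target_mem
    have a1 : JoinedIn (Metric.closedBall x' (r + 3 * ε)) x' x := by
      refine h1.symm.mono fun y hy => ?_
      have hy' : dist y x < ε := hy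
      have := dist_triangle_right y x' x
      change dist y x' ≤ r + 3 * ε
      linarith
    have a2 : JoinedIn (Metric.closedBall x' (r + 3 * ε)) x (f x) := by
      refine hr.mono fun y hy => ?_
      have hy' : dist y x ≤ r := hy
      have := dist_triangle_right y x' x
      change dist y x' ≤ r + 3 * ε
      linarith
    have a3 : JoinedIn (Metric.closedBall x' (r + 3 * ε)) (f x) (f x') := by
      refine h2.mono fun y hy => ?_
      have hy' : dist y (f x) < ε := hy
      have := dist_triangle_right y x' x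
      have := dist_triangle y (f x) x
      change dist y x' ≤ r + 3 * ε
      linarith
    have : psi f x' ≤ r + 3 * ε :=
      csInf_le (psi_bdd f x') ⟨by linarith, (a1.trans a2).trans a3⟩
    linarith
  have := le_csInf (psi_ne h) key
  change psi f x' - 3 * ε ≤ psi f x at this
  linarith

lemma psi_ge_one [CompactSpace X] {f : X → X} {x x' : X} {ε : ℝ} (hε : 0 < ε)
    (h : Joined x (f x)) (h1 : JoinedIn (Metric.ball x ε) x x')
    (h2 : JoinedIn (Metric.ball (f x) ε) (f x) (f x')) : psi f x ≤ psi f x' + 3 * ε := by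
  have hj : Joined x' (f x') := (h1.joined.symm.trans h).trans h2.joined
  have key : ∀ r ∈ {r | 0 ≤ r ∧ JoinedIn (Metric.closedBall x' r) x' (f x')},
      psi f x - 3 * ε ≤ r := by
    rintro r ⟨hr0, hr⟩
    have hd : dist x' x < ε := h1.target_mem
    have hd2 : dist (f x') (f x) < ε := h2.target_mem
    have hf : dist (f x') x' ≤ r := hr.target_mem
    have a1 : JoinedIn (Metric.closedBall x (r + 3 * ε)) x x' := by
      refine h1.mono fun y hy => ?_
      have hy' : dist y x < ε := hy
      change dist y x ≤ r + 3 * ε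
      linarith
    have a2 : JoinedIn (Metric.closedBall x (r + 3 * ε)) x' (f x') := by
      refine hr.mono fun y hy => ?_
      have hy' : dist y x' ≤ r := hy
      have := dist_triangle y x' x
      change dist y x ≤ r + 3 * ε
      linarith
    have a3 : JoinedIn (Metric.closedBall x (r + 3 * ε)) (f x') (f x) := by
      refine h2.symm.mono fun y hy => ?_
      have hy' : dist y (f x) < ε := hy
      have := dist_triangle y (f x) x
      have := dist_triangle (f x) (f x') x
      have := dist_triangle (f x') x' x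
      have := dist_comm (f x) (f x')
      change dist y x ≤ r + 3 * ε
      linarith
    have : psi f x ≤ r + 3 * ε :=
      csInf_le (psi_bdd f x) ⟨by linarith, (a1.trans a2).trans a3⟩
    linarith
  have := le_csInf (psi_ne hj) key
  change psi f x - 3 * ε ≤ psi f x' at this
  linarith

lemma psi_continuousAt [CompactSpace X] (hL : LPC X) {f : X → X} (cf : Continuous f) {x : X}
    (h : Joined x (f x)) : ContinuousAt (psi f) x := by
  rw [Metric.continuousAt_iff']
  intro ε hε
  have h1 := hL x (Metric.ball x (ε / 6)) (Metric.ball_mem_nhds _ (by linarith))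
  have h2 := cf.continuousAt.eventually
    (hL (f x) (Metric.ball (f x) (ε / 6)) (Metric.ball_mem_nhds _ (by linarith)))
  filter_upwards [h1, h2] with x' h1 h2
  have a := psi_le_one (by linarith : (0 : ℝ) < ε / 6) h h1 h2
  have b := psi_ge_one (by linarith : (0 : ℝ) < ε / 6) h h1 h2
  rw [Real.dist_eq, abs_lt]
  constructor <;> linarith

end psi

lemma isOpen_forall_compact {Z T : Type} [TopologicalSpace Z] [TopologicalSpace T] {K : Set T}
    (hK : IsCompact K) {W : Set (Z × T)} (hW : IsOpen W) : IsOpen {z | ∀ t ∈ K, (z, t) ∈ W} := by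
  rw [isOpen_iff_eventually]
  intro z hz
  exact hK.eventually_forall_of_forall_eventually (P := fun z t => (z, t) ∈ W) (x₀ := z)
    fun t ht => hW.mem_nhds (hz t ht)

/-- Strict small paths from `x` to `f x` depend lower semicontinuously on `x`. -/
theorem lsc_paths {X : Type} [MetricSpace X] [CompactSpace X] (hL : LPC X) {f : X → X}
    (cf : Continuous f) {x : X} (hx : f x ≠ x) (γ : C(unitInterval, X)) (h0 : γ 0 = x)
    (h1 : γ 1 = f x) (hψ : ∀ t, dist (γ t) x < 2 * psi f x) (hs : ∀ t, t ≠ 0 → γ t ≠ x)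
    {ε : ℝ} (hε : 0 < ε) :
    ∀ᶠ x' in 𝓝 x, ∃ γ' : C(unitInterval, X), (γ' 0 = x' ∧ γ' 1 = f x' ∧
      (∀ t, dist (γ' t) x' < 2 * psi f x') ∧ ∀ t, t ≠ 0 → γ' t ≠ x') ∧ dist γ' γ < ε := by
  have hj : Joined x (f x) := ⟨⟨γ, h0, h1⟩⟩
  obtain ⟨tm, -, hM'⟩ := isCompact_univ.exists_isMaxOn (univ_nonempty (α := unitInterval))
    (f := fun t => dist (γ t) x) (by fun_prop)
  set M := dist (γ tm) x with hM
  have hMt : ∀ t, dist (γ t) x ≤ M := fun t => hM' (mem_univ t)
  have hM0 : 0 ≤ M := dist_nonneg
  obtain ⟨μ, hμ⟩ : ∃ μ, μ = 2 * psi f x - M := ⟨_, rfl⟩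
  have hμ0 : 0 < μ := by have := hψ tm; rw [hμ]; linarith
  have hd0 : 0 < dist (f x) x := dist_pos.2 hx
  obtain ⟨δ, hδ⟩ : ∃ δ, δ = min (ε / 2) (min (μ / 8) (dist (f x) x / 4)) := ⟨_, rfl⟩
  have hδ0 : 0 < δ := by rw [hδ]; positivity
  have hδ1 : δ ≤ ε / 2 := by rw [hδ]; exact min_le_left _ _
  have hδ2 : δ ≤ μ / 8 := by rw [hδ]; exact (min_le_right _ _).trans (min_le_left _ _)
  have hδ3 : δ ≤ dist (f x) x / 4 := by rw [hδ]; exact (min_le_right _ _).trans (min_le_right _ _)
  have cγ : Continuous γ := γ.continuous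
  have e0 : ∀ᶠ t in 𝓝 (0 : unitInterval), dist (γ t) x < δ ∧
      JoinedIn (Metric.ball x δ) x (γ t) := by
    have c0 : Tendsto γ (𝓝 0) (𝓝 x) := by rw [← h0]; exact cγ.continuousAt
    exact (c0.eventually (Metric.ball_mem_nhds x hδ0)).and
      (c0.eventually (hL x _ (Metric.ball_mem_nhds x hδ0)))
  have e1 : ∀ᶠ t in 𝓝 (1 : unitInterval), dist (γ t) (f x) < δ ∧
      JoinedIn (Metric.ball (f x) δ) (f x) (γ t) := by
    have c1 : Tendsto γ (𝓝 1) (𝓝 (f x)) := by rw [← h1]; exact cγ.continuousAt
    exact (c1.eventually (Metric.ball_mem_nhds _ hδ0)).and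
      (c1.eventually (hL _ _ (Metric.ball_mem_nhds _ hδ0)))
  obtain ⟨a, ha, ha'⟩ := Metric.eventually_nhds_iff.1 e0
  obtain ⟨b, hb, hb'⟩ := Metric.eventually_nhds_iff.1 e1
  obtain ⟨s, hsdef⟩ : ∃ s, s = min (a / 2) (min (b / 2) (1 / 4)) := ⟨_, rfl⟩
  have hs0 : 0 < s := by rw [hsdef]; positivity
  have hsa : s ≤ a / 2 := by rw [hsdef]; exact min_le_left _ _
  have hsb : s ≤ b / 2 := by rw [hsdef]; exact (min_le_right _ _).trans (min_le_left _ _)
  have hs4 : s ≤ 1 / 4 := by rw [hsdef]; exact (min_le_right _ _).trans (min_le_right _ _)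
  have near0 : ∀ t : unitInterval, (t : ℝ) ≤ s → dist (γ t) x < δ ∧
      JoinedIn (Metric.ball x δ) x (γ t) := by
    intro t ht
    apply ha'
    rw [Subtype.dist_eq, Real.dist_eq, Icc.coe_zero, sub_zero, abs_of_nonneg t.2.1]
    linarith
  have near1 : ∀ t : unitInterval, 1 - s ≤ (t : ℝ) → dist (γ t) (f x) < δ ∧
      JoinedIn (Metric.ball (f x) δ) (f x) (γ t) := by
    intro t ht
    apply hb'
    have := t.2.2
    rw [Subtype.dist_eq, Real.dist_eq, Icc.coe_one, abs_of_nonpos (by linarith)]
    linarith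
  have hcs : ((clI s : unitInterval) : ℝ) = s := cl_of_mem hs0.le (by linarith)
  have hcs1 : ((clI (1 - s) : unitInterval) : ℝ) = 1 - s := cl_of_mem (by linarith) (by linarith)
  have hK : IsCompact {t : unitInterval | s ≤ (t : ℝ)} :=
    (isClosed_le continuous_const continuous_subtype_val).isCompact
  have n3 : ∀ᶠ x' in 𝓝 x, x' ∉ γ '' {t : unitInterval | s ≤ (t : ℝ)} := by
    apply (hK.image cγ).isClosed.isOpen_compl.mem_nhds
    rintro ⟨t, ht, hxt⟩
    refine hs t ?_ hxt
    rintro rfl
    have : s ≤ ((0 : unitInterval) : ℝ) := ht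
    rw [Icc.coe_zero] at this
    linarith
  have n1 := hL x _ (Metric.ball_mem_nhds x hδ0)
  have n2 := cf.continuousAt.eventually (hL (f x) _ (Metric.ball_mem_nhds (f x) hδ0))
  have n4 : ∀ᶠ x' in 𝓝 x, psi f x - μ / 8 < psi f x' :=
    (psi_continuousAt hL cf hj).eventually (lt_mem_nhds (by linarith))
  filter_upwards [n1, n2, n3, n4] with x' n1 n2 n3 n4
  have hdx : dist x' x < δ := n1.target_mem
  obtain ⟨β, β0, β1, βV, βs⟩ := exists_strict (n1.symm.trans (near0 (clI s) hcs.le).2)
    (fun h => n3 ⟨clI s, hcs.ge, h⟩)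
  obtain ⟨η, hη⟩ := (near1 (clI (1 - s)) hcs1.ge).2.symm.trans n2
  obtain ⟨γ', g0, g1, hg⟩ := splice γ β η.toContinuousMap s hs0 (by linarith) β1 η.source
  refine ⟨γ', ⟨g0.trans β0, g1.trans η.target, ?_, ?_⟩, ?_⟩
  · intro t
    rcases hg t with ⟨-, u, hu, -⟩ | ⟨-, hu⟩ | ⟨-, u, hu⟩
    · rw [hu]
      have h2 : dist (β u) x < δ := βV u
      have := dist_triangle_right (β u) x' x
      linarith
    · rw [hu]
      have := dist_triangle_right (γ t) x' x
      have := hMt t
      linarith
    · rw [hu]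
      have h2 : dist (η u) (f x) < δ := hη u
      have h3 : dist (f x) x ≤ M := by rw [← h1]; exact hMt 1
      have := dist_triangle_right (η u) x' x
      have := dist_triangle (η u) (f x) x
      change dist (η u) x' < _
      linarith
  · intro t ht
    rcases hg t with ⟨-, u, hu, hu0⟩ | ⟨hts, hu⟩ | ⟨-, u, hu⟩
    · rw [hu]; exact βs u (hu0 ht)
    · rw [hu]; exact fun h => n3 ⟨t, hts, h⟩
    · rw [hu]
      intro h
      change η u = x' at h
      have h2 : dist (η u) (f x) < δ := hη u
      rw [h] at h2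
      have := dist_triangle_left (f x) x x'
      linarith
  · rw [ContinuousMap.dist_lt_iff hε]
    intro t
    rcases hg t with ⟨hts, u, hu, -⟩ | ⟨-, hu⟩ | ⟨hts, u, hu⟩
    · rw [hu]
      have h2 : dist (β u) x < δ := βV u
      have h3 := (near0 t hts).1
      have := dist_triangle_right (β u) (γ t) x
      linarith
    · rw [hu, dist_self]; exact hε
    · rw [hu]
      have h2 : dist (η u) (f x) < δ := hη u
      have h3 := (near1 t hts).1
      have := dist_triangle_right (η u) (γ t) (f x)
      change dist (η u) (γ t) < _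
      linarith

theorem strict_homotopy {X : Type} [MetricSpace X] [CompactSpace X] (hL : LPC X) (f : X → X)
    (cf : Continuous f) (A : Set X) (hA : IsClosed A)
    (hd : IsTotallyDisconnected (A \ {x | f x = x})) (hj : ∀ x ∈ A, Joined x (f x)) :
    ∃ H : A × unitInterval → X, Continuous H ∧ (∀ x : A, H (x, 0) = x) ∧
      (∀ x : A, H (x, 1) = f x) ∧ (∀ x : A, f x = x → ∀ t, H (x, t) = x) ∧
      ∀ x : A, f x ≠ x → ∀ t, t ≠ 0 → H (x, t) ≠ x := by
  classical
  have hFc : IsClosed {x | f x = x} := isClosed_eq cf continuous_id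
  set D : Set X := A \ {x | f x = x} with hD
  haveI : LocallyCompactSpace D :=
    (hA.isLocallyClosed.inter hFc.isOpen_compl.isLocallyClosed).locallyCompactSpace
  haveI : TotallyDisconnectedSpace D := totallyDisconnectedSpace_subtype_iff.2 hd
  have hbasis := loc_compact_Haus_tot_disc_of_zero_dim (H := D)
  haveI : SecondCountableTopology X := inferInstance
  have cψ : Continuous fun x : D => psi f x := by
    rw [continuous_iff_continuousAt]
    intro x
    exact ContinuousAt.comp (g := psi f) (psi_continuousAt hL cf (hj x x.2.1))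
      continuous_subtype_val.continuousAt
  set O : ℕ → Set (D × C(unitInterval, X)) := fun n => {z | dist (z.2 0) z.1 < 1 / ((n : ℝ) + 1) ∧
    dist (z.2 1) (f z.1) < 1 / ((n : ℝ) + 1) ∧
    (∀ t ∈ (univ : Set unitInterval), dist (z.2 t) z.1 < 2 * psi f z.1) ∧
    ∀ t ∈ {t : unitInterval | 1 / ((n : ℝ) + 1) ≤ t}, z.2 t ≠ z.1} with hO
  have cev : Continuous fun z : (D × C(unitInterval, X)) × unitInterval => z.1.2 z.2 := by
    fun_prop
  have cev' : ∀ t : unitInterval, Continuous fun z : D × C(unitInterval, X) => z.2 t :=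
    fun t => by fun_prop
  have hOo : ∀ n, IsOpen (O n) := by
    intro n
    apply IsOpen.inter
    · exact isOpen_lt ((cev' 0).dist (continuous_subtype_val.comp continuous_fst))
        continuous_const
    apply IsOpen.inter
    · exact isOpen_lt ((cev' 1).dist (cf.comp (continuous_subtype_val.comp continuous_fst)))
        continuous_const
    apply IsOpen.inter
    · apply isOpen_forall_compact isCompact_univ
        (W := {z : (D × C(unitInterval, X)) × unitInterval |
          dist (z.1.2 z.2) z.1.1 < 2 * psi f z.1.1})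
      apply isOpen_lt
      · exact cev.dist (continuous_subtype_val.comp (continuous_fst.comp continuous_fst))
      · exact continuous_const.mul (cψ.comp (continuous_fst.comp continuous_fst))
    · apply isOpen_forall_compact
        (isClosed_le continuous_const continuous_subtype_val).isCompact
        (W := {z : (D × C(unitInterval, X)) × unitInterval | z.1.2 z.2 ≠ z.1.1})
      exact isOpen_ne_fun cev (continuous_subtype_val.comp (continuous_fst.comp continuous_fst))
  have hOiff : ∀ (x : D) (γ : C(unitInterval, X)), (∀ n, (x, γ) ∈ O n) ↔ (γ 0 = x ∧ γ 1 = f x ∧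
      (∀ t, dist (γ t) x < 2 * psi f x) ∧ ∀ t, t ≠ 0 → γ t ≠ x) := by
    intro x γ
    constructor
    · intro h
      refine ⟨?_, ?_, fun t => (h 0).2.2.1 t (mem_univ _), ?_⟩
      · rw [← dist_le_zero]
        apply le_of_forall_pos_lt_add
        intro ε hε
        obtain ⟨n, hn⟩ := exists_nat_one_div_lt hε
        rw [zero_add]
        exact (h n).1.trans hn
      · rw [← dist_le_zero]
        apply le_of_forall_pos_lt_add
        intro ε hε
        obtain ⟨n, hn⟩ := exists_nat_one_div_lt hε
        rw [zero_add]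
        exact (h n).2.1.trans hn
      · intro t ht
        have h3 : 0 < (t : ℝ) := lt_of_le_of_ne t.2.1 (fun h => ht (Subtype.ext h.symm))
        obtain ⟨n, hn⟩ := exists_nat_one_div_lt h3
        exact (h n).2.2.2 t hn.le
    · rintro ⟨h1, h2, h3, h4⟩ n
      have hn : (0 : ℝ) < 1 / ((n : ℝ) + 1) := by positivity
      refine ⟨by change dist (γ 0) x < _; rw [h1, dist_self]; exact hn,
        by change dist (γ 1) (f x) < _; rw [h2, dist_self]; exact hn, fun t _ => h3 t, ?_⟩
      intro t ht
      apply h4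
      rintro rfl
      have : 1 / ((n : ℝ) + 1) ≤ ((0 : unitInterval) : ℝ) := ht
      rw [Icc.coe_zero] at this
      linarith
  obtain ⟨sel, csel, hsel⟩ := select hbasis O hOo
    (fun x => by
      have hjx := hj x x.2.1
      have hpos : 0 < psi f x := lt_of_lt_of_le (dist_pos.2 x.2.2) (dist_le_psi hjx)
      obtain ⟨r, hr, hJ⟩ := exists_of_psi_lt hjx (by linarith : psi f x < 2 * psi f x)
      obtain ⟨γ, g0, g1, gV, gs⟩ := exists_strict hJ x.2.2
      exact ⟨γ, (hOiff x γ).2 ⟨g0, g1, fun t => lt_of_le_of_lt (gV t) hr, gs⟩⟩)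
    (fun x γ hγ ε hε => by
      obtain ⟨h1, h2, h3, h4⟩ := (hOiff x γ).1 hγ
      have := continuous_subtype_val.continuousAt.eventually
        (lsc_paths hL cf x.2.2 γ h1 h2 h3 h4 hε)
      filter_upwards [this] with x' hx'
      obtain ⟨γ', hγ', hd'⟩ := hx'
      exact ⟨γ', (hOiff x' γ').2 hγ', hd'⟩)
  have hS := fun x => (hOiff x (sel x)).1 (hsel x)
  set H : A × unitInterval → X := fun z =>
    if h : f z.1 = z.1 then (z.1 : X) else sel ⟨z.1, z.1.2, h⟩ z.2 with hH
  have Hpos : ∀ (x : A) (h : f x = x) (t : unitInterval), H (x, t) = x := fun x h t => dif_pos h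
  have Hneg : ∀ (x : A) (h : f x ≠ x) (t : unitInterval),
      H (x, t) = sel ⟨x, x.2, h⟩ t := fun x h t => dif_neg h
  refine ⟨H, ?_, ?_, ?_, fun x hx t => Hpos x hx t, ?_⟩
  · rw [continuous_iff_continuousAt]
    rintro ⟨x, t⟩
    by_cases hx : f x = x
    · -- a fixed point
      have c1 : ContinuousAt (fun z : A × unitInterval => dist (z.1 : X) x + 2 * psi f z.1)
          (x, t) := by
        apply ContinuousAt.add
        · fun_prop
        · apply continuousAt_const.mul
          exact ContinuousAt.comp (g := psi f) (f := fun z : A × unitInterval => (z.1 : X))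
            (psi_continuousAt hL cf (hj x x.2)) (by fun_prop)
      have c2 : Tendsto (fun z : A × unitInterval => dist (z.1 : X) x + 2 * psi f z.1)
          (𝓝 (x, t)) (𝓝 0) := by
        have := c1.tendsto
        simpa [psi_zero hx] using this
      rw [ContinuousAt, Hpos x hx, tendsto_iff_dist_tendsto_zero]
      refine squeeze_zero (fun _ => dist_nonneg) (fun z => ?_) c2
      by_cases hz : f z.1 = z.1
      · rw [Hpos z.1 hz]
        have := psi_nonneg f (z.1 : X)
        linarith
      · rw [Hneg z.1 hz]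
        have h3 := (hS ⟨z.1, z.1.2, hz⟩).2.2.1 z.2
        have := dist_triangle (sel ⟨z.1, z.1.2, hz⟩ z.2) z.1 x
        change dist (sel ⟨z.1, z.1.2, hz⟩ z.2) z.1 < 2 * psi f z.1 at h3
        linarith
    · have hO' : IsOpen {z : A × unitInterval | f z.1 ≠ z.1} :=
        isOpen_ne_fun (cf.comp (continuous_subtype_val.comp continuous_fst))
          (continuous_subtype_val.comp continuous_fst)
      have : ContinuousOn H {z : A × unitInterval | f z.1 ≠ z.1} := by
        rw [continuousOn_iff_continuous_domRestrict]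
        have : ({z : A × unitInterval | f z.1 ≠ z.1}).domRestrict H =
            fun z => sel ⟨z.1.1, z.1.1.2, z.2⟩ z.1.2 := by
          funext z
          exact Hneg z.1.1 z.2 z.1.2
        rw [this]
        have c3 : Continuous fun z : {z : A × unitInterval | f z.1 ≠ z.1} =>
            ((⟨z.1.1, z.1.1.2, z.2⟩ : D), z.1.2) :=
          ((continuous_subtype_val.comp (continuous_fst.comp continuous_subtype_val)).subtype_mk
            _).prodMk (continuous_snd.comp continuous_subtype_val)
        have c4 : Continuous fun z : D × unitInterval => sel z.1 z.2 :=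
          cev.comp ((continuous_fst.prodMk (csel.comp continuous_fst)).prodMk continuous_snd)
        exact c4.comp c3
      exact this.continuousAt (hO'.mem_nhds hx)
  · intro x
    by_cases hx : f x = x
    · exact Hpos x hx 0
    · rw [Hneg x hx]; exact (hS _).1
  · intro x
    by_cases hx : f x = x
    · rw [Hpos x hx, hx]
    · rw [Hneg x hx]; exact (hS _).2.1
  · intro x hx t ht
    rw [Hneg x hx]; exact (hS _).2.2.2 t ht

/-- Totally disconnected closed sets can be added to fixed point sets. -/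
theorem add_tot_disc {X : Type} [TopologicalSpace X] (hX : IsCompactANR X) (f : X → X)
    (cf : Continuous f) (A : Set X) (hA : IsClosed A)
    (hd : IsTotallyDisconnected (A \ {x | f x = x})) (hj : ∀ x ∈ A, Joined x (f x)) :
    IsFixSet X (A ∪ {x | f x = x}) := by
  haveI := hX.metrizable
  haveI := hX.1
  letI := metrizableSpaceMetric X
  obtain ⟨H, cH, H0, H1, Hs, Hm⟩ := strict_homotopy hX.lpc f cf A hA hd hj
  exact enlarge hX A hA f cf H cH H0 H1 Hs Hm

end Pool.Agent.helper30.CIP
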